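import Mathlib

set_option autoImplicit false

namespace Pool.Agent.Helper46.A.A1

open Finset

variable {β : Type*} [DecidableEq β]

/-- stable subsets of `A` for the relation `adj` -/
def stab (adj : β → β → Prop) [DecidableRel adj] (A : Finset β) : Finset (Finset β) :=
  A.powerset.filter (fun R => ∀ x ∈ R, ∀ y ∈ R, ¬ adj x y)

noncomputable def tt (a θ : ℝ) (x : ℕ) : ℝ := if (x : ℝ) ≤ a then 0 else Real.log (x / a) / θ + 1


theorem kwU_mono (a θ : ℝ) (ha : 0 < a) (hθ : 0 < θ) {x y : ℕ} (h : x ≤ y) :
    tt a θ x ≤ tt a θ y := by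
  have hxy : (x : ℝ) ≤ y := by exact_mod_cast h
  unfold tt
  split_ifs with h1 h2 h2
  · exact le_rfl
  · push Not at h2
    have : 0 ≤ Real.log (y / a) := Real.log_nonneg ((one_le_div ha).2 h2.le)
    positivity
  · exact absurd (hxy.trans h2) h1
  · push Not at h1 h2
    have : Real.log (x / a) ≤ Real.log (y / a) :=
      Real.log_le_log (div_pos (ha.trans h1) ha) (by gcongr)
    gcongr

theorem kwU_step (a θ : ℝ) (ha : 0 < a) (hθ : 0 < θ) {x x' : ℕ} (hx : a < x)
    (h : (x' : ℝ) ≤ (1 - θ) * x) : tt a θ x' ≤ tt a θ x - 1 := by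
  have hx0 : (0 : ℝ) < x := ha.trans hx
  unfold tt
  rw [if_neg (not_le.2 hx)]
  split_ifs with h1
  · have : 0 ≤ Real.log (x / a) := Real.log_nonneg ((one_le_div ha).2 hx.le)
    have : 0 ≤ Real.log (x / a) / θ := by positivity
    linarith
  · push Not at h1
    have hx'0 : (0 : ℝ) < x' := ha.trans h1
    have h2 := Real.log_le_sub_one_of_pos (div_pos hx'0 hx0)
    have h3 : (x' : ℝ) / x ≤ 1 - θ := by rw [div_le_iff₀ hx0]; exact h
    rw [Real.log_div hx'0.ne' hx0.ne'] at h2
    rw [Real.log_div hx'0.ne' ha.ne', Real.log_div hx0.ne' ha.ne']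
    have h4 : Real.log x' - Real.log a + θ ≤ Real.log x - Real.log a := by linarith
    have h5 : (Real.log x' - Real.log a + θ) / θ ≤ (Real.log x - Real.log a) / θ := by gcongr
    rw [add_div, div_self hθ.ne'] at h5
    linarith

theorem kwU_card (adj : β → β → Prop) [DecidableRel adj] (A : Finset β) (v : β) :
    (stab adj A).card ≤ (stab adj (A.erase v)).card +
      (stab adj ((A.erase v).filter (fun u => ¬ adj v u))).card := by
  have h1 := Finset.card_filter_add_card_filter_not (s := stab adj A) (fun R => v ∈ R)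
  have h2 : ((stab adj A).filter (fun R => ¬ v ∈ R)).card ≤ (stab adj (A.erase v)).card := by
    apply Finset.card_le_card
    intro R hR
    simp only [stab, Finset.mem_filter, Finset.mem_powerset] at hR ⊢
    refine ⟨?_, hR.1.2⟩
    intro x hx
    rw [Finset.mem_erase]
    refine ⟨?_, hR.1.1 hx⟩
    rintro rfl
    exact hR.2 hx
  have h3 : ((stab adj A).filter (fun R => v ∈ R)).card ≤
      (stab adj ((A.erase v).filter (fun u => ¬ adj v u))).card := by
    apply Finset.card_le_card_of_injOn (fun R => R.erase v)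
    · intro R hR
      have hR' : R ∈ (stab adj A).filter (fun R => v ∈ R) := hR
      simp only [stab, Finset.mem_filter, Finset.mem_powerset] at hR'
      have : R.erase v ∈ stab adj ((A.erase v).filter (fun u => ¬ adj v u)) := by
        simp only [stab, Finset.mem_filter, Finset.mem_powerset]
        constructor
        · intro x hx
          rw [Finset.mem_erase] at hx
          rw [Finset.mem_filter, Finset.mem_erase]
          exact ⟨⟨hx.1, hR'.1.1 hx.2⟩, hR'.1.2 v hR'.2 x hx.2⟩
        · intro x hx y hy
          exact hR'.1.2 x (Finset.mem_of_mem_erase hx) y (Finset.mem_of_mem_erase hy)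
      exact this
    · intro R hR R' hR' he
      have hv : v ∈ R := (Finset.mem_filter.1 (show R ∈ (stab adj A).filter (fun R => v ∈ R) from hR)).2
      have hv' : v ∈ R' := (Finset.mem_filter.1 (show R' ∈ (stab adj A).filter (fun R => v ∈ R) from hR')).2
      have he' : R.erase v = R'.erase v := he
      rw [← Finset.insert_erase hv, ← Finset.insert_erase hv', he']
  omega

theorem kw_U (adj : β → β → Prop) [DecidableRel adj] (hs : ∀ x y, adj x y → adj y x)
    (hi : ∀ x, ¬ adj x x) (a θ : ℝ) (ha : 0 < a) (hθ : 0 < θ) (V : Finset β)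
    (h : ∀ A ⊆ V, a < (A.card : ℝ) →
      ∃ v ∈ A, θ * (A.card : ℝ) ≤ ((A.filter (fun u => adj v u)).card : ℝ))
    (lam : ℝ) (hl : 1 ≤ lam) :
    ((stab adj V).card : ℝ) ≤
      (2 : ℝ) ^ a * lam ^ (tt a θ V.card) * (1 + 1 / lam) ^ V.card := by
  have hl0 : 0 < lam := by linarith
  have h1l : 1 ≤ 1 + 1 / lam := by
    have : 0 ≤ 1 / lam := by positivity
    linarith
  have h2a : (0 : ℝ) < 2 ^ a := by positivity
  suffices H : ∀ A : Finset β, A ⊆ V → ((stab adj A).card : ℝ) ≤
      (2 : ℝ) ^ a * lam ^ (tt a θ A.card) * (1 + 1 / lam) ^ A.card from H V subset_rfl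
  intro A
  induction A using Finset.strongInduction with
  | H A ih =>
    intro hA
    by_cases hc : (A.card : ℝ) ≤ a
    · have h1 : ((stab adj A).card : ℝ) ≤ (2 : ℝ) ^ (A.card : ℝ) := by
        rw [Real.rpow_natCast]
        have : (stab adj A).card ≤ 2 ^ A.card := by
          rw [← Finset.card_powerset]
          exact Finset.card_filter_le _ _
        exact_mod_cast this
      have h2 : (2 : ℝ) ^ (A.card : ℝ) ≤ (2 : ℝ) ^ a :=
        Real.rpow_le_rpow_of_exponent_le (by norm_num) hc
      have h3 : tt a θ A.card = 0 := if_pos hc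
      rw [h3, Real.rpow_zero, mul_one]
      calc ((stab adj A).card : ℝ) ≤ (2 : ℝ) ^ a := h1.trans h2
        _ = (2 : ℝ) ^ a * 1 := (mul_one _).symm
        _ ≤ _ := mul_le_mul_of_nonneg_left (one_le_pow₀ h1l) h2a.le
    · push Not at hc
      obtain ⟨v, hv, hd⟩ := h A hA hc
      set A' := (A.erase v).filter (fun u => ¬ adj v u) with hA'
      have hAe : (A.erase v).card + 1 = A.card := Finset.card_erase_add_one hv
      have hfe : A.filter (fun u => adj v u) = (A.erase v).filter (fun u => adj v u) := by
        ext u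
        simp only [Finset.mem_filter, Finset.mem_erase]
        constructor
        · rintro ⟨h1, h2⟩
          refine ⟨⟨?_, h1⟩, h2⟩
          rintro rfl
          exact hi _ h2
        · rintro ⟨⟨_, h1⟩, h2⟩
          exact ⟨h1, h2⟩
      have hA'c : (A.filter (fun u => adj v u)).card + A'.card = (A.erase v).card := by
        rw [hfe]
        exact Finset.card_filter_add_card_filter_not (fun u => adj v u)
      have hss1 : A.erase v ⊂ A := Finset.erase_ssubset hv
      have hss2 : A' ⊂ A := lt_of_le_of_lt (Finset.filter_subset _ _) hss1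
      have ih1 := ih (A.erase v) hss1 (hss1.subset.trans hA)
      have ih2 := ih A' hss2 (hss2.subset.trans hA)
      have hsum : ((stab adj A).card : ℝ) ≤ (stab adj (A.erase v)).card + (stab adj A').card := by
        exact_mod_cast kwU_card adj A v
      have hx' : (A'.card : ℝ) ≤ (1 - θ) * A.card := by
        have e1 : ((A.filter (fun u => adj v u)).card : ℝ) + A'.card + 1 = A.card := by
          rw [← hAe, ← hA'c]; push_cast; ring
        linarith
      have ht1 : tt a θ (A.erase v).card ≤ tt a θ A.card :=
        kwU_mono a θ ha hθ (by omega)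
      have ht2 : tt a θ A'.card ≤ tt a θ A.card - 1 := kwU_step a θ ha hθ hc hx'
      have hpw : (1 + 1 / lam) ^ A'.card ≤ (1 + 1 / lam) ^ (A.erase v).card :=
        pow_le_pow_right₀ h1l (by omega)
      have hb1 : ((stab adj (A.erase v)).card : ℝ) ≤
          2 ^ a * lam ^ (tt a θ A.card) * (1 + 1 / lam) ^ (A.erase v).card := by
        refine ih1.trans ?_
        have := Real.rpow_le_rpow_of_exponent_le hl ht1
        gcongr
      have hb2 : ((stab adj A').card : ℝ) ≤
          2 ^ a * (lam ^ (tt a θ A.card) * (1 / lam)) * (1 + 1 / lam) ^ (A.erase v).card := by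
        refine ih2.trans ?_
        have h3 : lam ^ (tt a θ A'.card) ≤ lam ^ (tt a θ A.card) * (1 / lam) := by
          have := Real.rpow_le_rpow_of_exponent_le hl ht2
          rw [Real.rpow_sub hl0, Real.rpow_one] at this
          rw [mul_one_div]
          exact this
        gcongr
      refine hsum.trans ((add_le_add hb1 hb2).trans (le_of_eq ?_))
      rw [← hAe, pow_succ]
      ring

end Pool.Agent.Helper46.A.A1
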