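import Mathlib

set_option autoImplicit false

namespace Pool.Agent.Helper46.A.A2

open Finset

variable {β : Type*} [DecidableEq β]

/-- stable subsets of `A` for the relation `adj` -/
def stab (adj : β → β → Prop) [DecidableRel adj] (A : Finset β) : Finset (Finset β) :=
  A.powerset.filter (fun R => ∀ x ∈ R, ∀ y ∈ R, ¬ adj x y)

noncomputable def tt (a θ : ℝ) (x : ℕ) : ℝ := if (x : ℝ) ≤ a then 0 else Real.log (x / a) / θ + 1


private theorem j22096_mem (adj : β → β → Prop) [DecidableRel adj] (A R : Finset β) :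
    R ∈ stab adj A ↔ R ⊆ A ∧ ∀ x ∈ R, ∀ y ∈ R, ¬ adj x y := by
  unfold stab
  rw [Finset.mem_filter, Finset.mem_powerset]

private theorem j22096_half (adj : β → β → Prop) [DecidableRel adj] (A : Finset β) (y : β) :
    2 * ((stab adj A).filter (fun R => y ∈ R)).card ≤ (stab adj A).card := by
  have h1 : ((stab adj A).filter (fun R => y ∈ R)).card ≤
      ((stab adj A).filter (fun R => ¬ y ∈ R)).card := by
    refine Finset.card_le_card_of_injOn (fun R => R.erase y) ?_ ?_
    · intro R hR
      have hR' := Finset.mem_filter.1 (Finset.mem_coe.1 hR)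
      obtain ⟨h2, h3⟩ := hR'
      rw [j22096_mem] at h2
      apply Finset.mem_coe.2
      rw [Finset.mem_filter, j22096_mem]
      refine ⟨⟨(Finset.erase_subset _ _).trans h2.1, fun a ha b hb =>
        h2.2 a (Finset.mem_of_mem_erase ha) b (Finset.mem_of_mem_erase hb)⟩, ?_⟩
      exact Finset.notMem_erase y R
    · intro R hR R' hR' he
      have h2 := (Finset.mem_filter.1 (Finset.mem_coe.1 hR)).2
      have h3 := (Finset.mem_filter.1 (Finset.mem_coe.1 hR')).2
      have he' : R.erase y = R'.erase y := he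
      rw [← Finset.insert_erase h2, ← Finset.insert_erase h3, he']
  have h2 := Finset.card_filter_add_card_filter_not (s := stab adj A) (fun R => y ∈ R)
  omega

private theorem j22096_small (adj : β → β → Prop) [DecidableRel adj] (A : Finset β) :
    (∑ R ∈ stab adj A, (R.card : ℝ)) ≤ ((A.card : ℝ) / 2) * ((stab adj A).card : ℝ) := by
  have h1 : ∀ R ∈ stab adj A, (R.card : ℝ) = ∑ y ∈ A, (if y ∈ R then (1 : ℝ) else 0) := by
    intro R hR
    rw [j22096_mem] at hR
    rw [Finset.sum_boole, Finset.filter_mem_eq_inter, Finset.inter_eq_right.2 hR.1]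
  rw [Finset.sum_congr rfl h1, Finset.sum_comm]
  have h2 : ∀ y ∈ A, ∑ R ∈ stab adj A, (if y ∈ R then (1 : ℝ) else 0) ≤
      ((stab adj A).card : ℝ) / 2 := by
    intro y _
    rw [Finset.sum_boole]
    have h3 := j22096_half adj A y
    have h4 : (2 : ℝ) * (((stab adj A).filter (fun R => y ∈ R)).card : ℝ) ≤
        ((stab adj A).card : ℝ) := by exact_mod_cast h3
    linarith
  refine (Finset.sum_le_sum h2).trans ?_
  rw [Finset.sum_const, nsmul_eq_mul]
  apply le_of_eq
  ring

private theorem j22096_sum (adj : β → β → Prop) [DecidableRel adj]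
    (hs : ∀ x y, adj x y → adj y x) (hi : ∀ x, ¬ adj x x) (A : Finset β) (v : β) (hv : v ∈ A)
    (f : Finset β → ℝ) :
    ∑ R ∈ stab adj A, f R = ∑ R ∈ stab adj (A.erase v), f R +
      ∑ R ∈ stab adj ((A.erase v).filter (fun u => ¬ adj v u)), f (insert v R) := by
  rw [← Finset.sum_filter_add_sum_filter_not (stab adj A) (fun R => v ∉ R) f]
  congr 1
  · refine Finset.sum_congr ?_ (fun _ _ => rfl)
    ext R
    rw [Finset.mem_filter, j22096_mem, j22096_mem]
    constructor
    · rintro ⟨⟨h1, h2⟩, h3⟩
      exact ⟨Finset.subset_erase.2 ⟨h1, h3⟩, h2⟩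
    · rintro ⟨h1, h2⟩
      obtain ⟨h3, h4⟩ := Finset.subset_erase.1 h1
      exact ⟨⟨h3, h2⟩, h4⟩
  · refine Finset.sum_nbij' (fun R => R.erase v) (fun R => insert v R) ?_ ?_ ?_ ?_ ?_
    · intro R hR
      rw [Finset.mem_filter, j22096_mem, not_not] at hR
      obtain ⟨⟨h1, h2⟩, h3⟩ := hR
      rw [j22096_mem]
      refine ⟨?_, fun a ha b hb =>
        h2 a (Finset.mem_of_mem_erase ha) b (Finset.mem_of_mem_erase hb)⟩
      intro x hx
      rw [Finset.mem_filter]
      exact ⟨Finset.erase_subset_erase v h1 hx, h2 v h3 x (Finset.mem_of_mem_erase hx)⟩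
    · intro R hR
      rw [j22096_mem] at hR
      obtain ⟨h1, h2⟩ := hR
      rw [Finset.mem_filter, j22096_mem, not_not]
      have h3 : ∀ x ∈ R, x ∈ A ∧ ¬ adj v x := by
        intro x hx
        have h4 := Finset.mem_filter.1 (h1 hx)
        exact ⟨Finset.mem_of_mem_erase h4.1, h4.2⟩
      refine ⟨⟨?_, ?_⟩, Finset.mem_insert_self v R⟩
      · intro x hx
        rcases Finset.mem_insert.1 hx with h | h
        · rw [h]
          exact hv
        · exact (h3 x h).1
      · intro x hx y hy
        rcases Finset.mem_insert.1 hx with h | h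
        · rcases Finset.mem_insert.1 hy with h' | h'
          · rw [h, h']
            exact hi v
          · rw [h]
            exact (h3 y h').2
        · rcases Finset.mem_insert.1 hy with h' | h'
          · rw [h']
            exact fun hxv => (h3 x h).2 (hs _ _ hxv)
          · exact h2 x h y h'
    · intro R hR
      rw [Finset.mem_filter, not_not] at hR
      exact Finset.insert_erase hR.2
    · intro R hR
      rw [j22096_mem] at hR
      apply Finset.erase_insert
      intro h
      have h4 := Finset.mem_filter.1 (hR.1 h)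
      exact (Finset.mem_erase.1 h4.1).1 rfl
    · intro R hR
      rw [Finset.mem_filter, not_not] at hR
      rw [Finset.insert_erase hR.2]

private theorem j22096_tt_mono (a θ : ℝ) (ha : 0 < a) (hθ : 0 < θ) (x y : ℕ) (hxy : x ≤ y) :
    tt a θ x ≤ tt a θ y := by
  unfold tt
  have hxy' : (x : ℝ) ≤ y := by exact_mod_cast hxy
  by_cases hx : (x : ℝ) ≤ a
  · rw [if_pos hx]
    by_cases hy : (y : ℝ) ≤ a
    · rw [if_pos hy]
    · rw [if_neg hy]
      push Not at hy
      have h1 : 0 ≤ Real.log ((y : ℝ) / a) := Real.log_nonneg (by rw [le_div_iff₀ ha]; linarith)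
      positivity
  · have hy : ¬ ((y : ℝ) ≤ a) := by
      intro h
      exact hx (hxy'.trans h)
    rw [if_neg hx, if_neg hy]
    push Not at hx
    have h1 : Real.log ((x : ℝ) / a) ≤ Real.log ((y : ℝ) / a) := by
      apply Real.log_le_log
      · exact div_pos (ha.trans hx) ha
      · exact div_le_div_of_nonneg_right hxy' ha.le
    have h2 : Real.log ((x : ℝ) / a) / θ ≤ Real.log ((y : ℝ) / a) / θ :=
      div_le_div_of_nonneg_right h1 hθ.le
    linarith

private theorem j22096_tt_step (a θ : ℝ) (ha : 0 < a) (hθ : 0 < θ) (x y : ℕ)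
    (hy : a < (y : ℝ)) (hxy : (x : ℝ) ≤ (1 - θ) * y) : tt a θ x + 1 ≤ tt a θ y := by
  unfold tt
  rw [if_neg (not_le.2 hy)]
  have hy0 : (0 : ℝ) < y := ha.trans hy
  by_cases hx : (x : ℝ) ≤ a
  · rw [if_pos hx]
    have h1 : 0 ≤ Real.log ((y : ℝ) / a) := Real.log_nonneg (by rw [le_div_iff₀ ha]; linarith)
    have h2 : 0 ≤ Real.log ((y : ℝ) / a) / θ := by positivity
    linarith
  · rw [if_neg hx]
    push Not at hx
    have hx0 : (0 : ℝ) < x := ha.trans hx
    have hθ1 : 0 < 1 - θ := by
      by_contra hcon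
      push Not at hcon
      have : (1 - θ) * (y : ℝ) ≤ 0 := mul_nonpos_of_nonpos_of_nonneg hcon hy0.le
      linarith
    have h1 : Real.log ((x : ℝ) / a) ≤ Real.log ((1 - θ) * ((y : ℝ) / a)) := by
      apply Real.log_le_log
      · exact div_pos hx0 ha
      · rw [← mul_div_assoc]
        exact div_le_div_of_nonneg_right hxy ha.le
    rw [Real.log_mul hθ1.ne' (div_pos hy0 ha).ne'] at h1
    have h2 : Real.log (1 - θ) ≤ -θ := by
      have := Real.log_le_sub_one_of_pos hθ1
      linarith
    have h3 : Real.log ((x : ℝ) / a) ≤ Real.log ((y : ℝ) / a) - θ := by linarith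
    have h4 : Real.log ((x : ℝ) / a) / θ ≤ (Real.log ((y : ℝ) / a) - θ) / θ :=
      div_le_div_of_nonneg_right h3 hθ.le
    rw [sub_div, div_self hθ.ne'] at h4
    linarith

private theorem j22096_main (adj : β → β → Prop) [DecidableRel adj]
    (hs : ∀ x y, adj x y → adj y x)
    (hi : ∀ x, ¬ adj x x) (a θ : ℝ) (ha : 0 < a) (hθ : 0 < θ) (V : Finset β)
    (h : ∀ A ⊆ V, a < (A.card : ℝ) →
      ∃ v ∈ A, θ * (A.card : ℝ) ≤ ((A.filter (fun u => adj v u)).card : ℝ)) (n : ℕ) :
    ∀ A ⊆ V, A.card = n → (∑ R ∈ stab adj A, (R.card : ℝ)) ≤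
      (a / 2 + tt a θ A.card) * ((stab adj A).card : ℝ) := by
  induction n using Nat.strong_induction_on with
  | _ n ih =>
    intro A hA hn
    by_cases hsm : (A.card : ℝ) ≤ a
    · have h1 := j22096_small adj A
      have h2 : tt a θ A.card = 0 := by
        unfold tt
        rw [if_pos hsm]
      rw [h2, add_zero]
      refine h1.trans (mul_le_mul_of_nonneg_right (by linarith) (Nat.cast_nonneg _))
    · push Not at hsm
      obtain ⟨v, hv, hd⟩ := h A hA hsm
      obtain ⟨A1, hA1⟩ : ∃ A1, A1 = A.erase v := ⟨_, rfl⟩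
      obtain ⟨A2, hA2⟩ : ∃ A2, A2 = A1.filter (fun u => ¬ adj v u) := ⟨_, rfl⟩
      have c1 : A1.card + 1 = A.card := by
        rw [hA1]
        exact Finset.card_erase_add_one hv
      have c2 : (A.filter (fun u => adj v u)).card + A2.card = A1.card := by
        have e1 : A.filter (fun u => adj v u) = A1.filter (fun u => adj v u) := by
          rw [hA1]
          ext u
          rw [Finset.mem_filter, Finset.mem_filter, Finset.mem_erase]
          constructor
          · rintro ⟨h3, h4⟩
            refine ⟨⟨?_, h3⟩, h4⟩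
            rintro rfl
            exact hi _ h4
          · rintro ⟨⟨-, h3⟩, h4⟩
            exact ⟨h3, h4⟩
        rw [e1, hA2]
        exact Finset.card_filter_add_card_filter_not (s := A1) (fun u => adj v u)
      have s1 : A1 ⊆ V := by
        rw [hA1]
        exact (Finset.erase_subset _ _).trans hA
      have s2 : A2 ⊆ V := by
        rw [hA2]
        exact (Finset.filter_subset _ _).trans s1
      have i1 := ih A1.card (by omega) A1 s1 rfl
      have i2 := ih A2.card (by omega) A2 s2 rfl
      have w0 := j22096_sum adj hs hi A v hv (fun R => (R.card : ℝ))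
      have n0 := j22096_sum adj hs hi A v hv (fun _ => (1 : ℝ))
      simp only [Finset.sum_const, nsmul_eq_mul, mul_one] at n0
      rw [← hA1, ← hA2] at w0 n0
      have w1 : ∑ R ∈ stab adj A2, (((insert v R).card : ℕ) : ℝ) =
          ∑ R ∈ stab adj A2, (R.card : ℝ) + ((stab adj A2).card : ℝ) := by
        have e2 : ∀ R ∈ stab adj A2, (((insert v R).card : ℕ) : ℝ) = (R.card : ℝ) + 1 := by
          intro R hR
          rw [j22096_mem] at hR
          have hvR : v ∉ R := by
            intro hvR
            have h4 := hR.1 hvR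
            rw [hA2, hA1, Finset.mem_filter, Finset.mem_erase] at h4
            exact h4.1.1 rfl
          rw [Finset.card_insert_of_notMem hvR]
          push_cast
          ring
        rw [Finset.sum_congr rfl e2, Finset.sum_add_distrib]
        simp
      rw [w1] at w0
      have t1 : tt a θ A1.card ≤ tt a θ A.card := j22096_tt_mono a θ ha hθ _ _ (by omega)
      have t2 : tt a θ A2.card + 1 ≤ tt a θ A.card := by
        apply j22096_tt_step a θ ha hθ _ _ hsm
        have c3 : ((A.filter (fun u => adj v u)).card : ℝ) + (A2.card : ℝ) + 1 = (A.card : ℝ) := by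
          exact_mod_cast (by omega : (A.filter (fun u => adj v u)).card + A2.card + 1 = A.card)
        linarith
      have p1 : (0 : ℝ) ≤ ((stab adj A1).card : ℝ) := Nat.cast_nonneg _
      have p2 : (0 : ℝ) ≤ ((stab adj A2).card : ℝ) := Nat.cast_nonneg _
      have q1 := mul_le_mul_of_nonneg_right t1 p1
      have q2 := mul_le_mul_of_nonneg_right t2 p2
      rw [w0, n0]
      nlinarith

theorem kw_E (adj : β → β → Prop) [DecidableRel adj] (hs : ∀ x y, adj x y → adj y x)
    (hi : ∀ x, ¬ adj x x) (a θ : ℝ) (ha : 0 < a) (hθ : 0 < θ) (V : Finset β)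
    (h : ∀ A ⊆ V, a < (A.card : ℝ) →
      ∃ v ∈ A, θ * (A.card : ℝ) ≤ ((A.filter (fun u => adj v u)).card : ℝ)) :
    (∑ R ∈ stab adj V, (R.card : ℝ)) ≤
      (a / 2 + tt a θ V.card) * ((stab adj V).card : ℝ) := by
  exact j22096_main adj hs hi a θ ha hθ V h V.card V (Finset.Subset.refl V) rfl

end Pool.Agent.Helper46.A.A2
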