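import Pool.Agent.Helper46.A.Defs

set_option autoImplicit false

namespace Pool.Agent.Helper46.A.A3

open Finset

theorem h208_adj_of {n k : ℕ} (Z v u : Finset (Fin n)) (hZ : Z.card = k) (hv : v.card = k + 1)
    (hu : u.card = k + 1) (hne : v ≠ u) (hZv : Z ⊆ v) (hZu : Z ⊆ u) : Z = v ∩ u ∧ Adj v u := by
  have h1 : Z ⊆ v ∩ u := Finset.subset_inter hZv hZu
  have h2 : (v ∩ u).card ≤ k := by
    by_contra hcon
    have h3 : v.card ≤ (v ∩ u).card := by omega
    have h4 : v ∩ u = v := Finset.eq_of_subset_of_card_le Finset.inter_subset_left h3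
    have h5 : u.card ≤ (v ∩ u).card := by rw [h4]; omega
    have h6 : v ∩ u = u := Finset.eq_of_subset_of_card_le Finset.inter_subset_right h5
    exact hne (h4.symm.trans h6)
  have h3 : Z = v ∩ u := Finset.eq_of_subset_of_card_le h1 (by omega)
  refine ⟨h3, ?_, ?_⟩
  · have h4 := Finset.card_sdiff_add_card_inter v u
    rw [← h3] at h4
    omega
  · have h4 := Finset.card_sdiff_add_card_inter u v
    rw [Finset.inter_comm, ← h3] at h4
    omega

theorem h208_count {n k : ℕ} (G : Finset (Fin n)) (A : Fam n) (hA : A ⊆ powersetCard (k + 1) G) :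
    ∑ Z ∈ powersetCard k G, (A.filter (fun Y => Z ⊆ Y)).offDiag.card ≤
      ∑ v ∈ A, (A.filter (fun u => Adj v u)).card := by
  classical
  have hcard : ∀ v ∈ A, v.card = k + 1 := fun v hv => (Finset.mem_powersetCard.1 (hA hv)).2
  rw [← Finset.card_biUnion]
  · have h1 : ∑ v ∈ A, (A.filter (fun u => Adj v u)).card =
        ((A ×ˢ A).filter (fun p => Adj p.1 p.2)).card := by
      rw [Finset.card_filter, Finset.sum_product]
      exact Finset.sum_congr rfl fun v _ => Finset.card_filter _ _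
    rw [h1]
    apply Finset.card_le_card
    intro p hp
    rw [Finset.mem_biUnion] at hp
    obtain ⟨Z, hZ, hp⟩ := hp
    rw [Finset.mem_offDiag, Finset.mem_filter, Finset.mem_filter] at hp
    obtain ⟨⟨h2, h3⟩, ⟨h4, h5⟩, h6⟩ := hp
    rw [Finset.mem_filter, Finset.mem_product]
    exact ⟨⟨h2, h4⟩, (h208_adj_of Z p.1 p.2 (Finset.mem_powersetCard.1 hZ).2 (hcard _ h2)
      (hcard _ h4) h6 h3 h5).2⟩
  · intro Z hZ Z' hZ' hne
    rw [Function.onFun, Finset.disjoint_left]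
    intro p hp hp'
    rw [Finset.mem_offDiag, Finset.mem_filter, Finset.mem_filter] at hp hp'
    obtain ⟨⟨h2, h3⟩, ⟨h4, h5⟩, h6⟩ := hp
    obtain ⟨⟨_, h3'⟩, ⟨_, h5'⟩, _⟩ := hp'
    apply hne
    rw [(h208_adj_of Z p.1 p.2 (Finset.mem_powersetCard.1 hZ).2 (hcard _ h2) (hcard _ h4) h6 h3
      h5).1, (h208_adj_of Z' p.1 p.2 (Finset.mem_powersetCard.1 hZ').2 (hcard _ h2) (hcard _ h4)
      h6 h3' h5').1]

theorem h208_sumd {n k : ℕ} (G : Finset (Fin n)) (A : Fam n) (hA : A ⊆ powersetCard (k + 1) G) :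
    ∑ Z ∈ powersetCard k G, (A.filter (fun Y => Z ⊆ Y)).card = (k + 1) * A.card := by
  classical
  simp only [Finset.card_filter]
  rw [Finset.sum_comm]
  have h1 : ∀ Y ∈ A, ∑ Z ∈ powersetCard k G, (if Z ⊆ Y then 1 else 0) = k + 1 := by
    intro Y hY
    obtain ⟨hYG, hYc⟩ := Finset.mem_powersetCard.1 (hA hY)
    rw [← Finset.card_filter]
    have h2 : (powersetCard k G).filter (fun Z => Z ⊆ Y) = powersetCard k Y := by
      ext Z
      rw [Finset.mem_filter, Finset.mem_powersetCard, Finset.mem_powersetCard]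
      constructor
      · rintro ⟨⟨_, h4⟩, h5⟩
        exact ⟨h5, h4⟩
      · rintro ⟨h4, h5⟩
        exact ⟨⟨h4.trans hYG, h5⟩, h4⟩
    rw [h2, Finset.card_powersetCard, hYc, Nat.choose_succ_self_right]
  rw [Finset.sum_congr rfl h1, Finset.sum_const, smul_eq_mul, mul_comm]

theorem super_rows {n : ℕ} (G : Finset (Fin n)) (k : ℕ) (hk : 1 ≤ k) (hkG : k ≤ G.card)
    (ε : ℝ) (hε : 0 < ε) (A : Fam n) (hA : A ⊆ powersetCard k G)
    (hcard : (1 + ε) * ((G.card.choose k : ℝ) / ((G.card : ℝ) - k + 1)) < (A.card : ℝ)) :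
    ∃ v ∈ A, (ε / (1 + ε)) * ((k : ℝ) * ((G.card : ℝ) - k + 1) / (G.card.choose k : ℝ)) *
      (A.card : ℝ) ≤ ((A.filter (fun u => Adj v u)).card : ℝ) := by
  obtain ⟨k, rfl⟩ : ∃ k', k = k' + 1 := ⟨k - 1, by omega⟩
  set m := G.card with hm
  set D : ℝ := (m : ℝ) - ((k + 1 : ℕ) : ℝ) + 1 with hD
  set Cc : ℝ := (m.choose (k + 1) : ℝ) with hC
  have hDm : D = ((m - k : ℕ) : ℝ) := by
    rw [hD, Nat.cast_sub (by omega)]
    push_cast
    ring
  have hDpos : 0 < D := by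
    rw [hDm]
    have : 0 < m - k := by omega
    exact_mod_cast this
  have hCpos : 0 < Cc := by
    rw [hC]
    exact_mod_cast Nat.choose_pos hkG
  set N : ℝ := (m.choose k : ℝ) with hN
  have hNpos : 0 < N := by
    rw [hN]
    exact_mod_cast Nat.choose_pos (by omega)
  have hCN : Cc * ((k : ℝ) + 1) = N * D := by
    rw [hC, hN, hDm]
    have := Nat.choose_succ_right_eq m k
    exact_mod_cast this
  set a : ℝ := (A.card : ℝ) with ha
  have ha0 : 0 < a := lt_of_le_of_lt (by positivity) hcard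
  have hAne : A.Nonempty := by
    rw [← Finset.card_pos]
    have h0 : (0 : ℝ) < (A.card : ℝ) := ha0
    exact_mod_cast h0
  -- degree sum
  have hsum : ((k : ℝ) + 1) * a * (a * D / Cc - 1) ≤
      ∑ v ∈ A, ((A.filter (fun u => Adj v u)).card : ℝ) := by
    have h1 := h208_count G A hA
    have h2 := h208_sumd G A hA
    have h3 : ∑ Z ∈ powersetCard k G, ((A.filter (fun Y => Z ⊆ Y)).card : ℝ) = ((k : ℝ) + 1) * a := by
      rw [ha]
      exact_mod_cast h2
    have h4 : ∑ Z ∈ powersetCard k G, (((A.filter (fun Y => Z ⊆ Y)).card : ℝ) ^ 2 -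
        ((A.filter (fun Y => Z ⊆ Y)).card : ℝ)) ≤
        ∑ v ∈ A, ((A.filter (fun u => Adj v u)).card : ℝ) := by
      have h5 : ∀ Z, (((A.filter (fun Y => Z ⊆ Y)).offDiag.card : ℕ) : ℝ) =
          ((A.filter (fun Y => Z ⊆ Y)).card : ℝ) ^ 2 - ((A.filter (fun Y => Z ⊆ Y)).card : ℝ) := by
        intro Z
        rw [Finset.offDiag_card, Nat.cast_sub (Nat.le_mul_self _), Nat.cast_mul, sq]
      rw [← Finset.sum_congr rfl fun Z _ => h5 Z]
      exact_mod_cast h1
    rw [Finset.sum_sub_distrib, h3] at h4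
    have h6 := sq_sum_le_card_mul_sum_sq (s := powersetCard k G)
      (f := fun Z => ((A.filter (fun Y => Z ⊆ Y)).card : ℝ))
    rw [h3, Finset.card_powersetCard] at h6
    have h7 : (((k : ℝ) + 1) * a) ^ 2 / N ≤
        ∑ Z ∈ powersetCard k G, ((A.filter (fun Y => Z ⊆ Y)).card : ℝ) ^ 2 := by
      rw [div_le_iff₀ hNpos, mul_comm _ N]
      exact h6
    have h8 : ((k : ℝ) + 1) * a * (a * D / Cc - 1) = (((k : ℝ) + 1) * a) ^ 2 / N - ((k : ℝ) + 1) * a := by
      have h9 : D / Cc = ((k : ℝ) + 1) / N := by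
        rw [div_eq_div_iff hCpos.ne' hNpos.ne']
        linarith
      have h10 : a * D / Cc = a * ((k : ℝ) + 1) / N := by
        rw [mul_div_assoc, h9, ← mul_div_assoc]
      rw [h10]
      field_simp
    rw [h8]
    linarith
  by_contra hcon
  push Not at hcon
  have h1 : ∑ v ∈ A, ((A.filter (fun u => Adj v u)).card : ℝ) <
      ∑ v ∈ A, (ε / (1 + ε)) * (((k + 1 : ℕ) : ℝ) * D / Cc) * a :=
    Finset.sum_lt_sum_of_nonempty hAne hcon
  rw [Finset.sum_const, nsmul_eq_mul, ← ha] at h1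
  have h2 : 1 + ε < a * D / Cc := by
    rw [lt_div_iff₀ hCpos]
    rw [← mul_div_assoc, div_lt_iff₀ hDpos] at hcard
    exact hcard
  have h3 : ε / (1 + ε) * (a * D / Cc) ≤ a * D / Cc - 1 := by
    rw [div_mul_eq_mul_div, div_le_iff₀ (by linarith)]
    nlinarith
  have h4 : a * (ε / (1 + ε) * (((k + 1 : ℕ) : ℝ) * D / Cc) * a) =
      ((k : ℝ) + 1) * a * (ε / (1 + ε) * (a * D / Cc)) := by
    push_cast
    ring
  rw [h4] at h1
  have h5 : ((k : ℝ) + 1) * a * (ε / (1 + ε) * (a * D / Cc)) ≤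
      ((k : ℝ) + 1) * a * (a * D / Cc - 1) :=
    mul_le_mul_of_nonneg_left h3 (by positivity)
  linarith

end Pool.Agent.Helper46.A.A3
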