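import Pool.Agent.Helper46.A.Defs

set_option autoImplicit false

namespace Pool.Agent.Helper46.A.A4

open Finset

theorem j22100_sdiff {n : ℕ} {G X Y : Finset (Fin n)} (hY : Y ⊆ G) :
    (G \ X) \ (G \ Y) = Y \ X := by
  ext a
  simp only [mem_sdiff, not_and, not_not]
  constructor
  · rintro ⟨⟨h1, h2⟩, h3⟩
    exact ⟨h3 h1, h2⟩
  · rintro ⟨h1, h2⟩
    exact ⟨⟨hY h1, h2⟩, fun _ => h1⟩

theorem super_cols {n : ℕ} (G : Finset (Fin n)) (k : ℕ) (hkG : k + 1 ≤ G.card)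
    (ε : ℝ) (hε : 0 < ε)
    (hrows : ∀ (j : ℕ), 1 ≤ j → j ≤ G.card → ∀ A : Fam n, A ⊆ powersetCard j G →
      (1 + ε) * ((G.card.choose j : ℝ) / ((G.card : ℝ) - j + 1)) < (A.card : ℝ) →
      ∃ v ∈ A, (ε / (1 + ε)) * ((j : ℝ) * ((G.card : ℝ) - j + 1) / (G.card.choose j : ℝ)) *
      (A.card : ℝ) ≤ ((A.filter (fun u => Adj v u)).card : ℝ))
    (A : Fam n) (hA : A ⊆ powersetCard k G)
    (hcard : (1 + ε) * ((G.card.choose k : ℝ) / ((k : ℝ) + 1)) < (A.card : ℝ)) :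
    ∃ v ∈ A, (ε / (1 + ε)) * (((G.card : ℝ) - k) * ((k : ℝ) + 1) / (G.card.choose k : ℝ)) *
      (A.card : ℝ) ≤ ((A.filter (fun u => Adj v u)).card : ℝ) := by
  classical
  have hsub : ∀ X ∈ A, X ⊆ G ∧ X.card = k := fun X hX => mem_powersetCard.1 (hA hX)
  have hinj : Set.InjOn (fun X : Finset (Fin n) => G \ X) (A : Set (Finset (Fin n))) := by
    intro X hX Y hY hXY
    have h1 : G \ (G \ X) = X := Finset.sdiff_sdiff_eq_self (hsub X hX).1
    have h2 : G \ (G \ Y) = Y := Finset.sdiff_sdiff_eq_self (hsub Y hY).1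
    have h3 : G \ X = G \ Y := hXY
    rw [← h1, ← h2, h3]
  have hcardA : (A.image (fun X => G \ X)).card = A.card := card_image_of_injOn hinj
  have hj : ((G.card - k : ℕ) : ℝ) = (G.card : ℝ) - k := by
    rw [Nat.cast_sub (by omega)]
  have hch : G.card.choose (G.card - k) = G.card.choose k := Nat.choose_symm (by omega)
  have hA' : A.image (fun X => G \ X) ⊆ powersetCard (G.card - k) G := by
    intro Z hZ
    obtain ⟨X, hX, rfl⟩ := mem_image.1 hZ
    rw [mem_powersetCard]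
    refine ⟨sdiff_subset, ?_⟩
    rw [card_sdiff_of_subset (hsub X hX).1, (hsub X hX).2]
  have hden : (G.card : ℝ) - ((G.card - k : ℕ) : ℝ) + 1 = (k : ℝ) + 1 := by
    rw [hj]
    ring
  obtain ⟨v', hv', hineq⟩ := hrows (G.card - k) (by omega) (by omega)
    (A.image (fun X => G \ X)) hA' (by rw [hcardA, hden, hch]; exact hcard)
  obtain ⟨v, hv, rfl⟩ := mem_image.1 hv'
  refine ⟨v, hv, ?_⟩
  rw [hden, hj, hch, hcardA] at hineq
  refine hineq.trans ?_
  rw [Nat.cast_le]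
  have hss : (A.image (fun X => G \ X)).filter (fun u => Adj (G \ v) u) ⊆
      (A.filter (fun u => Adj v u)).image (fun X => G \ X) := by
    intro Z hZ
    obtain ⟨hZ1, hZ2⟩ := mem_filter.1 hZ
    obtain ⟨X, hX, rfl⟩ := mem_image.1 hZ1
    refine mem_image.2 ⟨X, mem_filter.2 ⟨hX, ?_⟩, rfl⟩
    unfold Adj at hZ2 ⊢
    rw [j22100_sdiff (hsub X hX).1, j22100_sdiff (hsub v hv).1] at hZ2
    exact ⟨hZ2.2, hZ2.1⟩
  exact (card_le_card hss).trans card_image_le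

end Pool.Agent.Helper46.A.A4
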