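import Pool.Agent.Helper46.A.Defs

set_option autoImplicit false

namespace Pool.Agent.Helper46.A.B1

open Finset

theorem st_lower {n : ℕ} (hn : 0 < n) (W : Fam n) :
    (2 : ℝ) ^ ((W.card : ℝ) / n) ≤ ((St W).card : ℝ) := by
  classical
  haveI : NeZero n := ⟨hn.ne'⟩
  let col : Finset (Fin n) → ZMod n := fun X => ∑ x ∈ X, ((x.val : ℕ) : ZMod n)
  have hcol : ∀ X Y : Finset (Fin n), Adj X Y → col X ≠ col Y := by
    rintro X Y ⟨h1, h2⟩ h
    obtain ⟨f, hf⟩ := Finset.card_eq_one.1 h1
    obtain ⟨g, hg⟩ := Finset.card_eq_one.1 h2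
    have e1 : col X = (∑ x ∈ X ∩ Y, ((x.val : ℕ) : ZMod n)) + ((f.val : ℕ) : ZMod n) := by
      simp only [col]
      rw [← Finset.sum_inter_add_sum_sdiff X Y, hf, Finset.sum_singleton]
    have e2 : col Y = (∑ x ∈ X ∩ Y, ((x.val : ℕ) : ZMod n)) + ((g.val : ℕ) : ZMod n) := by
      simp only [col]
      rw [← Finset.sum_inter_add_sum_sdiff Y X, hg, Finset.sum_singleton, Finset.inter_comm]
    rw [e1, e2] at h
    have h3 := (ZMod.natCast_eq_natCast_iff' _ _ _).1 (add_left_cancel h)
    rw [Nat.mod_eq_of_lt f.2, Nat.mod_eq_of_lt g.2] at h3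
    have h4 : f = g := Fin.ext h3
    have h5 : f ∈ X \ Y := by rw [hf]; simp
    have h6 : g ∈ Y \ X := by rw [hg]; simp
    rw [h4] at h5
    exact (Finset.mem_sdiff.1 h5).2 (Finset.mem_sdiff.1 h6).1
  obtain ⟨c, hc⟩ : ∃ c : ZMod n, W.card ≤ n * (W.filter (fun X => col X = c)).card := by
    by_contra hcon
    push Not at hcon
    have h1 : ∑ c : ZMod n, (W.filter (fun X => col X = c)).card = W.card := by
      rw [Finset.card_eq_sum_card_fiberwise (f := col) (t := Finset.univ) (fun x _ => Finset.mem_univ _)]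
    have h2 : ∑ c : ZMod n, n * (W.filter (fun X => col X = c)).card < ∑ c : ZMod n, W.card :=
      Finset.sum_lt_sum_of_nonempty Finset.univ_nonempty (fun c _ => hcon c)
    rw [← Finset.mul_sum, h1, Finset.sum_const, Finset.card_univ, ZMod.card, smul_eq_mul] at h2
    exact lt_irrefl _ h2
  have hsub : (W.filter (fun X => col X = c)).powerset ⊆ St W := by
    intro R hR
    rw [Finset.mem_powerset] at hR
    unfold St
    rw [Finset.mem_filter, Finset.mem_powerset]
    refine ⟨hR.trans (Finset.filter_subset _ _), ?_⟩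
    intro X hX Y hY hadj
    have e1 := (Finset.mem_filter.1 (hR hX)).2
    have e2 := (Finset.mem_filter.1 (hR hY)).2
    exact hcol X Y hadj (e1.trans e2.symm)
  have h1 := Finset.card_le_card hsub
  rw [Finset.card_powerset] at h1
  have h2 : (2 : ℝ) ^ ((W.card : ℝ) / n) ≤ (2:ℝ) ^ (((W.filter (fun X => col X = c)).card : ℕ) : ℝ) := by
    apply Real.rpow_le_rpow_of_exponent_le (by norm_num)
    rw [div_le_iff₀ (by exact_mod_cast hn)]
    have : ((W.card : ℕ) : ℝ) ≤ ((n * (W.filter (fun X => col X = c)).card : ℕ) : ℝ) := by exact_mod_cast hc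
    rw [Nat.cast_mul, mul_comm] at this
    exact this
  refine h2.trans ?_
  rw [Real.rpow_natCast]
  exact_mod_cast h1

end Pool.Agent.Helper46.A.B1
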