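import Pool.Agent.Helper46.A.Defs

set_option autoImplicit false

namespace Pool.Agent.Helper46.A.B2

open Finset

theorem exists_perm_aux {n : ℕ} (G Z Z' : Finset (Fin n)) (hZ : Z ⊆ G) (hZ' : Z' ⊆ G)
    (hcard : Z.card = Z'.card) :
    ∃ σ : Equiv.Perm (Fin n), G.image σ = G ∧ Z.image σ = Z' := by
  classical
  have hc : Fintype.card {x : {x // x ∈ G} // x.1 ∈ Z} = Fintype.card {x : {x // x ∈ G} // x.1 ∈ Z'} := by
    have h1 : ∀ W : Finset (Fin n), W ⊆ G →
        Fintype.card {x : {x // x ∈ G} // x.1 ∈ W} = W.card := by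
      intro W hW
      rw [← Fintype.card_coe W]
      refine Fintype.card_congr ⟨fun x => ⟨x.1.1, x.2⟩, fun x => ⟨⟨x.1, hW x.2⟩, x.2⟩, ?_, ?_⟩
      · intro x; rfl
      · intro x; rfl
    rw [h1 Z hZ, h1 Z' hZ', hcard]
  let e : {x : {x // x ∈ G} // x.1 ∈ Z} ≃ {x : {x // x ∈ G} // x.1 ∈ Z'} := Fintype.equivOfCardEq hc
  let τ : Equiv.Perm {x // x ∈ G} := e.extendSubtype
  let σ : Equiv.Perm (Fin n) := Equiv.Perm.ofSubtype τ
  have hσ : ∀ x (hx : x ∈ G), σ x = (τ ⟨x, hx⟩ : Fin n) := by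
    intro x hx
    exact Equiv.Perm.ofSubtype_apply_of_mem τ hx
  refine ⟨σ, ?_, ?_⟩
  · apply Finset.eq_of_subset_of_card_le
    · intro y hy
      obtain ⟨x, hx, rfl⟩ := Finset.mem_image.1 hy
      rw [hσ x hx]
      exact (τ ⟨x, hx⟩).2
    · rw [Finset.card_image_of_injective _ σ.injective]
  · apply Finset.eq_of_subset_of_card_le
    · intro y hy
      obtain ⟨x, hx, rfl⟩ := Finset.mem_image.1 hy
      rw [hσ x (hZ hx)]
      exact e.extendSubtype_mem ⟨x, hZ hx⟩ hx
    · rw [Finset.card_image_of_injective _ σ.injective, hcard]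

theorem cover_up {n : ℕ} (G : Finset (Fin n)) (k : ℕ) (hk : 1 ≤ k) (hkG : k ≤ G.card)
    (hE : (∑ R ∈ St (powersetCard k G), (R.card : ℝ)) ≤
      (3 / 5 * ((G.card.choose k : ℝ) / ((G.card : ℝ) - k + 1))) *
        ((St (powersetCard k G)).card : ℝ))
    (Z : Finset (Fin n)) (hZ : Z ∈ powersetCard (k - 1) G) :
    (((St (powersetCard k G)).filter (fun R => ∃ Y ∈ R, Z ⊆ Y)).card : ℝ) ≤
      3 / 5 * ((St (powersetCard k G)).card : ℝ) := by
  classical
  obtain ⟨j, rfl⟩ : ∃ j, k = j + 1 := ⟨k - 1, by omega⟩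
  simp only [Nat.add_sub_cancel] at hZ
  set S : Finset (Fam n) := St (powersetCard (j + 1) G) with hS
  set c : Finset (Fin n) → ℕ := fun Z => (S.filter (fun R => ∃ Y ∈ R, Z ⊆ Y)).card with hc
  -- symmetry
  have hsym : ∀ Z ∈ powersetCard j G, ∀ Z' ∈ powersetCard j G, c Z ≤ c Z' := by
    intro Z hZ Z' hZ'
    obtain ⟨σ, hσG, hσZ⟩ := exists_perm_aux G Z Z' (mem_powersetCard.1 hZ).1
      (mem_powersetCard.1 hZ').1 ((mem_powersetCard.1 hZ).2.trans (mem_powersetCard.1 hZ').2.symm)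
    have hinj : Function.Injective (fun Y : Finset (Fin n) => Y.image σ) :=
      Finset.image_injective σ.injective
    apply Finset.card_le_card_of_injOn (fun R : Fam n => R.image (fun Y => Y.image σ))
    · intro R hR
      rw [Finset.coe_filter, Set.mem_setOf_eq] at hR ⊢
      obtain ⟨hRS, Y, hYR, hZY⟩ := hR
      refine ⟨?_, Y.image σ, Finset.mem_image_of_mem _ hYR, ?_⟩
      · rw [hS, St, Finset.mem_filter, Finset.mem_powerset] at hRS ⊢
        obtain ⟨h1, h2⟩ := hRS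
        refine ⟨?_, ?_⟩
        · intro X hX
          obtain ⟨Y', hY', rfl⟩ := Finset.mem_image.1 hX
          have h3 := mem_powersetCard.1 (h1 hY')
          rw [mem_powersetCard]
          refine ⟨?_, ?_⟩
          · rw [← hσG]
            exact Finset.image_subset_image h3.1
          · rw [Finset.card_image_of_injective _ σ.injective]
            exact h3.2
        · intro X hX X' hX' hadj
          obtain ⟨Y1, hY1, rfl⟩ := Finset.mem_image.1 hX
          obtain ⟨Y2, hY2, rfl⟩ := Finset.mem_image.1 hX'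
          apply h2 Y1 hY1 Y2 hY2
          obtain ⟨h3, h4⟩ := hadj
          rw [← Finset.image_sdiff _ _ σ.injective,
            Finset.card_image_of_injective _ σ.injective] at h3 h4
          exact ⟨h3, h4⟩
      · rw [← hσZ]
        exact Finset.image_subset_image hZY
    · exact (Finset.image_injective hinj).injOn
  have hconst : ∀ Z' ∈ powersetCard j G, c Z' = c Z := fun Z' hZ' =>
    le_antisymm (hsym Z' hZ' Z hZ) (hsym Z hZ Z' hZ')
  -- double counting
  have hsum : ∑ Z' ∈ powersetCard j G, c Z' ≤ ∑ R ∈ S, (j + 1) * R.card := by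
    have h1 : ∀ Z' : Finset (Fin n), c Z' = ∑ R ∈ S, if (∃ Y ∈ R, Z' ⊆ Y) then 1 else 0 := by
      intro Z'
      show (S.filter (fun R => ∃ Y ∈ R, Z' ⊆ Y)).card = _
      rw [Finset.card_filter]
    rw [Finset.sum_congr rfl (fun Z' _ => h1 Z'), Finset.sum_comm]
    refine Finset.sum_le_sum fun R hR => ?_
    rw [← Finset.card_filter]
    have h2 : (powersetCard j G).filter (fun Z' => ∃ Y ∈ R, Z' ⊆ Y)
        ⊆ R.biUnion (fun Y => powersetCard j Y) := by
      intro Z' hZ'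
      obtain ⟨h3, Y, hY, hZY⟩ := Finset.mem_filter.1 hZ'
      rw [Finset.mem_biUnion]
      exact ⟨Y, hY, mem_powersetCard.2 ⟨hZY, (mem_powersetCard.1 h3).2⟩⟩
    refine (Finset.card_le_card h2).trans ?_
    refine Finset.card_biUnion_le.trans ?_
    rw [mul_comm, ← smul_eq_mul, ← Finset.sum_const]
    refine Finset.sum_le_sum fun Y hY => ?_
    rw [hS, St, Finset.mem_filter, Finset.mem_powerset] at hR
    rw [card_powersetCard, (mem_powersetCard.1 (hR.1 hY)).2, Nat.choose_succ_self_right]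
  have hsum2 : (G.card.choose j) * c Z ≤ ∑ R ∈ S, (j + 1) * R.card := by
    refine le_trans (le_of_eq ?_) hsum
    rw [Finset.sum_congr rfl hconst, Finset.sum_const, card_powersetCard, smul_eq_mul]
  have hsum3 : ((G.card.choose j : ℕ) : ℝ) * (c Z : ℝ)
      ≤ ((j : ℝ) + 1) * ∑ R ∈ S, (R.card : ℝ) := by
    have h1 : (((G.card.choose j) * c Z : ℕ) : ℝ) ≤ ((∑ R ∈ S, (j + 1) * R.card : ℕ) : ℝ) := by
      exact_mod_cast hsum2
    push_cast at h1
    rw [Finset.mul_sum]
    exact h1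
  have hD : (0 : ℝ) < (G.card : ℝ) - ((j + 1 : ℕ) : ℝ) + 1 := by
    have : ((j + 1 : ℕ) : ℝ) ≤ (G.card : ℝ) := by exact_mod_cast hkG
    linarith
  have hch : ((G.card.choose (j + 1) : ℕ) : ℝ) * ((j : ℝ) + 1)
      = ((G.card.choose j : ℕ) : ℝ) * ((G.card : ℝ) - ((j + 1 : ℕ) : ℝ) + 1) := by
    have h1 := Nat.choose_succ_right_eq G.card j
    have h2 : (((G.card.choose (j + 1)) * (j + 1) : ℕ) : ℝ)
        = ((G.card.choose j * (G.card - j) : ℕ) : ℝ) := by exact_mod_cast h1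
    rw [Nat.cast_mul, Nat.cast_mul, Nat.cast_sub (by omega)] at h2
    push_cast at h2 ⊢
    rw [h2]
    ring
  have hcj : (0 : ℝ) < ((G.card.choose j : ℕ) : ℝ) := by
    exact_mod_cast Nat.choose_pos (by omega)
  have hfin : ((G.card.choose j : ℕ) : ℝ) * (c Z : ℝ)
      ≤ ((G.card.choose j : ℕ) : ℝ) * (3 / 5 * (S.card : ℝ)) := by
    refine hsum3.trans ?_
    refine (mul_le_mul_of_nonneg_left hE (by positivity)).trans (le_of_eq ?_)
    have h3 : ((j : ℝ) + 1) * (3 / 5 * (((G.card.choose (j + 1) : ℕ) : ℝ)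
        / ((G.card : ℝ) - ((j + 1 : ℕ) : ℝ) + 1)) * (S.card : ℝ))
        = 3 / 5 * ((((G.card.choose (j + 1) : ℕ) : ℝ) * ((j : ℝ) + 1))
          / ((G.card : ℝ) - ((j + 1 : ℕ) : ℝ) + 1)) * (S.card : ℝ) := by ring
    rw [h3, hch, mul_div_cancel_right₀ _ hD.ne']
    ring
  exact le_of_mul_le_mul_left hfin hcj

end Pool.Agent.Helper46.A.B2
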