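import Pool.Agent.Helper46.A.Defs

set_option autoImplicit false

namespace Pool.Agent.Helper46.A.B3

open Finset

theorem h120_mem_St {n : ℕ} (V R : Fam n) :
    R ∈ St V ↔ R ⊆ V ∧ ∀ X ∈ R, ∀ Y ∈ R, ¬ Adj X Y := by
  unfold St
  rw [Finset.mem_filter, Finset.mem_powerset]

theorem h120_cc {n : ℕ} (G X : Finset (Fin n)) (hX : X ⊆ G) : G \ (G \ X) = X := by
  ext x
  simp only [Finset.mem_sdiff]
  constructor
  · rintro ⟨h1, h2⟩
    exact by_contra fun h => h2 ⟨h1, h⟩
  · intro h
    exact ⟨hX h, fun h2 => h2.2 h⟩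

theorem h120_sd {n : ℕ} (G X Y : Finset (Fin n)) (hY : Y ⊆ G) : (G \ X) \ (G \ Y) = Y \ X := by
  ext x
  simp only [Finset.mem_sdiff]
  constructor
  · rintro ⟨⟨h1, h2⟩, h3⟩
    exact ⟨by_contra fun h => h3 ⟨h1, h⟩, h2⟩
  · rintro ⟨h1, h2⟩
    exact ⟨⟨hY h1, h2⟩, fun h => h.2 h1⟩

theorem h120_adj {n : ℕ} (G X Y : Finset (Fin n)) (hX : X ⊆ G) (hY : Y ⊆ G) :
    Adj (G \ X) (G \ Y) ↔ Adj X Y := by
  unfold Adj
  rw [h120_sd G X Y hY, h120_sd G Y X hX, and_comm]

theorem h120_img {n : ℕ} (G : Finset (Fin n)) (k j : ℕ) (hkj : j + k = G.card) (R : Fam n)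
    (hR : R ∈ St (powersetCard k G)) :
    R.image (fun X => G \ X) ∈ St (powersetCard j G) := by
  rw [h120_mem_St] at hR ⊢
  obtain ⟨h1, h2⟩ := hR
  constructor
  · intro Y hY
    rw [Finset.mem_image] at hY
    obtain ⟨X, hX, rfl⟩ := hY
    have h3 := Finset.mem_powersetCard.mp (h1 hX)
    rw [Finset.mem_powersetCard]
    refine ⟨Finset.sdiff_subset, ?_⟩
    rw [Finset.card_sdiff_of_subset h3.1, h3.2]
    omega
  · intro X hX Y hY
    rw [Finset.mem_image] at hX hY
    obtain ⟨X', hX', rfl⟩ := hX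
    obtain ⟨Y', hY', rfl⟩ := hY
    rw [h120_adj G X' Y' (Finset.mem_powersetCard.mp (h1 hX')).1
      (Finset.mem_powersetCard.mp (h1 hY')).1]
    exact h2 X' hX' Y' hY'

theorem h120_img2 {n : ℕ} (G : Finset (Fin n)) (k : ℕ) (R : Fam n)
    (hR : R ∈ St (powersetCard k G)) :
    (R.image (fun X => G \ X)).image (fun X => G \ X) = R := by
  rw [h120_mem_St] at hR
  rw [Finset.image_image]
  have : ∀ X ∈ R, ((fun X => G \ X) ∘ (fun X => G \ X)) X = X := by
    intro X hX
    exact h120_cc G X (Finset.mem_powersetCard.mp (hR.1 hX)).1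
  ext Y
  rw [Finset.mem_image]
  constructor
  · rintro ⟨X, hX, rfl⟩
    rw [this X hX]
    exact hX
  · intro hY
    exact ⟨Y, hY, this Y hY⟩

theorem h120_imgcard {n : ℕ} (G : Finset (Fin n)) (k : ℕ) (R : Fam n)
    (hR : R ∈ St (powersetCard k G)) :
    (R.image (fun X => G \ X)).card = R.card := by
  rw [h120_mem_St] at hR
  apply Finset.card_image_of_injOn
  intro X hX Y hY h
  have hX' := (Finset.mem_powersetCard.mp (hR.1 hX)).1
  have hY' := (Finset.mem_powersetCard.mp (hR.1 hY)).1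
  have h' : G \ X = G \ Y := h
  rw [← h120_cc G X hX', ← h120_cc G Y hY', h']

theorem cover_down {n : ℕ} (G : Finset (Fin n)) (k : ℕ) (hkG : k + 1 ≤ G.card)
    (hup : ∀ (j : ℕ), 1 ≤ j → j ≤ G.card →
      (∑ R ∈ St (powersetCard j G), (R.card : ℝ)) ≤
      (3 / 5 * ((G.card.choose j : ℝ) / ((G.card : ℝ) - j + 1))) *
        ((St (powersetCard j G)).card : ℝ) →
      ∀ Z ∈ powersetCard (j - 1) G,
      (((St (powersetCard j G)).filter (fun R => ∃ Y ∈ R, Z ⊆ Y)).card : ℝ) ≤
      3 / 5 * ((St (powersetCard j G)).card : ℝ))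
    (hE : (∑ R ∈ St (powersetCard k G), (R.card : ℝ)) ≤
      (3 / 5 * ((G.card.choose k : ℝ) / ((k : ℝ) + 1))) *
        ((St (powersetCard k G)).card : ℝ))
    (Z : Finset (Fin n)) (hZ : Z ∈ powersetCard (k + 1) G) :
    (((St (powersetCard k G)).filter (fun R => ∃ Y ∈ R, Y ⊆ Z)).card : ℝ) ≤
      3 / 5 * ((St (powersetCard k G)).card : ℝ) := by
  obtain ⟨j, hj⟩ : ∃ j, j + k = G.card := ⟨G.card - k, by omega⟩
  have hkj : k + j = G.card := by omega
  have hj1 : 1 ≤ j := by omega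
  have hj2 : j ≤ G.card := by omega
  have hZ' := Finset.mem_powersetCard.mp hZ
  have hcard : (St (powersetCard k G)).card = (St (powersetCard j G)).card := by
    refine Finset.card_nbij' (fun R => R.image (fun X => G \ X))
      (fun R => R.image (fun X => G \ X)) ?_ ?_ ?_ ?_
    · intro R hR
      exact h120_img G k j hj R hR
    · intro R hR
      exact h120_img G j k hkj R hR
    · intro R hR
      exact h120_img2 G k R hR
    · intro R hR
      exact h120_img2 G j R hR
  have hsum : ∑ R ∈ St (powersetCard j G), (R.card : ℝ) =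
      ∑ R ∈ St (powersetCard k G), (R.card : ℝ) := by
    refine Finset.sum_nbij' (fun R => R.image (fun X => G \ X))
      (fun R => R.image (fun X => G \ X)) ?_ ?_ ?_ ?_ ?_
    · intro R hR
      exact h120_img G j k hkj R hR
    · intro R hR
      exact h120_img G k j hj R hR
    · intro R hR
      exact h120_img2 G j R hR
    · intro R hR
      exact h120_img2 G k R hR
    · intro R hR
      rw [h120_imgcard G j R hR]
  have hfil : ((St (powersetCard k G)).filter (fun R => ∃ Y ∈ R, Y ⊆ Z)).card =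
      ((St (powersetCard j G)).filter (fun R => ∃ Y ∈ R, G \ Z ⊆ Y)).card := by
    refine Finset.card_nbij' (fun R => R.image (fun X => G \ X))
      (fun R => R.image (fun X => G \ X)) ?_ ?_ ?_ ?_
    · intro R hR
      have hR' := Finset.mem_filter.mp (Finset.mem_coe.mp hR)
      refine Finset.mem_coe.mpr (Finset.mem_filter.mpr ⟨h120_img G k j hj R hR'.1, ?_⟩)
      obtain ⟨Y, hY, hYZ⟩ := hR'.2
      exact ⟨G \ Y, Finset.mem_image_of_mem _ hY, Finset.sdiff_subset_sdiff (Finset.Subset.refl _) hYZ⟩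
    · intro R hR
      have hR' := Finset.mem_filter.mp (Finset.mem_coe.mp hR)
      refine Finset.mem_coe.mpr (Finset.mem_filter.mpr ⟨h120_img G j k hkj R hR'.1, ?_⟩)
      obtain ⟨Y, hY, hYZ⟩ := hR'.2
      refine ⟨G \ Y, Finset.mem_image_of_mem _ hY, ?_⟩
      intro x hx
      rw [Finset.mem_sdiff] at hx
      by_contra hxZ
      exact hx.2 (hYZ (Finset.mem_sdiff.mpr ⟨hx.1, hxZ⟩))
    · intro R hR
      exact h120_img2 G k R (Finset.mem_filter.mp (Finset.mem_coe.mp hR)).1
    · intro R hR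
      exact h120_img2 G j R (Finset.mem_filter.mp (Finset.mem_coe.mp hR)).1
  rw [hfil, hcard]
  apply hup j hj1 hj2
  · rw [hsum, ← hcard]
    have e1 : (G.card.choose j : ℝ) = (G.card.choose k : ℝ) := by
      have : G.card.choose j = G.card.choose k := Nat.choose_symm_of_eq_add hj.symm
      rw [this]
    have e2 : ((G.card : ℝ) - j + 1) = (k : ℝ) + 1 := by
      rw [← hj]
      push_cast
      ring
    rw [e1, e2]
    exact hE
  · rw [Finset.mem_powersetCard]
    refine ⟨Finset.sdiff_subset, ?_⟩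
    rw [Finset.card_sdiff_of_subset hZ'.1, hZ'.2]
    omega

end Pool.Agent.Helper46.A.B3
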