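import Pool.Agent.Helper46.A.Defs

set_option autoImplicit false

namespace Pool.Agent.Helper46.A.B4

open Finset

theorem fill_mem_St {n : ℕ} {V R : Fam n} : R ∈ St V ↔ R ⊆ V ∧ ∀ X ∈ R, ∀ Y ∈ R, ¬ Adj X Y := by
  unfold St
  rw [mem_filter, mem_powerset]

theorem fill_Adj_symm {n : ℕ} {X Y : Finset (Fin n)} (h : Adj X Y) : Adj Y X := ⟨h.2, h.1⟩

theorem fill_memG {n : ℕ} {a b : Fin n} {k : ℕ} {X : Finset (Fin n)}
    (h : X ∈ powersetCard k ((univ : Finset (Fin n)) \ {a, b})) : a ∉ X ∧ b ∉ X ∧ X.card = k := by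
  rw [mem_powersetCard] at h
  refine ⟨fun ha => ?_, fun hb => ?_, h.2⟩
  · have := h.1 ha
    simp at this
  · have := h.1 hb
    simp at this

/-- the glued family -/
def fill_glue {n : ℕ} (a b : Fin n) (R0 R2 X : Fam n) : Fam n :=
  R0 ∪ (R2.image (fun S => insert a (insert b S)) ∪ X.image (fun Z => insert a Z))

theorem fill_mem_glue {n : ℕ} {a b : Fin n} {R0 R2 X : Fam n} {Y : Finset (Fin n)} :
    Y ∈ fill_glue a b R0 R2 X ↔ Y ∈ R0 ∨ (∃ S ∈ R2, insert a (insert b S) = Y) ∨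
      ∃ Z ∈ X, insert a Z = Y := by
  unfold fill_glue
  simp only [mem_union, mem_image]

open Classical in
/-- the free sets -/
noncomputable def fill_U {n : ℕ} (a b : Fin n) (r : ℕ) (p : Fam n × Fam n) : Fam n :=
  (powersetCard (r - 1) ((univ : Finset (Fin n)) \ {a, b})).filter
    (fun Z => (¬ ∃ Y ∈ p.1, Z ⊆ Y) ∧ ¬ ∃ Y ∈ p.2, Y ⊆ Z)

theorem fill_glue_mem {n : ℕ} {a b : Fin n} (hab : a ≠ b) {r : ℕ} (hr : 2 ≤ r) {R0 R2 X : Fam n}
    (h0 : R0 ∈ St (powersetCard r ((univ : Finset (Fin n)) \ {a, b})))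
    (h2 : R2 ∈ St (powersetCard (r - 2) ((univ : Finset (Fin n)) \ {a, b})))
    (hX : X ∈ St (fill_U a b r (R0, R2))) :
    fill_glue a b R0 R2 X ∈ St (powersetCard r (univ : Finset (Fin n))) := by
  rw [fill_mem_St] at h0 h2 hX ⊢
  have f0 : ∀ Y ∈ R0, a ∉ Y ∧ b ∉ Y ∧ Y.card = r := fun Y hY => fill_memG (h0.1 hY)
  have f2 : ∀ Y ∈ R2, a ∉ Y ∧ b ∉ Y ∧ Y.card = r - 2 := fun Y hY => fill_memG (h2.1 hY)
  have fX : ∀ Z ∈ X, (a ∉ Z ∧ b ∉ Z ∧ Z.card = r - 1) ∧ (¬ ∃ Y ∈ R0, Z ⊆ Y) ∧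
      ¬ ∃ Y ∈ R2, Y ⊆ Z := by
    intro Z hZ
    have := hX.1 hZ
    unfold fill_U at this
    rw [mem_filter] at this
    exact ⟨fill_memG this.1, this.2⟩
  constructor
  · intro Y hY
    rw [mem_powersetCard]
    refine ⟨subset_univ _, ?_⟩
    rcases fill_mem_glue.1 hY with h | ⟨S, hS, rfl⟩ | ⟨Z, hZ, rfl⟩
    · exact (f0 Y h).2.2
    · obtain ⟨ha, hb, hc⟩ := f2 S hS
      rw [card_insert_of_notMem, card_insert_of_notMem hb, hc]
      · omega
      · simp [hab, ha]
    · obtain ⟨ha, hb, hc⟩ := (fX Z hZ).1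
      rw [card_insert_of_notMem ha, hc]
      omega
  · -- non adjacency
    have c02 : ∀ Y ∈ R0, ∀ S ∈ R2, ¬ Adj Y (insert a (insert b S)) := by
      intro Y hY S _ h
      have h1 := h.2
      have : ({a, b} : Finset (Fin n)) ⊆ insert a (insert b S) \ Y := by
        intro x hx
        rw [mem_sdiff]
        simp only [mem_insert, mem_singleton] at hx ⊢
        rcases hx with rfl | rfl
        · exact ⟨Or.inl rfl, (f0 Y hY).1⟩
        · exact ⟨Or.inr (Or.inl rfl), (f0 Y hY).2.1⟩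
      have h3 := card_le_card this
      rw [card_pair hab, h1] at h3
      omega
    have c0X : ∀ Y ∈ R0, ∀ Z ∈ X, ¬ Adj Y (insert a Z) := by
      intro Y hY Z hZ h
      have h1 := h.2
      have h3 : insert a Z \ Y = insert a (Z \ Y) := insert_sdiff_of_notMem _ (f0 Y hY).1
      rw [h3, card_insert_of_notMem (by
        rw [mem_sdiff]; exact fun h => (fX Z hZ).1.1 h.1)] at h1
      have h4 : (Z \ Y).card = 0 := by omega
      rw [card_eq_zero, sdiff_eq_empty_iff_subset] at h4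
      exact (fX Z hZ).2.1 ⟨Y, hY, h4⟩
    have c2X : ∀ S ∈ R2, ∀ Z ∈ X, ¬ Adj (insert a (insert b S)) (insert a Z) := by
      intro S hS Z hZ h
      have h1 := h.1
      have h3 : insert a (insert b S) \ insert a Z = insert b (S \ Z) := by
        ext x
        simp only [mem_sdiff, mem_insert]
        constructor
        · rintro ⟨h | h | h, h'⟩
          · exact absurd (Or.inl h) h'
          · exact Or.inl h
          · exact Or.inr ⟨h, fun hz => h' (Or.inr hz)⟩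
        · rintro (hxb | ⟨hxS, hz⟩)
          · subst hxb
            refine ⟨Or.inr (Or.inl rfl), ?_⟩
            rintro (h | h)
            · exact hab h.symm
            · exact (fX Z hZ).1.2.1 h
          · refine ⟨Or.inr (Or.inr hxS), ?_⟩
            rintro (h' | h')
            · exact (f2 S hS).1 (h' ▸ hxS)
            · exact hz h'
      rw [h3, card_insert_of_notMem (by
        rw [mem_sdiff]; exact fun h => (f2 S hS).2.1 h.1)] at h1
      have h4 : (S \ Z).card = 0 := by omega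
      rw [card_eq_zero, sdiff_eq_empty_iff_subset] at h4
      exact (fX Z hZ).2.2 ⟨S, hS, h4⟩
    have e1 : ∀ Z Z' : Finset (Fin n), a ∉ Z → insert a Z \ insert a Z' = Z \ Z' := by
      intro Z Z' hZ
      ext x
      simp only [mem_sdiff, mem_insert]
      constructor
      · rintro ⟨h | h, h'⟩
        · exact absurd (Or.inl h) h'
        · exact ⟨h, fun hz => h' (Or.inr hz)⟩
      · rintro ⟨h, h'⟩
        refine ⟨Or.inr h, ?_⟩
        rintro (h'' | h'')
        · subst h''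
          exact hZ h
        · exact h' h''
    have e2 : ∀ Z Z' : Finset (Fin n), b ∉ Z → insert b Z \ insert b Z' = Z \ Z' := by
      intro Z Z' hZ
      ext x
      simp only [mem_sdiff, mem_insert]
      constructor
      · rintro ⟨h | h, h'⟩
        · exact absurd (Or.inl h) h'
        · exact ⟨h, fun hz => h' (Or.inr hz)⟩
      · rintro ⟨h, h'⟩
        refine ⟨Or.inr h, ?_⟩
        rintro (h'' | h'')
        · subst h''
          exact hZ h
        · exact h' h''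
    intro P hP P' hP'
    rcases fill_mem_glue.1 hP with h | ⟨S, hS, rfl⟩ | ⟨Z, hZ, rfl⟩ <;>
      rcases fill_mem_glue.1 hP' with h' | ⟨S', hS', rfl⟩ | ⟨Z', hZ', rfl⟩
    · exact h0.2 P h P' h'
    · exact c02 P h S' hS'
    · exact c0X P h Z' hZ'
    · exact fun h'' => c02 P' h' S hS (fill_Adj_symm h'')
    · have ha : a ∉ insert b S := by simp [hab, (f2 S hS).1]
      have ha' : a ∉ insert b S' := by simp [hab, (f2 S' hS').1]
      intro h''
      unfold Adj at h''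
      rw [e1 _ _ ha, e1 _ _ ha', e2 _ _ (f2 S hS).2.1, e2 _ _ (f2 S' hS').2.1] at h''
      exact h2.2 S hS S' hS' h''
    · exact c2X S hS Z' hZ'
    · exact fun h'' => c0X P' h' Z hZ (fill_Adj_symm h'')
    · exact fun h'' => c2X S' hS' Z hZ (fill_Adj_symm h'')
    · intro h''
      unfold Adj at h''
      rw [e1 _ _ (fX Z hZ).1.1, e1 _ _ (fX Z' hZ').1.1] at h''
      exact hX.2 Z hZ Z' hZ' h''

theorem fill_glue_inj {n : ℕ} {a b : Fin n} (hab : a ≠ b) {R0 R2 X R0' R2' X' : Fam n}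
    (f0 : ∀ Y ∈ R0, a ∉ Y) (f2 : ∀ Y ∈ R2, a ∉ Y ∧ b ∉ Y) (fX : ∀ Y ∈ X, a ∉ Y ∧ b ∉ Y)
    (f0' : ∀ Y ∈ R0', a ∉ Y) (f2' : ∀ Y ∈ R2', a ∉ Y ∧ b ∉ Y) (fX' : ∀ Y ∈ X', a ∉ Y ∧ b ∉ Y)
    (h : fill_glue a b R0 R2 X = fill_glue a b R0' R2' X') :
    R0 ⊆ R0' ∧ R2 ⊆ R2' ∧ X ⊆ X' := by
  refine ⟨fun Y hY => ?_, fun S hS => ?_, fun Z hZ => ?_⟩
  · have h1 : Y ∈ fill_glue a b R0' R2' X' := h ▸ fill_mem_glue.2 (Or.inl hY)
    rcases fill_mem_glue.1 h1 with h2 | ⟨S, hS, rfl⟩ | ⟨Z, hZ, rfl⟩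
    · exact h2
    · exact absurd (mem_insert_self _ _) (f0 _ hY)
    · exact absurd (mem_insert_self _ _) (f0 _ hY)
  · have h1 : insert a (insert b S) ∈ fill_glue a b R0' R2' X' :=
      h ▸ fill_mem_glue.2 (Or.inr (Or.inl ⟨S, hS, rfl⟩))
    rcases fill_mem_glue.1 h1 with h2 | ⟨S', hS', h3⟩ | ⟨Z, hZ, h3⟩
    · exact absurd (mem_insert_self _ _) (f0' _ h2)
    · have h4 : S' = S := by
        have h5 := congrArg (fun T : Finset (Fin n) => (T.erase a).erase b) h3
        rw [erase_insert (by simp [hab, (f2' S' hS').1]), erase_insert (f2' S' hS').2,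
          erase_insert (by simp [hab, (f2 S hS).1]), erase_insert (f2 S hS).2] at h5
        exact h5
      exact h4 ▸ hS'
    · exfalso
      have h4 : b ∈ insert a Z := by
        rw [h3]
        simp
      rw [mem_insert] at h4
      rcases h4 with h4 | h4
      · exact hab h4.symm
      · exact (fX' Z hZ).2 h4
  · have h1 : insert a Z ∈ fill_glue a b R0' R2' X' :=
      h ▸ fill_mem_glue.2 (Or.inr (Or.inr ⟨Z, hZ, rfl⟩))
    rcases fill_mem_glue.1 h1 with h2 | ⟨S', hS', h3⟩ | ⟨Z', hZ', h3⟩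
    · exact absurd (mem_insert_self _ _) (f0' _ h2)
    · exfalso
      have h4 : b ∈ insert a Z := by
        rw [← h3]
        simp
      rw [mem_insert] at h4
      rcases h4 with h4 | h4
      · exact hab h4.symm
      · exact (fX Z hZ).2 h4
    · have h4 : Z' = Z := by
        have h5 := congrArg (fun T : Finset (Fin n) => T.erase a) h3
        rw [erase_insert (fX' Z' hZ').1, erase_insert (fX Z hZ).1] at h5
        exact h5
      exact h4 ▸ hZ'

theorem fill_count {n : ℕ} (a b : Fin n) (hab : a ≠ b) (r : ℕ) (hr : 2 ≤ r) :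
    ∑ p ∈ (St (powersetCard r ((univ : Finset (Fin n)) \ {a, b}))) ×ˢ
      (St (powersetCard (r - 2) ((univ : Finset (Fin n)) \ {a, b}))),
      (St (fill_U a b r p)).card ≤ (St (powersetCard r (univ : Finset (Fin n)))).card := by
  rw [← card_sigma]
  refine card_le_card_of_injOn (fun q => fill_glue a b q.1.1 q.1.2 q.2) ?_ ?_
  · rintro ⟨⟨R0, R2⟩, X⟩ hq
    rw [mem_coe, mem_sigma, mem_product] at hq
    exact fill_glue_mem hab hr hq.1.1 hq.1.2 hq.2
  · have hU : ∀ (R0 R2 X : Fam n), X ∈ St (fill_U a b r (R0, R2)) → ∀ Y ∈ X, a ∉ Y ∧ b ∉ Y := by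
      intro R0 R2 X hX Y hY
      have h1 := (fill_mem_St.1 hX).1 hY
      unfold fill_U at h1
      rw [mem_filter] at h1
      exact ⟨(fill_memG h1.1).1, (fill_memG h1.1).2.1⟩
    have hV : ∀ (k : ℕ) (R : Fam n),
        R ∈ St (powersetCard k ((univ : Finset (Fin n)) \ {a, b})) → ∀ Y ∈ R, a ∉ Y ∧ b ∉ Y := by
      intro k R hR Y hY
      have h1 := fill_memG ((fill_mem_St.1 hR).1 hY)
      exact ⟨h1.1, h1.2.1⟩
    rintro ⟨⟨R0, R2⟩, X⟩ hq ⟨⟨R0', R2'⟩, X'⟩ hq' h
    rw [mem_coe, mem_sigma, mem_product] at hq hq'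
    simp only at h hq hq'
    have g1 := fill_glue_inj hab (fun Y hY => (hV _ _ hq.1.1 Y hY).1) (hV _ _ hq.1.2)
      (hU _ _ _ hq.2) (fun Y hY => (hV _ _ hq'.1.1 Y hY).1) (hV _ _ hq'.1.2)
      (hU _ _ _ hq'.2) h
    have g2 := fill_glue_inj hab (fun Y hY => (hV _ _ hq'.1.1 Y hY).1) (hV _ _ hq'.1.2)
      (hU _ _ _ hq'.2) (fun Y hY => (hV _ _ hq.1.1 Y hY).1) (hV _ _ hq.1.2)
      (hU _ _ _ hq.2) h.symm
    obtain rfl : R0 = R0' := Subset.antisymm g1.1 g2.1
    obtain rfl : R2 = R2' := Subset.antisymm g1.2.1 g2.2.1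
    obtain rfl : X = X' := Subset.antisymm g1.2.2 g2.2.2
    rfl

theorem fill {n : ℕ} (a b : Fin n) (hab : a ≠ b) (r : ℕ) (hr : 2 ≤ r)
    (hlow : ∀ W : Fam n, (2 : ℝ) ^ ((W.card : ℝ) / n) ≤ ((St W).card : ℝ))
    (h1 : ∀ Z ∈ powersetCard (r - 1) ((univ : Finset (Fin n)) \ {a, b}),
      (((St (powersetCard r ((univ : Finset (Fin n)) \ {a, b}))).filter
        (fun R => ∃ Y ∈ R, Z ⊆ Y)).card : ℝ) ≤
      3 / 5 * ((St (powersetCard r ((univ : Finset (Fin n)) \ {a, b}))).card : ℝ))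
    (h2 : ∀ Z ∈ powersetCard (r - 1) ((univ : Finset (Fin n)) \ {a, b}),
      (((St (powersetCard (r - 2) ((univ : Finset (Fin n)) \ {a, b}))).filter
        (fun R => ∃ Y ∈ R, Y ⊆ Z)).card : ℝ) ≤
      3 / 5 * ((St (powersetCard (r - 2) ((univ : Finset (Fin n)) \ {a, b}))).card : ℝ)) :
    (2 / 25 : ℝ) * ((St (powersetCard r ((univ : Finset (Fin n)) \ {a, b}))).card : ℝ) *
      ((St (powersetCard (r - 2) ((univ : Finset (Fin n)) \ {a, b}))).card : ℝ) *
      (2 : ℝ) ^ ((2 / 25 : ℝ) * ((n - 2).choose (r - 1) : ℝ) / n) ≤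
    ((St (powersetCard r (univ : Finset (Fin n)))).card : ℝ) := by
  classical
  have hn : 0 < (n : ℝ) := by
    have : 0 < n := a.pos
    exact_mod_cast this
  set S0 := St (powersetCard r ((univ : Finset (Fin n)) \ {a, b})) with hS0
  set S2 := St (powersetCard (r - 2) ((univ : Finset (Fin n)) \ {a, b})) with hS2
  set W := powersetCard (r - 1) ((univ : Finset (Fin n)) \ {a, b}) with hW
  have hWc : W.card = (n - 2).choose (r - 1) := by
    rw [hW, card_powersetCard, card_univ_sdiff, card_pair hab, Fintype.card_fin]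
  rw [← hWc]
  have hcount : ((∑ p ∈ S0 ×ˢ S2, (St (fill_U a b r p)).card : ℕ) : ℝ) ≤
      ((St (powersetCard r (univ : Finset (Fin n)))).card : ℝ) := by
    exact_mod_cast fill_count a b hab r hr
  refine le_trans ?_ hcount
  push_cast
  have hUW : ∀ p, (fill_U a b r p).card ≤ W.card := fun p => card_filter_le _ _
  -- double count
  have hdc : (4 / 25 : ℝ) * S0.card * S2.card * W.card ≤
      ∑ p ∈ S0 ×ˢ S2, ((fill_U a b r p).card : ℝ) := by
    have e1 : ∑ p ∈ S0 ×ˢ S2, ((fill_U a b r p).card : ℝ) =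
        ∑ Z ∈ W, ((((S0.filter (fun R => ¬ ∃ Y ∈ R, Z ⊆ Y)).card : ℝ)) *
          ((S2.filter (fun R => ¬ ∃ Y ∈ R, Y ⊆ Z)).card : ℝ)) := by
      have e2 : ∀ p : Fam n × Fam n, ((fill_U a b r p).card : ℝ) =
          ∑ Z ∈ W, if ((¬ ∃ Y ∈ p.1, Z ⊆ Y) ∧ ¬ ∃ Y ∈ p.2, Y ⊆ Z) then (1 : ℝ) else 0 := by
        intro p
        rw [sum_boole]
        rfl
      simp_rw [e2]
      rw [sum_comm]
      refine sum_congr rfl fun Z _ => ?_
      rw [sum_boole, ← Nat.cast_mul, ← card_product]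
      congr 1
      congr 1
      ext p
      simp only [mem_filter, mem_product]
      tauto
    rw [e1]
    have e3 : ∀ Z ∈ W, (4 / 25 : ℝ) * S0.card * S2.card ≤
        (((S0.filter (fun R => ¬ ∃ Y ∈ R, Z ⊆ Y)).card : ℝ)) *
          ((S2.filter (fun R => ¬ ∃ Y ∈ R, Y ⊆ Z)).card : ℝ) := by
      intro Z hZ
      have k1 := h1 Z hZ
      have k2 := h2 Z hZ
      have c1 : ((S0.filter (fun R => ∃ Y ∈ R, Z ⊆ Y)).card : ℝ) +
          ((S0.filter (fun R => ¬ ∃ Y ∈ R, Z ⊆ Y)).card : ℝ) = S0.card := by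
        exact_mod_cast card_filter_add_card_filter_not (s := S0) (fun R => ∃ Y ∈ R, Z ⊆ Y)
      have c2 : ((S2.filter (fun R => ∃ Y ∈ R, Y ⊆ Z)).card : ℝ) +
          ((S2.filter (fun R => ¬ ∃ Y ∈ R, Y ⊆ Z)).card : ℝ) = S2.card := by
        exact_mod_cast card_filter_add_card_filter_not (s := S2) (fun R => ∃ Y ∈ R, Y ⊆ Z)
      have d1 : (2 / 5 : ℝ) * S0.card ≤ ((S0.filter (fun R => ¬ ∃ Y ∈ R, Z ⊆ Y)).card : ℝ) := by
        linarith
      have d2 : (2 / 5 : ℝ) * S2.card ≤ ((S2.filter (fun R => ¬ ∃ Y ∈ R, Y ⊆ Z)).card : ℝ) := by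
        linarith
      have d3 : (0 : ℝ) ≤ (2 / 5 : ℝ) * S2.card := by positivity
      have d4 := mul_le_mul d1 d2 d3 (Nat.cast_nonneg _)
      calc (4 / 25 : ℝ) * S0.card * S2.card = (2 / 5 : ℝ) * S0.card * ((2 / 5 : ℝ) * S2.card) := by
            ring
        _ ≤ _ := d4
    have e4 := sum_le_sum e3
    rw [sum_const, nsmul_eq_mul] at e4
    linarith
  -- many good pairs
  set good := (S0 ×ˢ S2).filter (fun p => (2 / 25 : ℝ) * W.card ≤ ((fill_U a b r p).card : ℝ))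
    with hgood
  have hP : ((S0 ×ˢ S2).card : ℝ) = S0.card * S2.card := by
    rw [card_product]; push_cast; ring
  have hgc : (2 / 25 : ℝ) * S0.card * S2.card ≤ good.card := by
    rcases Nat.eq_zero_or_pos W.card with hw | hw
    · have : good = S0 ×ˢ S2 := by
        rw [hgood]
        refine filter_true_of_mem fun p _ => ?_
        rw [hw]
        simp
      rw [this, hP]
      have : (0 : ℝ) ≤ S0.card * S2.card := by positivity
      linarith
    · have hw' : (0 : ℝ) < W.card := by exact_mod_cast hw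
      have e5 : ∑ p ∈ S0 ×ˢ S2, ((fill_U a b r p).card : ℝ) ≤
          good.card * W.card + (S0 ×ˢ S2).card * ((2 / 25 : ℝ) * W.card) := by
        rw [← sum_filter_add_sum_filter_not (S0 ×ˢ S2)
          (fun p => (2 / 25 : ℝ) * W.card ≤ ((fill_U a b r p).card : ℝ))]
        refine add_le_add ?_ ?_
        · have := sum_le_card_nsmul good (fun p => ((fill_U a b r p).card : ℝ)) (W.card : ℝ)
            (fun p _ => by exact_mod_cast hUW p)
          rw [nsmul_eq_mul] at this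
          exact this
        · have := sum_le_card_nsmul ((S0 ×ˢ S2).filter
            (fun p => ¬ (2 / 25 : ℝ) * W.card ≤ ((fill_U a b r p).card : ℝ)))
            (fun p => ((fill_U a b r p).card : ℝ)) ((2 / 25 : ℝ) * W.card)
            (fun p hp => (not_le.1 (mem_filter.1 hp).2).le)
          rw [nsmul_eq_mul] at this
          refine this.trans (mul_le_mul_of_nonneg_right ?_ (by positivity))
          exact_mod_cast card_filter_le _ _
      rw [hP] at e5
      have e6 := hdc.trans e5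
      have e7 : (2 / 25 : ℝ) * S0.card * S2.card * W.card ≤ good.card * W.card := by
        linarith
      exact le_of_mul_le_mul_right e7 hw'
  have hpow : 0 ≤ (2 : ℝ) ^ ((2 / 25 : ℝ) * (W.card : ℝ) / n) := by positivity
  calc (2 / 25 : ℝ) * (S0.card : ℝ) * (S2.card : ℝ) * (2 : ℝ) ^ ((2 / 25 : ℝ) * (W.card : ℝ) / n)
      ≤ good.card * (2 : ℝ) ^ ((2 / 25 : ℝ) * (W.card : ℝ) / n) :=
        mul_le_mul_of_nonneg_right hgc hpow
    _ = ∑ _p ∈ good, (2 : ℝ) ^ ((2 / 25 : ℝ) * (W.card : ℝ) / n) := by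
        rw [sum_const, nsmul_eq_mul]
    _ ≤ ∑ p ∈ good, ((St (fill_U a b r p)).card : ℝ) := by
        refine sum_le_sum fun p hp => ?_
        refine le_trans ?_ (hlow (fill_U a b r p))
        refine Real.rpow_le_rpow_of_exponent_le (by norm_num) ?_
        exact div_le_div_of_nonneg_right (mem_filter.1 hp).2 hn.le
    _ ≤ ∑ p ∈ S0 ×ˢ S2, ((St (fill_U a b r p)).card : ℝ) :=
        sum_le_sum_of_subset_of_nonneg (filter_subset _ _) (fun _ _ _ => Nat.cast_nonneg _)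

end Pool.Agent.Helper46.A.B4
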