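import Pool.Agent.Helper46.A.Defs

set_option autoImplicit false

namespace Pool.Agent.Helper46.A.B5

open Finset

theorem split_le {n : ℕ} (a b : Fin n) (hab : a ≠ b) (r : ℕ) (hr : 2 ≤ r) :
    (St (Vab r a b)).card ≤
      (St (powersetCard r ((univ : Finset (Fin n)) \ {a, b}))).card *
      (St (powersetCard (r - 2) ((univ : Finset (Fin n)) \ {a, b}))).card := by
  classical
  rw [← Finset.card_product]
  have hback : ∀ X X' : Finset (Fin n), a ∈ X → b ∈ X → a ∈ X' → b ∈ X' →
      (X \ {a, b}) \ (X' \ {a, b}) = X \ X' := by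
    intro X X' h1 h2 h3 h4
    ext x
    simp only [Finset.mem_sdiff, Finset.mem_insert, Finset.mem_singleton]
    constructor
    · rintro ⟨⟨h5, h6⟩, h7⟩
      exact ⟨h5, fun h8 => h7 ⟨h8, h6⟩⟩
    · rintro ⟨h5, h6⟩
      refine ⟨⟨h5, ?_⟩, fun h7 => h6 h7.1⟩
      rintro (rfl | rfl)
      · exact h6 h3
      · exact h6 h4
  have hinj : ∀ X X' : Finset (Fin n), a ∈ X → b ∈ X → a ∈ X' → b ∈ X' →
      X \ {a, b} = X' \ {a, b} → X = X' := by
    intro X X' h1 h2 h3 h4 h5
    ext x
    by_cases hx : x = a ∨ x = b
    · rcases hx with rfl | rfl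
      · simp [h1, h3]
      · simp [h2, h4]
    · have h6 := congrArg (fun S => x ∈ S) h5
      simp only [Finset.mem_sdiff, Finset.mem_insert, Finset.mem_singleton, hx, not_false_eq_true,
        and_true, eq_iff_iff] at h6
      exact h6
  refine Finset.card_le_card_of_injOn
    (fun R => (R.filter (fun X => a ∉ X), (R.filter (fun X => a ∈ X)).image (fun X => X \ {a, b})))
    ?_ ?_
  · intro R hR
    simp only [Finset.mem_coe, St, Finset.mem_filter, Finset.mem_powerset] at hR
    obtain ⟨hRV, hst⟩ := hR
    simp only [Finset.mem_coe, Finset.mem_product, St, Finset.mem_filter, Finset.mem_powerset]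
    refine ⟨⟨?_, ?_⟩, ⟨?_, ?_⟩⟩
    · intro X hX
      rw [Finset.mem_filter] at hX
      have h1 := hRV hX.1
      simp only [Vab, Finset.mem_filter, Finset.mem_powersetCard] at h1
      rw [Finset.mem_powersetCard]
      refine ⟨?_, h1.1.2⟩
      intro x hx
      simp only [Finset.mem_sdiff, Finset.mem_univ, true_and, Finset.mem_insert,
        Finset.mem_singleton]
      rintro (rfl | rfl)
      · exact hX.2 hx
      · exact hX.2 (h1.2.2 hx)
    · intro X hX Y hY
      exact hst X hX.1 Y hY.1
    · intro Y hY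
      rw [Finset.mem_image] at hY
      obtain ⟨X, hX, rfl⟩ := hY
      rw [Finset.mem_filter] at hX
      have h1 := hRV hX.1
      simp only [Vab, Finset.mem_filter, Finset.mem_powersetCard] at h1
      rw [Finset.mem_powersetCard]
      constructor
      · exact Finset.sdiff_subset_sdiff (Finset.subset_univ _) (Finset.Subset.refl _)
      · rw [Finset.card_sdiff_of_subset, h1.1.2, Finset.card_pair hab]
        intro x hx
        rw [Finset.mem_insert, Finset.mem_singleton] at hx
        rcases hx with rfl | rfl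
        · exact hX.2
        · exact h1.2.1 hX.2
    · intro Y hY Y' hY' hadj
      rw [Finset.mem_image] at hY hY'
      obtain ⟨X, hX, rfl⟩ := hY
      obtain ⟨X', hX', rfl⟩ := hY'
      rw [Finset.mem_filter] at hX hX'
      have h1 := hRV hX.1
      have h1' := hRV hX'.1
      simp only [Vab, Finset.mem_filter, Finset.mem_powersetCard] at h1 h1'
      have hb := h1.2.1 hX.2
      have hb' := h1'.2.1 hX'.2
      unfold Adj at hadj
      rw [hback X X' hX.2 hb hX'.2 hb', hback X' X hX'.2 hb' hX.2 hb] at hadj
      exact hst X hX.1 X' hX'.1 hadj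
  · have key : ∀ R R' : Fam n, R ⊆ Vab r a b → R' ⊆ Vab r a b →
        R.filter (fun X => a ∉ X) = R'.filter (fun X => a ∉ X) →
        (R.filter (fun X => a ∈ X)).image (fun X => X \ {a, b}) =
          (R'.filter (fun X => a ∈ X)).image (fun X => X \ {a, b}) → R ⊆ R' := by
      intro R R' hR hR' h1 h2 X hX
      by_cases ha : a ∈ X
      · have h3 : X \ {a, b} ∈ (R'.filter (fun X => a ∈ X)).image (fun X => X \ {a, b}) := by
          rw [← h2]
          exact Finset.mem_image.2 ⟨X, Finset.mem_filter.2 ⟨hX, ha⟩, rfl⟩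
        obtain ⟨X', hX', h4⟩ := Finset.mem_image.1 h3
        rw [Finset.mem_filter] at hX'
        have h5 := hR hX
        have h5' := hR' hX'.1
        simp only [Vab, Finset.mem_filter, Finset.mem_powersetCard] at h5 h5'
        have := hinj X' X hX'.2 (h5'.2.1 hX'.2) ha (h5.2.1 ha) h4
        rw [← this]
        exact hX'.1
      · have h3 : X ∈ R'.filter (fun X => a ∉ X) := by
          rw [← h1]
          exact Finset.mem_filter.2 ⟨hX, ha⟩
        exact (Finset.mem_filter.1 h3).1
    intro R hR R' hR' h
    simp only [Finset.mem_coe, St, Finset.mem_filter, Finset.mem_powerset] at hR hR'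
    simp only [Prod.mk.injEq] at h
    exact Finset.Subset.antisymm (key R R' hR.1 hR'.1 h.1 h.2)
      (key R' R hR'.1 hR.1 h.1.symm h.2.symm)

end Pool.Agent.Helper46.A.B5
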