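import Pool.Agent.Helper46.A.Defs

set_option autoImplicit false

namespace Pool.Agent.Helper46.A.B6

open Finset

theorem st_le_BF {n r : ℕ} (h0 : 0 < r) (hr : r < n) :
    (St (powersetCard r (univ : Finset (Fin n)))).card ≤ (BF n r).card := by
  classical
  have hadj : ∀ (W : Finset (Fin n)) (y y' : Fin n), y ∉ W → y' ∉ W → y ≠ y' →
      Adj (insert y W) (insert y' W) := by
    intro W y y' hy hy' hne
    have h1 : insert y W \ insert y' W = {y} := by
      ext z
      simp only [mem_sdiff, mem_insert, mem_singleton, not_or]
      constructor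
      · rintro ⟨h | h, h2, h3⟩
        · exact h
        · exact absurd h h3
      · rintro rfl
        exact ⟨Or.inl rfl, hne, hy⟩
    have h2 : insert y' W \ insert y W = {y'} := by
      ext z
      simp only [mem_sdiff, mem_insert, mem_singleton, not_or]
      constructor
      · rintro ⟨h | h, h2, h3⟩
        · exact h
        · exact absurd h h3
      · rintro rfl
        exact ⟨Or.inl rfl, fun h => hne h.symm, hy'⟩
    exact ⟨by rw [h1]; simp, by rw [h2]; simp⟩
  have key : ∀ R ∈ St (powersetCard r (univ : Finset (Fin n))),
      IsBF r (powersetCard r (univ : Finset (Fin n)) \ R) := by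
    intro R hR
    have hR2 := (mem_filter.1 hR).2
    have hins : ∀ (W : Finset (Fin n)) (y y' : Fin n), W.card + 1 = r → y ∉ W → y' ∉ W → y ≠ y' →
        insert y W ∈ powersetCard r (univ : Finset (Fin n)) \ R ∨
        insert y' W ∈ powersetCard r (univ : Finset (Fin n)) \ R := by
      intro W y y' hW hy hy' hne
      have e1 : insert y W ∈ powersetCard r (univ : Finset (Fin n)) :=
        mem_powersetCard.2 ⟨subset_univ _, by rw [card_insert_of_notMem hy]; exact hW⟩
      have e2 : insert y' W ∈ powersetCard r (univ : Finset (Fin n)) :=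
        mem_powersetCard.2 ⟨subset_univ _, by rw [card_insert_of_notMem hy']; exact hW⟩
      by_cases hA : insert y W ∈ R
      · right
        refine mem_sdiff.2 ⟨e2, fun hB => ?_⟩
        exact hR2 _ hA _ hB (hadj W y y' hy hy' hne)
      · left
        exact mem_sdiff.2 ⟨e1, hA⟩
    refine ⟨?_, ?_, ?_⟩
    · obtain ⟨W, -, hWc⟩ := exists_subset_card_eq (s := (univ : Finset (Fin n))) (n := r - 1)
        (by simp; omega)
      have hc : 1 < (Wᶜ).card := by
        rw [card_compl]; simp; omega
      obtain ⟨y, hy, y', hy', hne⟩ := one_lt_card.1 hc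
      rw [mem_compl] at hy hy'
      rcases hins W y y' (by omega) hy hy' hne with h | h
      · exact ⟨_, h⟩
      · exact ⟨_, h⟩
    · intro X hX
      exact (mem_powersetCard.1 (mem_sdiff.1 hX).1).2
    · intro X hX Y hY x hx
      have hXc : X.card = r := (mem_powersetCard.1 (mem_sdiff.1 hX).1).2
      have hYc : Y.card = r := (mem_powersetCard.1 (mem_sdiff.1 hY).1).2
      have hxX := (mem_sdiff.1 hx).1
      have hxY := (mem_sdiff.1 hx).2
      have hcard : (X \ Y).card = (Y \ X).card := by
        have a1 := card_sdiff_add_card_inter X Y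
        have a2 := card_sdiff_add_card_inter Y X
        rw [inter_comm] at a2
        omega
      have hpos : 0 < (X \ Y).card := card_pos.2 ⟨x, hx⟩
      have hWc : (X.erase x).card + 1 = r := by
        rw [card_erase_of_mem hxX, hXc]; omega
      by_cases h1 : (Y \ X).card = 1
      · obtain ⟨y, hy⟩ := card_eq_one.1 h1
        have hX1 : (X \ Y).card = 1 := by omega
        obtain ⟨x', hx'⟩ := card_eq_one.1 hX1
        have hxx : x = x' := by rw [hx'] at hx; exact mem_singleton.1 hx
        subst hxx
        refine ⟨y, by rw [hy]; simp, ?_⟩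
        have hyY : y ∈ Y ∧ y ∉ X := by
          have : y ∈ Y \ X := by rw [hy]; simp
          exact mem_sdiff.1 this
        have hEq : insert y (X.erase x) = Y := by
          ext z
          simp only [mem_insert, mem_erase]
          constructor
          · rintro (rfl | ⟨hz, hzX⟩)
            · exact hyY.1
            · by_contra hzY
              have : z ∈ X \ Y := mem_sdiff.2 ⟨hzX, hzY⟩
              rw [hx'] at this
              exact hz (mem_singleton.1 this)
          · intro hz
            by_cases hzX : z ∈ X
            · right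
              exact ⟨fun h => hxY (h ▸ hz), hzX⟩
            · left
              have : z ∈ Y \ X := mem_sdiff.2 ⟨hz, hzX⟩
              rw [hy] at this
              exact mem_singleton.1 this
        rw [hEq]
        exact hY
      · have hc : 1 < (Y \ X).card := by omega
        obtain ⟨y, hy, y', hy', hne⟩ := one_lt_card.1 hc
        have hyX := (mem_sdiff.1 hy).2
        have hyX' := (mem_sdiff.1 hy').2
        rcases hins (X.erase x) y y' hWc (fun h => hyX (mem_of_mem_erase h))
            (fun h => hyX' (mem_of_mem_erase h)) hne with h | h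
        · exact ⟨y, hy, h⟩
        · exact ⟨y', hy', h⟩
  refine card_le_card_of_injOn (fun R => powersetCard r (univ : Finset (Fin n)) \ R) ?_ ?_
  · intro R hR
    have hR1 : R ∈ St (powersetCard r (univ : Finset (Fin n))) := hR
    show _ ∈ (BF n r : Set (Fam n))
    exact mem_coe.2 (mem_filter.2 ⟨mem_univ _, key R hR1⟩)
  · intro R hR R' hR' h
    have hR1 : R ∈ St (powersetCard r (univ : Finset (Fin n))) := hR
    have hR1' : R' ∈ St (powersetCard r (univ : Finset (Fin n))) := hR'
    have s1 : R ⊆ powersetCard r (univ : Finset (Fin n)) := mem_powerset.1 (mem_filter.1 hR1).1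
    have s2 : R' ⊆ powersetCard r (univ : Finset (Fin n)) := mem_powerset.1 (mem_filter.1 hR1').1
    have h' : powersetCard r (univ : Finset (Fin n)) \ R = powersetCard r (univ : Finset (Fin n)) \ R' := h
    rw [← Finset.sdiff_sdiff_eq_self s1, ← Finset.sdiff_sdiff_eq_self s2, h']

end Pool.Agent.Helper46.A.B6
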