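import Pool.Agent.Helper46.A.Defs

set_option autoImplicit false

namespace Pool.Agent.Helper46.A

open Finset

/-- the matroid of a base family -/
theorem toMat {n r : ℕ} {B : Fam n} (hB : IsBF r B) :
    ∃ M : Matroid (Fin n), M.E = Set.univ ∧ ∀ X : Finset (Fin n), M.IsBase (X : Set (Fin n)) ↔ X ∈ B := by
  classical
  let P : Set (Fin n) → Prop := fun S => S.toFinite.toFinset ∈ B
  have hP : ∀ X : Finset (Fin n), P (X : Set (Fin n)) ↔ X ∈ B := by
    intro X
    simp only [P]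
    rw [Set.Finite.toFinset_eq_toFinset]
    simp
  refine ⟨Matroid.ofIsBaseOfFinite (E := Set.univ) Set.finite_univ P ?_ ?_ (fun _ _ => Set.subset_univ _), rfl, ?_⟩
  · obtain ⟨X, hX⟩ := hB.ne
    exact ⟨X, (hP X).2 hX⟩
  · intro S T hS hT x hx
    lift S to Finset (Fin n) using S.toFinite
    lift T to Finset (Fin n) using T.toFinite
    rw [hP] at hS hT
    have hx' : x ∈ S \ T := by
      rw [Finset.mem_sdiff]; exact ⟨by exact_mod_cast hx.1, by exact_mod_cast hx.2⟩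
    obtain ⟨y, hy, hyB⟩ := hB.exch S hS T hT x hx'
    rw [Finset.mem_sdiff] at hy
    refine ⟨y, ⟨by exact_mod_cast hy.1, by exact_mod_cast hy.2⟩, ?_⟩
    have : (insert y ((S : Set (Fin n)) \ {x})) = ((insert y (S.erase x) : Finset (Fin n)) : Set (Fin n)) := by
      simp
    rw [this, hP]
    exact hyB
  · intro X
    exact hP X

theorem indep_iff {n r : ℕ} {B : Fam n} (hB : IsBF r B) {M : Matroid (Fin n)} (hE : M.E = Set.univ)
    (hM : ∀ X : Finset (Fin n), M.IsBase (X : Set (Fin n)) ↔ X ∈ B) (S : Finset (Fin n)) :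
    M.Indep (S : Set (Fin n)) ↔ indep B S := by
  classical
  rw [Matroid.indep_iff]
  constructor
  · rintro ⟨T, hT, hST⟩
    lift T to Finset (Fin n) using T.toFinite
    exact ⟨T, (hM T).1 hT, by exact_mod_cast hST⟩
  · rintro ⟨T, hT, hST⟩
    exact ⟨T, (hM T).2 hT, by exact_mod_cast hST⟩

theorem circ_iff {n r : ℕ} {B : Fam n} (hB : IsBF r B) {M : Matroid (Fin n)} (hE : M.E = Set.univ)
    (hM : ∀ X : Finset (Fin n), M.IsBase (X : Set (Fin n)) ↔ X ∈ B) (S : Finset (Fin n)) :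
    M.IsCircuit (S : Set (Fin n)) ↔ circ B S := by
  classical
  rw [Matroid.isCircuit_iff_dep_forall_sdiff_singleton_indep]
  unfold circ
  rw [Matroid.Dep, indep_iff hB hE hM]
  constructor
  · rintro ⟨h1, h2⟩
    refine ⟨h1.1, fun x hx => ?_⟩
    have := h2 x (by exact_mod_cast hx)
    rw [← Finset.coe_erase, indep_iff hB hE hM] at this
    exact this
  · rintro ⟨h1, h2⟩
    refine ⟨⟨h1, by rw [hE]; exact Set.subset_univ _⟩, fun x hx => ?_⟩
    rw [← Finset.coe_erase, indep_iff hB hE hM]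
    exact h2 x (by exact_mod_cast hx)

theorem dual_mat {n r : ℕ} {B : Fam n} (hB : IsBF r B) {M : Matroid (Fin n)} (hE : M.E = Set.univ)
    (hM : ∀ X : Finset (Fin n), M.IsBase (X : Set (Fin n)) ↔ X ∈ B) (S : Finset (Fin n)) :
    M✶.IsBase (S : Set (Fin n)) ↔ S ∈ dualF B := by
  classical
  rw [Matroid.dual_isBase_iff (by rw [hE]; exact Set.subset_univ _), hE]
  have : (Set.univ \ (S : Set (Fin n))) = ((Sᶜ : Finset (Fin n)) : Set (Fin n)) := by
    simp [Set.compl_eq_univ_sdiff]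
  rw [this, hM]
  unfold dualF
  constructor
  · intro h
    exact Finset.mem_image.2 ⟨Sᶜ, h, compl_compl S⟩
  · intro h
    obtain ⟨X, hX, rfl⟩ := Finset.mem_image.1 h
    rwa [compl_compl]

theorem dual_isBF {n r : ℕ} {B : Fam n} (hB : IsBF r B) : IsBF (n - r) (dualF B) := by
  classical
  obtain ⟨M, hE, hM⟩ := toMat hB
  refine ⟨?_, ?_, ?_⟩
  · obtain ⟨X, hX⟩ := hB.ne
    exact ⟨Xᶜ, Finset.mem_image.2 ⟨X, hX, rfl⟩⟩
  · intro X hX
    obtain ⟨Y, hY, rfl⟩ := Finset.mem_image.1 hX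
    rw [Finset.card_compl, Fintype.card_fin, hB.card Y hY]
  · intro X hX Y hY x hx
    rw [← dual_mat hB hE hM] at hX hY
    have hx' : x ∈ (X : Set (Fin n)) \ (Y : Set (Fin n)) := by
      rw [Finset.mem_sdiff] at hx; exact ⟨by exact_mod_cast hx.1, by exact_mod_cast hx.2⟩
    obtain ⟨y, hy, hyB⟩ := hX.exchange hY hx'
    refine ⟨y, by rw [Finset.mem_sdiff]; exact ⟨by exact_mod_cast hy.1, by exact_mod_cast hy.2⟩, ?_⟩
    rw [← dual_mat hB hE hM]
    simpa using hyB

end Pool.Agent.Helper46.A
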