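import Pool.Agent.Helper46.A.Bridge

set_option autoImplicit false

namespace Pool.Agent.Helper46.A.C1

open Finset

theorem Q_not_mem_a1 {n l : ℕ} {B : Fam n} {X Γ : Finset (Fin n)}
    (hX : X ∈ B) (hΓ : Γ ∈ shortC l B) (h : Γ ⊆ X) : False := by
  classical
  unfold shortC at hΓ
  rw [Finset.mem_filter] at hΓ
  exact hΓ.2.1.1 ⟨X, hX, h⟩

theorem Q_not_mem_a2 {n r l : ℕ} {B : Fam n} (hB : IsBF r B) {X H : Finset (Fin n)}
    (hX : X ∈ B) (hH : H ∈ relH l r B) (h : X ⊆ H) : False := by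
  classical
  unfold relH at hH
  rw [Finset.mem_filter] at hH
  obtain ⟨-, I, Z, -, -, hIc, -, ⟨Y, hY, hIY⟩, hHx, -⟩ := hH
  have hYc := hB.card Y hY
  obtain ⟨y, hyI, hyY⟩ := Finset.exists_eq_insert_iff.2 ⟨hIY, by rw [hIc, hYc]⟩
  by_cases hyX : y ∈ X
  · rcases (hHx y).1 (h hyX) with h1 | h1
    · exact hyI h1
    · exact h1 (by rw [hyY]; exact hY)
  · obtain ⟨z, hz, hzB⟩ := hB.exch Y hY X hX y (by
      rw [Finset.mem_sdiff, ← hyY]; exact ⟨Finset.mem_insert_self _ _, hyX⟩)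
    rw [Finset.mem_sdiff] at hz
    have h2 : Y.erase y = I := by rw [← hyY, Finset.erase_insert hyI]
    rw [h2] at hzB
    rcases (hHx z).1 (h hz.1) with h1 | h1
    · exact hz.2 (hIY h1)
    · exact h1 hzB

theorem Q_not_mem {n r l : ℕ} {B : Fam n} (hB : IsBF r B) {X : Finset (Fin n)}
    (hX : X.card = r) (h : Q (info l r B) X) : X ∉ B := by
  intro hXB
  have hXc : Xᶜ ∈ dualF B := Finset.mem_image.2 ⟨X, hXB, rfl⟩
  rcases h with ⟨Γ, hΓ, h⟩ | ⟨Γ, hΓ, h⟩ | ⟨H, hH, h⟩ | ⟨H, hH, h⟩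
  · exact Q_not_mem_a1 hXB hΓ h
  · exact Q_not_mem_a1 hXc hΓ h
  · exact Q_not_mem_a2 hB hXB hH h
  · exact Q_not_mem_a2 (dual_isBF hB) hXc hH h

end Pool.Agent.Helper46.A.C1
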