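import Pool.Agent.Helper46.A.Bridge

set_option autoImplicit false

namespace Pool.Agent.Helper46.A.C2

open Finset

theorem tie_exch {n r : ℕ} {B : Fam n} (hB : IsBF r B) {X Γ : Finset (Fin n)} {f g : Fin n}
    (hΓ : circ B Γ) (hsub : Γ ⊆ insert g X) (hfΓ : f ∈ Γ) (hfX : f ∈ X) (hgX : g ∉ X)
    (hX : X ∈ B) : insert g (X.erase f) ∈ B := by
  classical
  obtain ⟨M, hE, hM⟩ := toMat hB
  have hXb : M.IsBase (X : Set (Fin n)) := (hM X).2 hX
  have hC : M.IsCircuit (Γ : Set (Fin n)) := (circ_iff hB hE hM Γ).2 hΓ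
  have hsub' : (Γ : Set (Fin n)) ⊆ insert g (X : Set (Fin n)) := by
    rw [← Finset.coe_insert]; exact_mod_cast hsub
  have h1 := hC.eq_fundCircuit_of_subset hXb.indep hsub'
  have hgX' : g ∉ (X : Set (Fin n)) := by exact_mod_cast hgX
  have h2 : f ∈ M.fundCircuit g (X : Set (Fin n)) := by rw [← h1]; exact_mod_cast hfΓ
  rw [hXb.indep.mem_fundCircuit_iff (by rw [hXb.closure_eq, hE]; exact Set.mem_univ _) hgX'] at h2
  have hfg : f ≠ g := fun h => hgX (h ▸ hfX)
  have h3 : insert g (X : Set (Fin n)) \ {f} = insert g ((X : Set (Fin n)) \ {f}) := by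
    rw [Set.insert_sdiff_of_notMem]
    simpa using hfg.symm
  rw [h3] at h2
  have h4 := hXb.exchange_isBase_of_indep hgX' h2
  rw [← hM]
  simpa using h4

theorem tie_iff {n r : ℕ} {B : Fam n} (hB : IsBF r B) {X Γ : Finset (Fin n)} {f g : Fin n}
    (hΓ : circ B Γ) (hsub : Γ ⊆ insert g X) (hfΓ : f ∈ Γ) (hgΓ : g ∈ Γ) (hfX : f ∈ X)
    (hgX : g ∉ X) : X ∈ B ↔ insert g (X.erase f) ∈ B := by
  classical
  constructor
  · exact tie_exch hB hΓ hsub hfΓ hfX hgX
  · intro h
    have hfg : f ≠ g := fun h => hgX (h ▸ hfX)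
    have h1 : insert f ((insert g (X.erase f)).erase g) = X := by
      rw [Finset.erase_insert (by simp [hgX]), Finset.insert_erase hfX]
    have h2 : insert f (insert g (X.erase f)) = insert g X := by
      rw [Finset.insert_comm, Finset.insert_erase hfX]
    have := tie_exch hB (X := insert g (X.erase f)) (f := g) (g := f) hΓ (by rw [h2]; exact hsub)
      hgΓ (Finset.mem_insert_self _ _) (by simp [hfg]) h
    rwa [h1] at this

theorem tie_mem {n r l : ℕ} {B : Fam n} (hB : IsBF r B) {X Y : Finset (Fin n)}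
    (h : tie (info l r B) X Y) : X ∈ B ↔ Y ∈ B := by
  classical
  obtain ⟨f, hf, g, hg, rfl, h | h⟩ := h
  · obtain ⟨Γ, hΓ, hfΓ, hgΓ, hsub⟩ := h
    have hΓ' : circ B Γ := by
      simp only [info, shortC, Finset.mem_filter] at hΓ
      exact hΓ.2.1
    exact tie_iff hB hΓ' hsub hfΓ hgΓ hf hg
  · obtain ⟨Γ, hΓ, hfΓ, hgΓ, hsub⟩ := h
    have hΓ' : circ (dualF B) Γ := by
      simp only [info, shortC, Finset.mem_filter] at hΓ
      exact hΓ.2.1
    have hfg : f ≠ g := fun h => hg (h ▸ hf)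
    have h1 := tie_iff (dual_isBF hB) (X := Xᶜ) (f := g) (g := f) hΓ' hsub hgΓ hfΓ
      (by simpa using hg) (by simpa using hf)
    have hd : ∀ Z : Finset (Fin n), Zᶜ ∈ dualF B ↔ Z ∈ B := by
      intro Z
      unfold dualF
      constructor
      · intro h
        obtain ⟨W, hW, hWZ⟩ := Finset.mem_image.1 h
        have : W = Z := compl_injective hWZ
        exact this ▸ hW
      · intro h
        exact Finset.mem_image.2 ⟨Z, h, rfl⟩
    have h2 : insert f (Xᶜ.erase g) = (insert g (X.erase f))ᶜ := by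
      ext z
      simp only [Finset.mem_insert, Finset.mem_erase, Finset.mem_compl, not_or, not_and, not_not]
      constructor
      · rintro (rfl | ⟨h1, h2⟩)
        · exact ⟨hfg, fun h => absurd rfl h⟩
        · exact ⟨h1, fun _ => h2⟩
      · rintro ⟨h1, h2⟩
        by_cases hz : z = f
        · exact Or.inl hz
        · exact Or.inr ⟨h1, h2 hz⟩
    rw [h2, hd, hd] at h1
    exact h1

end Pool.Agent.Helper46.A.C2
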