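import Pool.Agent.Helper46.A.Bridge

set_option autoImplicit false

namespace Pool.Agent.Helper46.A.C3

open Finset

theorem expl_indep_subset {n : ℕ} {B : Fam n} {S T : Finset (Fin n)} (h : indep B T) (hST : S ⊆ T) :
    indep B S := by
  obtain ⟨X, hX, hT⟩ := h
  exact ⟨X, hX, hST.trans hT⟩

theorem expl_A {n r l : ℕ} {B : Fam n} (hB : IsBF r B) {X : Finset (Fin n)}
    (hX : X.card = r) {g : Fin n} (hg : g ∉ X)
    (hnb : ∀ C ∈ B, ¬ C ⊆ insert g X)
    (hns : ∀ Γ ⊆ insert g X, Γ.card ≤ l → ¬ circ B Γ) :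
    ∃ H ∈ relH l r B, X ⊆ H := by
  classical
  obtain ⟨M, hE, hM⟩ := toMat hB
  have hI := indep_iff hB hE hM
  have hWc : (insert g X).card = r + 1 := by rw [Finset.card_insert_of_notMem hg, hX]
  obtain ⟨I0', hI0⟩ := M.exists_isBasis ((insert g X : Finset (Fin n)) : Set (Fin n))
    (by rw [hE]; exact Set.subset_univ _)
  obtain ⟨I0, rfl⟩ : ∃ I0 : Finset (Fin n), (I0 : Set (Fin n)) = I0' :=
    ⟨I0'.toFinite.toFinset, Set.Finite.coe_toFinset _⟩
  have hI0W : I0 ⊆ insert g X := by exact_mod_cast hI0.subset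
  obtain ⟨B0', hB0, hsub'⟩ := hI0.indep.exists_isBase_superset
  obtain ⟨B0, rfl⟩ : ∃ B0 : Finset (Fin n), (B0 : Set (Fin n)) = B0' :=
    ⟨B0'.toFinite.toFinset, Set.Finite.coe_toFinset _⟩
  have hB0B : B0 ∈ B := (hM B0).1 hB0
  have hB0c := hB.card B0 hB0B
  have hsub : I0 ⊆ B0 := by exact_mod_cast hsub'
  have hlt : I0.card < r := by
    refine lt_of_le_of_ne ((Finset.card_le_card hsub).trans hB0c.le) fun h => ?_
    have : I0 = B0 := Finset.eq_of_subset_of_card_le hsub (by rw [hB0c, h])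
    exact hnb B0 hB0B (this ▸ hI0W)
  obtain ⟨I1, hI01, hI1B, hI1c⟩ := Finset.exists_subsuperset_card_eq hsub
    (show I0.card ≤ r - 1 by omega) (show r - 1 ≤ B0.card by omega)
  have hI1i : indep B I1 := ⟨B0, hB0B, hI1B⟩
  have hdep : ∀ x ∈ insert g X, x ∉ I0 → ¬ indep B (insert x I0) := by
    intro x hx hx0 hind
    have h1 := hI0.insert_dep (e := x) ⟨by exact_mod_cast hx, by exact_mod_cast hx0⟩
    apply h1.not_indep
    rw [← Finset.coe_insert, hI]
    exact hind
  have hnot1 : ∀ x ∈ insert g X, x ∉ I0 → x ∉ I1 := by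
    intro x hx hx0 hx1
    exact hdep x hx hx0 (expl_indep_subset hI1i (Finset.insert_subset hx1 hI01))
  have hnotB : ∀ x ∈ insert g X, x ∉ I0 → insert x I1 ∉ B := by
    intro x hx hx0 hxB
    exact hdep x hx hx0 ⟨_, hxB, Finset.insert_subset_insert x hI01⟩
  obtain ⟨u, v, hu, hv, huv⟩ : ∃ u v, u ∈ insert g X \ I0 ∧ v ∈ insert g X \ I0 ∧ u ≠ v := by
    rw [← Finset.one_lt_card_iff]
    have := Finset.card_sdiff_add_card_eq_card hI0W
    omega
  rw [Finset.mem_sdiff] at hu hv
  obtain ⟨huW, hu0⟩ := hu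
  obtain ⟨hvW, hv0⟩ := hv
  have hu1 := hnot1 u huW hu0
  have hv1 := hnot1 v hvW hv0
  have hcl0 : ((insert g X : Finset (Fin n)) : Set (Fin n)) ⊆ M.closure (I0 : Set (Fin n)) :=
    hI0.subset_closure
  refine ⟨univ.filter (fun x => x ∈ I1 ∨ insert x I1 ∉ B), ?_, ?_⟩
  · unfold relH
    rw [Finset.mem_filter]
    refine ⟨Finset.mem_univ _, I1, insert u (insert v I1), ?_, ?_, by omega, ?_, hI1i, ?_, ?_⟩
    · exact (Finset.subset_insert _ _).trans (Finset.subset_insert _ _)
    · intro x hx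
      rw [Finset.mem_filter]
      refine ⟨Finset.mem_univ _, ?_⟩
      rcases Finset.mem_insert.1 hx with rfl | hx
      · exact Or.inr (hnotB _ huW hu0)
      rcases Finset.mem_insert.1 hx with rfl | hx
      · exact Or.inr (hnotB _ hvW hv0)
      · exact Or.inl hx
    · rw [Finset.card_insert_of_notMem, Finset.card_insert_of_notMem hv1]
      · omega
      · rw [Finset.mem_insert]
        push Not
        exact ⟨huv, hu1⟩
    · intro x
      rw [Finset.mem_filter]
      simp
    · intro Γ hΓ hΓl hΓc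
      have hΓM := (circ_iff hB hE hM Γ).2 hΓc
      have hclaim : ∀ x ∈ Γ, x ∈ I1 → x ∈ I0 := by
        intro x hx hx1
        by_contra hx0
        have h1 := hΓM.mem_closure_sdiff_singleton_of_mem (e := x) (by exact_mod_cast hx)
        have h2 : ((Γ : Set (Fin n)) \ {x}) ⊆ M.closure ((I1 : Set (Fin n)) \ {x}) := by
          intro y hy
          have hyZ := hΓ (by exact_mod_cast hy.1 : y ∈ Γ)
          have hyx : y ≠ x := hy.2
          have h0sub : (I0 : Set (Fin n)) ⊆ (I1 : Set (Fin n)) \ {x} := by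
            intro z hz
            have hz' : z ∈ I0 := by exact_mod_cast hz
            refine ⟨by exact_mod_cast hI01 hz', ?_⟩
            rintro rfl
            exact hx0 hz'
          have hmono := M.closure_subset_closure h0sub
          rcases Finset.mem_insert.1 hyZ with rfl | hyZ
          · exact hmono (hcl0 (by exact_mod_cast huW))
          rcases Finset.mem_insert.1 hyZ with rfl | hyZ
          · exact hmono (hcl0 (by exact_mod_cast hvW))
          · exact M.mem_closure_of_mem ⟨by exact_mod_cast hyZ, hyx⟩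
              (by rw [hE]; exact Set.subset_univ _)
        have h3 := M.closure_subset_closure_of_subset_closure h2 h1
        exact ((hI I1).2 hI1i).notMem_closure_sdiff_of_mem (e := x) (by exact_mod_cast hx1) h3
      refine hns Γ ?_ hΓl hΓc
      intro x hx
      rcases Finset.mem_insert.1 (hΓ hx) with rfl | hx'
      · exact huW
      rcases Finset.mem_insert.1 hx' with rfl | hx'
      · exact hvW
      · exact hI0W (hclaim x hx hx')
  · intro x hx
    rw [Finset.mem_filter]
    refine ⟨Finset.mem_univ _, ?_⟩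
    by_cases hx0 : x ∈ I0
    · exact Or.inl (hI01 hx0)
    · exact Or.inr (hnotB x (Finset.mem_insert_of_mem hx) hx0)


theorem explained {n r l : ℕ} {B : Fam n} (hB : IsBF r B) {X : Finset (Fin n)}
    (hX : X.card = r) (hXB : X ∉ B) (hQ : ¬ Q (info l r B) X) {f g : Fin n} (hf : f ∈ X)
    (hg : g ∉ X) (hY : insert g (X.erase f) ∉ B) :
    (∃ Γ ∈ shortC l B, g ∈ Γ ∧ Γ ⊆ insert g X) ∨
      (∃ Γ ∈ shortC l (dualF B), f ∈ Γ ∧ Γ ⊆ insert f Xᶜ) := by
  classical
  have hshort : ∀ (B' : Fam n) (W : Finset (Fin n)),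
      (¬ ∀ Γ ⊆ W, Γ.card ≤ l → ¬ circ B' Γ) → ∃ Γ ∈ shortC l B', Γ ⊆ W := by
    intro B' W h
    push Not at h
    obtain ⟨Γ, hΓ, hl, hc⟩ := h
    exact ⟨Γ, by unfold shortC; rw [Finset.mem_filter]; exact ⟨Finset.mem_univ _, hc, hl⟩, hΓ⟩
  unfold Q at hQ
  push Not at hQ
  obtain ⟨hQ1, hQ2, hQ3, hQ4⟩ := hQ
  by_cases hcase : ∃ C ∈ B, C ⊆ insert g X
  · right
    obtain ⟨C0, hC0, hC0s⟩ := hcase
    obtain ⟨M, hE, hM⟩ := toMat hB
    have hI := indep_iff hB hE hM
    have hr : 0 < r := by rw [← hX]; exact Finset.card_pos.2 ⟨f, hf⟩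
    have hXe : (X.erase f).card = r - 1 := by rw [Finset.card_erase_of_mem hf, hX]
    have hnD : ∀ D ∈ B, ¬ X.erase f ⊆ D := by
      intro D hD hXD
      have h1 : M.Indep ((X.erase f : Finset (Fin n)) : Set (Fin n)) := (hI _).2 ⟨D, hD, hXD⟩
      have h2 : ¬ M.IsBase ((X.erase f : Finset (Fin n)) : Set (Fin n)) := by
        rw [hM]
        intro h
        have := hB.card _ h
        omega
      obtain ⟨e, ⟨he1, he2⟩, he3⟩ := h1.exists_insert_of_not_isBase h2 ((hM C0).2 hC0)
      have he1' : e ∈ C0 := by exact_mod_cast he1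
      have he2' : e ∉ X.erase f := by exact_mod_cast he2
      rw [← Finset.coe_insert, hI] at he3
      obtain ⟨D', hD', hsub⟩ := he3
      have hc : (insert e (X.erase f)).card = r := by
        rw [Finset.card_insert_of_notMem he2', hXe]; omega
      have heq : insert e (X.erase f) = D' :=
        Finset.eq_of_subset_of_card_le hsub (by rw [hc, hB.card D' hD'])
      rw [← heq] at hD'
      rcases Finset.mem_insert.1 (hC0s he1') with rfl | heX
      · exact hY hD'
      · have hef : e = f := by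
          by_contra hne
          exact he2' (Finset.mem_erase.2 ⟨hne, heX⟩)
        rw [hef, Finset.insert_erase hf] at hD'
        exact hXB hD'
    have hcompl : insert f Xᶜ = (X.erase f)ᶜ := by
      ext x
      simp only [Finset.mem_insert, Finset.mem_compl, Finset.mem_erase]
      tauto
    have hnb : ∀ C ∈ dualF B, ¬ C ⊆ insert f Xᶜ := by
      intro C hC hsub
      obtain ⟨D, hD, rfl⟩ := Finset.mem_image.1 hC
      rw [hcompl, Finset.compl_subset_compl] at hsub
      exact hnD D hD hsub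
    by_cases hs : ∀ Γ ⊆ insert f Xᶜ, Γ.card ≤ l → ¬ circ (dualF B) Γ
    · exfalso
      obtain ⟨H, hH, hXH⟩ := expl_A (dual_isBF hB) (X := Xᶜ)
        (by rw [Finset.card_compl, Fintype.card_fin, hX]) (g := f) (by simpa using hf) hnb hs
      exact hQ4 H hH hXH
    · obtain ⟨Γ, hΓ, hΓs⟩ := hshort (dualF B) _ hs
      refine ⟨Γ, hΓ, ?_, hΓs⟩
      by_contra hfΓ
      refine hQ2 Γ hΓ fun x hx => ?_
      rcases Finset.mem_insert.1 (hΓs hx) with rfl | h
      · exact absurd hx hfΓ
      · exact h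
  · left
    push Not at hcase
    by_cases hs : ∀ Γ ⊆ insert g X, Γ.card ≤ l → ¬ circ B Γ
    · exfalso
      obtain ⟨H, hH, hXH⟩ := expl_A hB hX hg hcase hs
      exact hQ3 H hH hXH
    · obtain ⟨Γ, hΓ, hΓs⟩ := hshort B _ hs
      refine ⟨Γ, hΓ, ?_, hΓs⟩
      by_contra hgΓ
      refine hQ1 Γ hΓ fun x hx => ?_
      rcases Finset.mem_insert.1 (hΓs hx) with rfl | h
      · exact absurd hx hgΓ
      · exact h

end Pool.Agent.Helper46.A.C3
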