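import Pool.Agent.Helper46.A.Bridge

set_option autoImplicit false

namespace Pool.Agent.Helper46.A.C4

open Finset

theorem rc_indep_size {n r : ℕ} {B : Fam n} (hB : IsBF r B) (S : Finset (Fin n))
    (hS : S.card = r) : indep B S ↔ S ∈ B := by
  constructor
  · rintro ⟨X, hX, hSX⟩
    have : S = X := Finset.eq_of_subset_of_card_le hSX (by rw [hB.card X hX, hS])
    rw [this]; exact hX
  · intro h
    exact ⟨S, h, Finset.Subset.refl _⟩

theorem rc_cl {n r : ℕ} {B : Fam n} (hB : IsBF r B) {M : Matroid (Fin n)} (hE : M.E = Set.univ)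
    (hM : ∀ X : Finset (Fin n), M.IsBase (X : Set (Fin n)) ↔ X ∈ B) (J : Finset (Fin n))
    (hJ : indep B J) (hc : J.card + 1 = r) (x : Fin n) :
    x ∈ M.closure (J : Set (Fin n)) ↔ (x ∈ J ∨ insert x J ∉ B) := by
  classical
  have hJM := (indep_iff hB hE hM J).2 hJ
  rw [hJM.mem_closure_iff']
  rw [← Finset.coe_insert, indep_iff hB hE hM, hE]
  by_cases hx : x ∈ J
  · simp [hx]
  · have : (insert x J).card = r := by rw [Finset.card_insert_of_notMem hx, hc]
    rw [rc_indep_size hB _ this]
    simp [hx]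

theorem rc_key {n r l : ℕ} {B : Fam n} (hB : IsBF r B) {M : Matroid (Fin n)}
    (hE : M.E = Set.univ)
    (hM : ∀ X : Finset (Fin n), M.IsBase (X : Set (Fin n)) ↔ X ∈ B) (H Z : Finset (Fin n))
    (hshort : ∀ Γ ⊆ Z, Γ.card ≤ l → ¬ circ B Γ) (J : Finset (Fin n)) (e : Fin n)
    (hJ : indep B J) (hJH : M.closure (J : Set (Fin n)) = H) (heJ : e ∉ J) (heH : e ∈ H)
    (hZ : insert e J ⊆ Z) :
    ∃ C : Finset (Fin n), C ⊆ insert e J ∧ l < C.card ∧ ∀ y ∈ C,
      indep B ((insert e J).erase y) ∧
        M.closure (((insert e J).erase y : Finset (Fin n)) : Set (Fin n)) = H := by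
  classical
  have hJM := (indep_iff hB hE hM J).2 hJ
  have hecl : e ∈ M.closure (J : Set (Fin n)) := by rw [hJH]; exact_mod_cast heH
  have heJ' : e ∉ (J : Set (Fin n)) := by exact_mod_cast heJ
  have hcirc := hJM.fundCircuit_isCircuit hecl heJ'
  obtain ⟨C, hC⟩ : ∃ C : Finset (Fin n), (C : Set (Fin n)) = M.fundCircuit e J :=
    ⟨(M.fundCircuit e J).toFinite.toFinset, by simp⟩
  rw [← hC] at hcirc
  have hsub : C ⊆ insert e J := by
    have := M.fundCircuit_subset_insert e (J : Set (Fin n))
    rw [← hC] at this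
    exact_mod_cast this
  refine ⟨C, hsub, ?_, ?_⟩
  · by_contra hcon
    push Not at hcon
    exact hshort C (hsub.trans hZ) hcon ((circ_iff hB hE hM C).1 hcirc)
  · intro y hy
    have hy' : y ∈ (C : Set (Fin n)) := by exact_mod_cast hy
    have hy2 : y ∈ M.fundCircuit e J := by rw [← hC]; exact hy'
    have h1 := (hJM.mem_fundCircuit_iff hecl heJ').1 hy2
    constructor
    · rw [← indep_iff hB hE hM]
      rw [Finset.coe_erase, Finset.coe_insert]
      exact h1
    · rw [Finset.coe_erase, Finset.coe_insert]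
      have h2 := hcirc.mem_closure_sdiff_singleton_of_mem hy'
      have h3 : (C : Set (Fin n)) \ {y} ⊆ insert e (J : Set (Fin n)) \ {y} := by
        apply Set.diff_subset_diff_left
        exact_mod_cast hsub
      have h4 := M.closure_subset_closure h3 h2
      have h5 := M.closure_insert_eq_of_mem_closure h4
      have h6 : insert y (insert e (J : Set (Fin n)) \ {y}) = insert e (J : Set (Fin n)) := by
        rw [Set.insert_diff_singleton]
        apply Set.insert_eq_of_mem
        have : y ∈ insert e J := hsub hy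
        exact_mod_cast this
      rw [h6, M.closure_insert_eq_of_mem_closure hecl] at h5
      rw [← h5, hJH]

open Classical in
/-- independent sets of size `r - 1` with closure `H` -/
noncomputable def rc_P {n : ℕ} (M : Matroid (Fin n)) (r : ℕ) (B : Fam n) (H : Finset (Fin n)) :
    Fam n :=
  (powersetCard (r - 1) univ).filter (fun J => indep B J ∧ M.closure (J : Set (Fin n)) = H)

theorem rc_lower {n r l : ℕ} {B : Fam n} (hB : IsBF r B) {M : Matroid (Fin n)}
    (hE : M.E = Set.univ)
    (hM : ∀ X : Finset (Fin n), M.IsBase (X : Set (Fin n)) ↔ X ∈ B) (H : Finset (Fin n))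
    (hH : H ∈ relH l r B) : l ^ 2 ≤ 2 * (rc_P M r B H).card := by
  classical
  unfold relH at hH
  rw [Finset.mem_filter] at hH
  obtain ⟨-, I, Z, hIZ, hZH, hIr, hZr, hI, hHI, hshort⟩ := hH
  have hcl : M.closure (I : Set (Fin n)) = H := by
    ext x
    rw [rc_cl hB hE hM I hI hIr, ← hHI]
    simp
  -- elements a, b
  have h2 : (Z \ I).card = 2 := by rw [Finset.card_sdiff_of_subset hIZ]; omega
  obtain ⟨a, b, hab, hZI⟩ := Finset.card_eq_two.1 h2
  have haZ : a ∈ Z \ I := by rw [hZI]; simp
  have hbZ : b ∈ Z \ I := by rw [hZI]; simp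
  rw [Finset.mem_sdiff] at haZ hbZ
  have hZe : Z = insert b (insert a I) := by
    ext x
    have := Finset.ext_iff.1 hZI x
    simp only [Finset.mem_sdiff, Finset.mem_insert, Finset.mem_singleton] at this ⊢
    by_cases hx : x ∈ I
    · have := hIZ hx
      simp [hx, this]
    · tauto
  obtain ⟨C, hC1, hC2, hC3⟩ := rc_key hB hE hM H Z hshort I a hI hcl haZ.2 (hZH haZ.1)
    (by rw [hZe]; exact Finset.subset_insert _ _)
  have hba : b ∉ insert a I := by
    rw [Finset.mem_insert]; push Not; exact ⟨hab.symm, hbZ.2⟩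
  -- for x in C
  have hY : ∀ x : Fin n, ∃ Y : Finset (Fin n), x ∈ C →
      Y ⊆ insert b ((insert a I).erase x) ∧ l < Y.card ∧ ∀ y ∈ Y,
        indep B ((insert b ((insert a I).erase x)).erase y) ∧
        M.closure (((insert b ((insert a I).erase x)).erase y : Finset (Fin n)) : Set (Fin n))
          = H := by
    intro x
    by_cases hx : x ∈ C
    · obtain ⟨Y, h1, h2, h3⟩ := rc_key hB hE hM H Z hshort ((insert a I).erase x) b (hC3 x hx).1
        (hC3 x hx).2 (fun h => hba (Finset.mem_of_mem_erase h)) (hZH hbZ.1)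
        (by rw [hZe]; exact Finset.insert_subset_insert _ (Finset.erase_subset _ _))
      exact ⟨Y, fun _ => ⟨h1, h2, h3⟩⟩
    · exact ⟨∅, fun h => absurd h hx⟩
  choose Y hY using hY
  -- the set of pairs
  let T : Finset (Σ _ : Fin n, Fin n) := C.sigma Y
  have hT : l ^ 2 ≤ T.card := by
    rw [Finset.card_sigma]
    calc l ^ 2 = l * l := by ring
      _ ≤ C.card * l := Nat.mul_le_mul_right _ hC2.le
      _ = ∑ _x ∈ C, l := by rw [Finset.sum_const, smul_eq_mul]
      _ ≤ ∑ x ∈ C, (Y x).card := Finset.sum_le_sum fun x hx => (hY x hx).2.1.le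
  have hset : ∀ p ∈ T, (insert b ((insert a I).erase p.1)).erase p.2 = Z \ {p.1, p.2} ∧
      p.1 ∈ Z ∧ p.2 ∈ Z ∧ p.1 ≠ p.2 := by
    intro p hp
    rw [Finset.mem_sigma] at hp
    obtain ⟨hp1, hp2⟩ := hp
    have h1 : p.1 ∈ insert a I := hC1 hp1
    have h2 : p.2 ∈ insert b ((insert a I).erase p.1) := (hY p.1 hp1).1 hp2
    have hb1 : b ≠ p.1 := fun h => hba (h ▸ h1)
    refine ⟨?_, ?_, ?_, ?_⟩
    · rw [hZe]
      ext x
      simp only [Finset.mem_erase, Finset.mem_insert, Finset.mem_sdiff, Finset.mem_singleton]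
      constructor
      · rintro ⟨h3, h4 | ⟨h4, h5⟩⟩
        · exact ⟨Or.inl h4, by rintro (h | h); exacts [hb1 (h4 ▸ h), h3 h]⟩
        · exact ⟨Or.inr h5, by rintro (h | h); exacts [h4 h, h3 h]⟩
      · rintro ⟨h3, h4⟩
        refine ⟨fun h => h4 (Or.inr h), ?_⟩
        rcases h3 with h3 | h3
        · exact Or.inl h3
        · exact Or.inr ⟨fun h => h4 (Or.inl h), h3⟩
    · rw [hZe]; exact Finset.mem_insert_of_mem h1
    · rw [hZe]
      rw [Finset.mem_insert, Finset.mem_erase] at h2
      rw [Finset.mem_insert]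
      exact h2.imp id (fun h => h.2)
    · intro h
      rw [← h, Finset.mem_insert, Finset.mem_erase] at h2
      rcases h2 with h2 | h2
      · exact hb1 h2.symm
      · exact h2.1 rfl
  refine hT.trans ?_
  refine Finset.card_le_mul_card_image_of_maps_to
    (f := fun p : (Σ _ : Fin n, Fin n) => Z \ {p.1, p.2}) ?_ 2 ?_
  · intro p hp
    obtain ⟨h1, h2, h3, h4⟩ := hset p hp
    have hp' := hp
    rw [Finset.mem_sigma] at hp'
    have h5 := (hY p.1 hp'.1).2.2 p.2 hp'.2
    rw [h1] at h5
    show Z \ {p.1, p.2} ∈ rc_P M r B H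
    unfold rc_P
    rw [Finset.mem_filter, Finset.mem_powersetCard]
    refine ⟨⟨Finset.subset_univ _, ?_⟩, h5⟩
    rw [Finset.card_sdiff_of_subset, Finset.card_pair h4]
    · omega
    · intro x hx
      rw [Finset.mem_insert, Finset.mem_singleton] at hx
      rcases hx with rfl | rfl
      · exact h2
      · exact h3
  · intro K _
    by_contra hcon
    push Not at hcon
    obtain ⟨p0, hp0⟩ := Finset.card_pos.1 (by omega :
      0 < (T.filter (fun p : (Σ _ : Fin n, Fin n) => Z \ {p.1, p.2} = K)).card)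
    have hsub : T.filter (fun p : (Σ _ : Fin n, Fin n) => Z \ {p.1, p.2} = K) ⊆
        {⟨p0.1, p0.2⟩, ⟨p0.2, p0.1⟩} := by
      intro p hp
      rw [Finset.mem_filter] at hp hp0
      obtain ⟨-, h2, h3, h4⟩ := hset p hp.1
      obtain ⟨-, h2', h3', h4'⟩ := hset p0 hp0.1
      have e1 : ({p.1, p.2} : Finset (Fin n)) = {p0.1, p0.2} := by
        have e2 : Z \ {p.1, p.2} = Z \ {p0.1, p0.2} := by rw [hp.2, hp0.2]
        ext x
        have := Finset.ext_iff.1 e2 x
        simp only [Finset.mem_sdiff, Finset.mem_insert, Finset.mem_singleton] at this ⊢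
        constructor
        · intro h
          by_contra h'
          have hx : x ∈ Z := by rcases h with rfl | rfl <;> assumption
          exact (this.2 ⟨hx, h'⟩).2 h
        · intro h
          by_contra h'
          have hx : x ∈ Z := by rcases h with rfl | rfl <;> assumption
          exact (this.1 ⟨hx, h'⟩).2 h
      have m1 : p.1 ∈ ({p0.1, p0.2} : Finset (Fin n)) := by rw [← e1]; simp
      have m2 : p.2 ∈ ({p0.1, p0.2} : Finset (Fin n)) := by rw [← e1]; simp
      rw [Finset.mem_insert, Finset.mem_singleton] at m1 m2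
      rw [Finset.mem_insert, Finset.mem_singleton]
      obtain ⟨p1, p2⟩ := p
      simp only at m1 m2 h4 ⊢
      rcases m1 with m1 | m1
      · rcases m2 with m2 | m2
        · exact absurd (m1.trans m2.symm) h4
        · left; rw [m1, m2]
      · rcases m2 with m2 | m2
        · right; rw [m1, m2]
        · exact absurd (m1.trans m2.symm) h4
    have := Finset.card_le_card hsub
    have h3 := Finset.card_le_two (a := (⟨p0.1, p0.2⟩ : (Σ _ : Fin n, Fin n)))
      (b := ⟨p0.2, p0.1⟩)
    omega

theorem relH_card {n r l : ℕ} {B : Fam n} (hB : IsBF r B) :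
    (relH l r B).card * l ^ 2 ≤ 2 * n.choose (r - 1) := by
  classical
  obtain ⟨M, hE, hM⟩ := toMat hB
  have h1 : ∑ H ∈ relH l r B, (rc_P M r B H).card ≤ n.choose (r - 1) := by
    have h2 : ((relH l r B : Finset (Finset (Fin n))) : Set (Finset (Fin n))).PairwiseDisjoint
        (rc_P M r B) := by
      intro H1 _ H2 _ hne
      refine Finset.disjoint_left.2 fun J hJ1 hJ2 => hne ?_
      unfold rc_P at hJ1 hJ2
      rw [Finset.mem_filter] at hJ1 hJ2
      have := hJ1.2.2.symm.trans hJ2.2.2
      exact_mod_cast this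
    rw [← Finset.card_biUnion h2]
    calc _ ≤ (powersetCard (r - 1) (univ : Finset (Fin n))).card := by
          apply Finset.card_le_card
          intro J hJ
          rw [Finset.mem_biUnion] at hJ
          obtain ⟨H, _, hJ⟩ := hJ
          unfold rc_P at hJ
          exact (Finset.mem_filter.1 hJ).1
      _ = _ := by rw [Finset.card_powersetCard, Finset.card_univ, Fintype.card_fin]
  calc (relH l r B).card * l ^ 2 = ∑ _H ∈ relH l r B, l ^ 2 := by
        rw [Finset.sum_const, smul_eq_mul]
    _ ≤ ∑ H ∈ relH l r B, 2 * (rc_P M r B H).card :=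
        Finset.sum_le_sum fun H hH => rc_lower hB hE hM H hH
    _ = 2 * ∑ H ∈ relH l r B, (rc_P M r B H).card := by rw [Finset.mul_sum]
    _ ≤ 2 * n.choose (r - 1) := Nat.mul_le_mul_left _ h1

end Pool.Agent.Helper46.A.C4
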