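import Pool.Agent.Helper46.A.Bridge

set_option autoImplicit false

namespace Pool.Agent.Helper46.A.C5

open Finset

theorem relax {n r : ℕ} {B : Fam n} (hB : IsBF r B) (W : Fam n)
    (h1 : ∀ X ∈ W, X.card = r) (h2 : ∀ X ∈ W, ∀ x ∈ X, indep B {x})
    (h3 : ∀ X ∈ W, ∀ x, x ∉ X → ∃ Y ∈ B, x ∉ Y)
    (h4 : ∀ X ∈ W, ∀ f ∈ X, ∀ g, g ∉ X →
      (insert g (X.erase f) ∈ B ∨ ¬ indep B {g} ∨ ∀ Y ∈ B, f ∈ Y)) :
    IsBF r (B ∪ W) := by
  classical
  have hcard : ∀ X ∈ B ∪ W, X.card = r := by
    intro X hX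
    rcases Finset.mem_union.1 hX with h | h
    · exact hB.card X h
    · exact h1 X h
  have hloop : ∀ X ∈ B ∪ W, ∀ x ∈ X, indep B {x} := by
    intro X hX x hx
    rcases Finset.mem_union.1 hX with h | h
    · exact ⟨X, h, Finset.singleton_subset_iff.2 hx⟩
    · exact h2 X h x hx
  have hcol : ∀ X ∈ B ∪ W, ∀ x, x ∉ X → ∃ Y ∈ B, x ∉ Y := by
    intro X hX x hx
    rcases Finset.mem_union.1 hX with h | h
    · exact ⟨X, h, hx⟩
    · exact h3 X h x hx
  have h4' : ∀ X ∈ W, ∀ f ∈ X, ∀ g, g ∉ X → indep B {g} → (∃ Y ∈ B, f ∉ Y) →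
      insert g (X.erase f) ∈ B := by
    intro X hX f hf g hg hi hY
    rcases h4 X hX f hf g hg with h | h | h
    · exact h
    · exact absurd hi h
    · obtain ⟨Y, hY1, hY2⟩ := hY
      exact absurd (h Y hY1) hY2
  refine ⟨?_, hcard, ?_⟩
  · obtain ⟨X, hX⟩ := hB.ne
    exact ⟨X, Finset.mem_union_left _ hX⟩
  · intro B1 hB1 B2 hB2 x hx
    obtain ⟨hx1, hx2⟩ := Finset.mem_sdiff.1 hx
    have hsd : (B1 \ B2).card = (B2 \ B1).card :=
      Finset.card_sdiff_comm ((hcard B1 hB1).trans (hcard B2 hB2).symm)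
    have hpos : 0 < (B1 \ B2).card := Finset.card_pos.2 ⟨x, hx⟩
    rcases Finset.mem_union.1 hB1 with hb1 | hb1
    · rcases Finset.mem_union.1 hB2 with hb2 | hb2
      · obtain ⟨y, hy, hyB⟩ := hB.exch B1 hb1 B2 hb2 x hx
        exact ⟨y, hy, Finset.mem_union_left _ hyB⟩
      · by_cases hone : (B1 \ B2).card = 1
        · obtain ⟨y, hy⟩ := Finset.card_eq_one.1 (hsd ▸ hone)
          obtain ⟨x0, hx0⟩ := Finset.card_eq_one.1 hone
          have hxx : x = x0 := by
            rw [hx0] at hx
            exact Finset.mem_singleton.1 hx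
          have hyy : y ∈ B2 \ B1 := by rw [hy]; exact Finset.mem_singleton_self y
          refine ⟨y, hyy, Finset.mem_union_right _ ?_⟩
          have heq : insert y (B1.erase x) = B2 := by
            ext z
            rw [Finset.mem_insert, Finset.mem_erase]
            constructor
            · rintro (h | ⟨h, h'⟩)
              · rw [h]
                exact (Finset.mem_sdiff.1 hyy).1
              · by_contra hz
                have : z ∈ B1 \ B2 := Finset.mem_sdiff.2 ⟨h', hz⟩
                rw [hx0, Finset.mem_singleton] at this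
                exact h (this.trans hxx.symm)
            · intro hz
              by_cases hz1 : z ∈ B1
              · refine Or.inr ⟨?_, hz1⟩
                rintro rfl
                exact hx2 hz
              · left
                have : z ∈ B2 \ B1 := Finset.mem_sdiff.2 ⟨hz, hz1⟩
                rw [hy] at this
                exact Finset.mem_singleton.1 this
          rw [heq]
          exact hb2
        · have h2c : 1 < (B1 \ B2).card := by omega
          obtain ⟨x', hx', hne⟩ := Finset.exists_mem_ne h2c x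
          obtain ⟨hx'1, hx'2⟩ := Finset.mem_sdiff.1 hx'
          obtain ⟨z, hz⟩ := Finset.card_pos.1 (hsd ▸ hpos)
          obtain ⟨hz1, hz2⟩ := Finset.mem_sdiff.1 hz
          have hB2' := h4' B2 hb2 z hz1 x' hx'2 (hloop B1 hB1 x' hx'1) ⟨B1, hb1, hz2⟩
          have hxn : x ∈ B1 \ insert x' (B2.erase z) := by
            rw [Finset.mem_sdiff, Finset.mem_insert, Finset.mem_erase]
            refine ⟨hx1, ?_⟩
            rintro (h | h)
            · exact hne h.symm
            · exact hx2 h.2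
          obtain ⟨y, hy, hyB⟩ := hB.exch B1 hb1 _ hB2' x hxn
          obtain ⟨hy1, hy2⟩ := Finset.mem_sdiff.1 hy
          refine ⟨y, Finset.mem_sdiff.2 ⟨?_, hy2⟩, Finset.mem_union_left _ hyB⟩
          rcases Finset.mem_insert.1 hy1 with h | h
          · exact absurd (h ▸ hx'1) hy2
          · exact (Finset.mem_erase.1 h).2
    · obtain ⟨y, hy⟩ := Finset.card_pos.1 (hsd ▸ hpos)
      obtain ⟨hy1, hy2⟩ := Finset.mem_sdiff.1 hy
      exact ⟨y, hy, Finset.mem_union_left _
        (h4' B1 hb1 x hx1 y hy2 (hloop B2 hB2 y hy1) (hcol B2 hB2 x hx2))⟩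

end Pool.Agent.Helper46.A.C5
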