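import Pool.Agent.Helper46.A.Bridge

set_option autoImplicit false

namespace Pool.Agent.Helper46.A.C6

open Finset

theorem info_auxA (n l : ℕ) :
    ((univ : Finset (Finset (Fin n))).filter (fun Γ => Γ.card ≤ l)).card ≤
      ∑ i ∈ range (l + 1), n.choose i := by
  classical
  have h1 : (univ : Finset (Finset (Fin n))).filter (fun Γ => Γ.card ≤ l) ⊆
      (range (l + 1)).biUnion (fun i => powersetCard i (univ : Finset (Fin n))) := by
    intro Γ hΓ
    rw [mem_filter] at hΓ
    rw [mem_biUnion]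
    exact ⟨Γ.card, mem_range.2 (by omega), mem_powersetCard.2 ⟨subset_univ _, rfl⟩⟩
  refine (card_le_card h1).trans (card_biUnion_le.trans ?_)
  apply le_of_eq
  apply sum_congr rfl
  intro i _
  rw [card_powersetCard, card_univ, Fintype.card_fin]

theorem info_auxC (n J : ℕ) :
    ((univ : Finset (Fam n)).filter (fun F => F.card ≤ J)).card ≤ SB n J := by
  classical
  have h1 : (univ : Finset (Fam n)).filter (fun F => F.card ≤ J) ⊆
      (range (J + 1)).biUnion (fun i => powersetCard i (univ : Finset (Finset (Fin n)))) := by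
    intro Γ hΓ
    rw [mem_filter] at hΓ
    rw [mem_biUnion]
    exact ⟨Γ.card, mem_range.2 (by omega), mem_powersetCard.2 ⟨subset_univ _, rfl⟩⟩
  refine (card_le_card h1).trans (card_biUnion_le.trans ?_)
  unfold SB
  apply le_of_eq
  apply sum_congr rfl
  intro i _
  rw [card_powersetCard, card_univ, Fintype.card_finset, Fintype.card_fin]

theorem info_auxR {n l : ℕ} (hl : 1 ≤ l)
    (hrel : ∀ (s : ℕ) (B : Fam n), IsBF s B → (relH l s B).card * l ^ 2 ≤ 2 * n.choose (s - 1))
    (s : ℕ) (B : Fam n) (hB : IsBF s B) :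
    relH l s B ∈ (univ : Finset (Fam n)).filter (fun F => F.card ≤ 2 * n.choose (n / 2) / l ^ 2) := by
  rw [mem_filter]
  refine ⟨mem_univ _, ?_⟩
  rw [Nat.le_div_iff_mul_le (by positivity)]
  exact (hrel s B hB).trans (Nat.mul_le_mul_left 2 (Nat.choose_le_middle _ _))

theorem info_auxS {n : ℕ} (l : ℕ) (B : Fam n) :
    shortC l B ∈ ((univ : Finset (Finset (Fin n))).filter (fun Γ => Γ.card ≤ l)).powerset := by
  classical
  rw [mem_powerset]
  intro Γ hΓ
  unfold shortC at hΓ
  rw [mem_filter] at hΓ ⊢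
  exact ⟨mem_univ _, hΓ.2.2⟩

theorem info_card {n l : ℕ} (hl : 1 ≤ l) (r : ℕ)
    (hrel : ∀ (s : ℕ) (B : Fam n), IsBF s B → (relH l s B).card * l ^ 2 ≤ 2 * n.choose (s - 1)) :
    ((BF n r).image (info l r)).card ≤
      (2 ^ (∑ i ∈ range (l + 1), n.choose i)) ^ 2 * (SB n (2 * n.choose (n / 2) / l ^ 2)) ^ 2 := by
  classical
  set A : Finset (Fam n) :=
    ((univ : Finset (Finset (Fin n))).filter (fun Γ => Γ.card ≤ l)).powerset with hA
  set C : Finset (Fam n) :=
    (univ : Finset (Fam n)).filter (fun F => F.card ≤ 2 * n.choose (n / 2) / l ^ 2) with hC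
  have hAc : A.card ≤ 2 ^ (∑ i ∈ range (l + 1), n.choose i) := by
    rw [hA, card_powerset]
    exact Nat.pow_le_pow_right (by norm_num) (info_auxA n l)
  have hCc : C.card ≤ SB n (2 * n.choose (n / 2) / l ^ 2) := info_auxC n _
  have hsub : (BF n r).image (info l r) ⊆ A ×ˢ A ×ˢ C ×ˢ C := by
    intro I hI
    obtain ⟨B, hB, rfl⟩ := mem_image.1 hI
    unfold BF at hB
    have hB' : IsBF r B := (mem_filter.1 hB).2
    unfold info
    rw [mem_product, mem_product, mem_product]
    exact ⟨info_auxS l B, info_auxS l (dualF B), info_auxR hl hrel r B hB',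
      info_auxR hl hrel (n - r) (dualF B) (dual_isBF hB')⟩
  refine (card_le_card hsub).trans ?_
  rw [card_product, card_product, card_product]
  calc A.card * (A.card * (C.card * C.card))
      ≤ 2 ^ (∑ i ∈ range (l + 1), n.choose i) * (2 ^ (∑ i ∈ range (l + 1), n.choose i) *
          (SB n (2 * n.choose (n / 2) / l ^ 2) * SB n (2 * n.choose (n / 2) / l ^ 2))) :=
        Nat.mul_le_mul hAc (Nat.mul_le_mul hAc (Nat.mul_le_mul hCc hCc))
    _ = _ := by ring

end Pool.Agent.Helper46.A.C6
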