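import Pool.Agent.Helper46.A.Bridge

set_option autoImplicit false

namespace Pool.Agent.Helper46.A.D1

open Finset

theorem sg_relax {n r l : ℕ} (hl : 1 ≤ l) {B : Fam n} (hB : IsBF r B)
    (hQ : ∀ X : Finset (Fin n), X.card = r → Q (info l r B) X → X ∉ B)
    (hex : ∀ X : Finset (Fin n), X.card = r → X ∉ B → ¬ Q (info l r B) X → ∀ f ∈ X, ∀ g, g ∉ X →
      insert g (X.erase f) ∉ B →
      (∃ Γ ∈ shortC l B, g ∈ Γ ∧ Γ ⊆ insert g X) ∨
        (∃ Γ ∈ shortC l (dualF B), f ∈ Γ ∧ Γ ⊆ insert f Xᶜ))
    {X : Finset (Fin n)} (hX : X ∈ sg l r B) :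
    X.card = r ∧ X ∉ B ∧ (∀ x ∈ X, indep B {x}) ∧ (∀ x, x ∉ X → ∃ Y ∈ B, x ∉ Y) ∧
    ∀ f ∈ X, ∀ g, g ∉ X →
      (insert g (X.erase f) ∈ B ∨ ¬ indep B {g} ∨ ∀ Y ∈ B, f ∈ Y) := by
  classical
  unfold sg UU at hX
  rw [mem_filter, mem_filter, mem_powersetCard] at hX
  obtain ⟨⟨⟨_, hcard⟩, hXB, hKn⟩, hsing⟩ := hX
  have hQX : ¬ Q (info l r B) X := fun h => hKn ⟨X, h, Relation.EqvGen.refl X⟩
  have hcirc : ∀ (F : Fam n) (x : Fin n), F.Nonempty → ¬ indep F {x} → {x} ∈ shortC l F := by
    intro F x hF hx
    unfold shortC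
    rw [mem_filter]
    refine ⟨mem_univ _, ⟨hx, fun y hy => ?_⟩, by rw [card_singleton]; exact hl⟩
    obtain ⟨Z, hZ⟩ := hF
    refine ⟨Z, hZ, ?_⟩
    rw [mem_singleton] at hy
    rw [hy, erase_singleton]
    exact empty_subset _
  have hdne : (dualF B).Nonempty := by
    unfold dualF
    exact hB.ne.image _
  have hdual : ∀ x, (∀ Y ∈ B, x ∈ Y) ↔ ¬ indep (dualF B) {x} := by
    intro x
    constructor
    · rintro h ⟨Z, hZ, hxZ⟩
      unfold dualF at hZ
      rw [mem_image] at hZ
      obtain ⟨Y, hY, rfl⟩ := hZ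
      have := hxZ (mem_singleton_self x)
      rw [mem_compl] at this
      exact this (h Y hY)
    · intro h Y hY
      by_contra hxY
      apply h
      refine ⟨Yᶜ, ?_, ?_⟩
      · unfold dualF
        exact mem_image_of_mem _ hY
      · rw [singleton_subset_iff, mem_compl]
        exact hxY
  refine ⟨hcard, hXB, ?_, ?_, ?_⟩
  · intro x hx
    by_contra hdep
    exact hQX (Or.inl ⟨{x}, hcirc B x hB.ne hdep, singleton_subset_iff.2 hx⟩)
  · intro x hx
    by_contra hcon
    push Not at hcon
    have h1 := (hdual x).1 hcon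
    refine hQX (Or.inr (Or.inl ⟨{x}, hcirc (dualF B) x hdne h1, ?_⟩))
    rw [singleton_subset_iff, mem_compl]
    exact hx
  · intro f hf g hg
    by_cases hin : insert g (X.erase f) ∈ B
    · exact Or.inl hin
    · right
      rcases hex X hcard hXB hQX f hf g hg hin with ⟨Γ, hΓ, hgΓ, hΓX⟩ | ⟨Γ, hΓ, hfΓ, hΓX⟩
      · left
        by_cases hone : Γ = {g}
        · have h1 := hΓ
          unfold shortC at h1
          rw [mem_filter] at h1
          rw [hone] at h1
          exact h1.2.1.1
        · exfalso
          have h1 : ∃ h ∈ Γ, h ≠ g := by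
            by_contra hcon
            push Not at hcon
            apply hone
            ext y
            rw [mem_singleton]
            constructor
            · exact hcon y
            · rintro rfl; exact hgΓ
          obtain ⟨h, hhΓ, hne⟩ := h1
          have hhX : h ∈ X := by
            rcases mem_insert.1 (hΓX hhΓ) with h2 | h2
            · exact absurd h2 hne
            · exact h2
          have h3 : tie (info l r B) X (insert g (X.erase h)) :=
            ⟨h, hhX, g, hg, rfl, Or.inl ⟨Γ, hΓ, hhΓ, hgΓ, hΓX⟩⟩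
          have h4 := hsing _ (Relation.EqvGen.rel _ _ h3)
          apply hg
          rw [← h4]
          exact mem_insert_self _ _
      · right
        by_cases hone : Γ = {f}
        · have h1 := hΓ
          unfold shortC at h1
          rw [mem_filter] at h1
          rw [hone] at h1
          exact (hdual f).2 h1.2.1.1
        · exfalso
          have h1 : ∃ h ∈ Γ, h ≠ f := by
            by_contra hcon
            push Not at hcon
            apply hone
            ext y
            rw [mem_singleton]
            constructor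
            · exact hcon y
            · rintro rfl; exact hfΓ
          obtain ⟨h, hhΓ, hne⟩ := h1
          have hhX : h ∉ X := by
            rcases mem_insert.1 (hΓX hhΓ) with h2 | h2
            · exact absurd h2 hne
            · exact mem_compl.1 h2
          have h3 : tie (info l r B) X (insert h (X.erase f)) :=
            ⟨f, hf, h, hhX, rfl, Or.inr ⟨Γ, hΓ, hfΓ, hhΓ, hΓX⟩⟩
          have h4 := hsing _ (Relation.EqvGen.rel _ _ h3)
          apply hhX
          rw [← h4]
          exact mem_insert_self _ _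

end Pool.Agent.Helper46.A.D1
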