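import Pool.Agent.Helper46.A.Bridge

set_option autoImplicit false

namespace Pool.Agent.Helper46.A.D2

open Finset

theorem F1_tie_card {n : ℕ} {I : Info n} {X Y : Finset (Fin n)} (h : tie I X Y) :
    X.card = Y.card := by
  obtain ⟨f, hf, g, hg, rfl, _⟩ := h
  rw [Finset.card_insert_of_notMem (fun h => hg (Finset.mem_of_mem_erase h)),
    Finset.card_erase_of_mem hf]
  have := Finset.card_pos.2 ⟨f, hf⟩
  omega

theorem F1_rel_card {n : ℕ} {I : Info n} {X Y : Finset (Fin n)} (h : Rel I X Y) :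
    X.card = Y.card := by
  unfold Rel at h
  induction h with
  | rel X Y h => exact F1_tie_card h
  | refl X => rfl
  | symm X Y _ ih => exact ih.symm
  | trans X Y Z _ _ ih1 ih2 => exact ih1.trans ih2

theorem F1_rel_mem {n : ℕ} {I : Info n} {B : Fam n}
    (ht : ∀ X Y : Finset (Fin n), tie I X Y → (X ∈ B ↔ Y ∈ B))
    {X Y : Finset (Fin n)} (h : Rel I X Y) : X ∈ B ↔ Y ∈ B := by
  unfold Rel at h
  induction h with
  | rel X Y h => exact ht X Y h
  | refl X => exact Iff.rfl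
  | symm X Y _ ih => exact ih.symm
  | trans X Y Z _ _ ih1 ih2 => exact ih1.trans ih2

theorem F1_symm {n : ℕ} {I : Info n} {X Y : Finset (Fin n)} (h : Rel I X Y) : Rel I Y X :=
  Relation.EqvGen.symm _ _ h

theorem F1_trans {n : ℕ} {I : Info n} {X Y Z : Finset (Fin n)} (h : Rel I X Y)
    (h' : Rel I Y Z) : Rel I X Z :=
  Relation.EqvGen.trans _ _ _ h h'

theorem F1_refl {n : ℕ} (I : Info n) (X : Finset (Fin n)) : Rel I X X :=
  Relation.EqvGen.refl _

theorem F1_rep_rel {n : ℕ} (I : Info n) (X : Finset (Fin n)) : Rel I (rep I X) X := by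
  have h := Quotient.mk_out (s := Relation.EqvGen.setoid (tie I)) X
  exact h

theorem F1_rep_eq {n : ℕ} {I : Info n} {X Y : Finset (Fin n)} (h : Rel I X Y) :
    rep I X = rep I Y := by
  unfold rep
  have : (Quotient.mk (Relation.EqvGen.setoid (tie I)) X) =
      Quotient.mk (Relation.EqvGen.setoid (tie I)) Y := Quotient.sound h
  rw [this]

theorem F1_kn {n : ℕ} {I : Info n} {X Y : Finset (Fin n)} (h : Rel I X Y) (hk : Kn I X) :
    Kn I Y := by
  obtain ⟨Z, hZ, hr⟩ := hk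
  exact ⟨Z, hZ, F1_trans hr h⟩

theorem F1_mem_UU {n l r : ℕ} {B : Fam n} {X : Finset (Fin n)} :
    X ∈ UU l r B ↔ X.card = r ∧ X ∉ B ∧ ¬ Kn (info l r B) X := by
  classical
  unfold UU
  rw [Finset.mem_filter, Finset.mem_powersetCard]
  simp

theorem F1_UU_rel {n l r : ℕ} {B : Fam n}
    (ht : ∀ X Y : Finset (Fin n), tie (info l r B) X Y → (X ∈ B ↔ Y ∈ B))
    {X Y : Finset (Fin n)} (h : Rel (info l r B) X Y) (hX : X ∈ UU l r B) : Y ∈ UU l r B := by
  rw [F1_mem_UU] at hX ⊢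
  refine ⟨(F1_rel_card h).symm.trans hX.1, fun hY => hX.2.1 ((F1_rel_mem ht h).2 hY),
    fun hk => hX.2.2 (F1_kn (F1_symm h) hk)⟩

theorem F1_mem_B {n l r : ℕ} {B : Fam n}
    (hc : ∀ X ∈ B, X.card = r)
    (hQ : ∀ X : Finset (Fin n), X.card = r → Q (info l r B) X → X ∉ B)
    (ht : ∀ X Y : Finset (Fin n), tie (info l r B) X Y → (X ∈ B ↔ Y ∈ B))
    (X : Finset (Fin n)) :
    X ∈ B ↔ X.card = r ∧ ¬ Kn (info l r B) X ∧ X ∉ UU l r B := by
  rw [F1_mem_UU]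
  constructor
  · intro h
    refine ⟨hc X h, ?_, fun h' => h'.2.1 h⟩
    rintro ⟨Z, hZ, hr⟩
    exact hQ Z ((F1_rel_card hr).trans (hc X h)) hZ ((F1_rel_mem ht hr).2 h)
  · rintro ⟨h1, h2, h3⟩
    by_contra h4
    exact h3 ⟨h1, h4, h2⟩

open Classical in
/-- another member of the class of `X`, if there is one -/
noncomputable def F1alt {n : ℕ} (I : Info n) (X : Finset (Fin n)) : Finset (Fin n) :=
  if h : ∃ Y, Y ≠ X ∧ Rel I X Y then h.choose else X

theorem F1alt_rel {n : ℕ} (I : Info n) (X : Finset (Fin n)) : Rel I X (F1alt I X) := by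
  unfold F1alt
  split_ifs with h
  · exact h.choose_spec.2
  · exact F1_refl I X

theorem F1alt_ne {n : ℕ} (I : Info n) (X : Finset (Fin n)) (h : ∃ Y, Y ≠ X ∧ Rel I X Y) :
    F1alt I X ≠ X := by
  unfold F1alt
  rw [dif_pos h]
  exact h.choose_spec.1

open Classical in
/-- the chosen representatives -/
noncomputable def F1R {n : ℕ} (l r : ℕ) (B : Fam n) (T : Fam n) : Fam n :=
  sg l r B ∪ (nt l r B \ T) ∪ T.image (F1alt (info l r B))

theorem F1_mem_R {n l r : ℕ} {B T : Fam n} {X : Finset (Fin n)} :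
    X ∈ F1R l r B T ↔ X ∈ sg l r B ∨ (X ∈ nt l r B ∧ X ∉ T) ∨
      ∃ Z ∈ T, F1alt (info l r B) Z = X := by
  classical
  unfold F1R
  rw [Finset.mem_union, Finset.mem_union, Finset.mem_sdiff, Finset.mem_image, or_assoc]

theorem F1_mem_sg {n l r : ℕ} {B : Fam n} {X : Finset (Fin n)} :
    X ∈ sg l r B ↔ X ∈ UU l r B ∧ ∀ Y, Rel (info l r B) X Y → Y = X := by
  classical
  unfold sg
  rw [Finset.mem_filter]

theorem F1_mem_nt {n l r : ℕ} {B : Fam n} {X : Finset (Fin n)} :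
    X ∈ nt l r B ↔ X ∈ UU l r B ∧ X = rep (info l r B) X ∧
      ∃ Y, Y ≠ X ∧ Rel (info l r B) X Y := by
  classical
  unfold nt
  rw [Finset.mem_filter]

theorem F1_nt_eq {n l r : ℕ} {B : Fam n} {X Y : Finset (Fin n)} (hX : X ∈ nt l r B)
    (hY : Y ∈ nt l r B) (h : Rel (info l r B) X Y) : X = Y := by
  rw [F1_mem_nt] at hX hY
  rw [hX.2.1, hY.2.1, F1_rep_eq h]

theorem F1_R_sub {n l r : ℕ} {B T : Fam n}
    (ht : ∀ X Y : Finset (Fin n), tie (info l r B) X Y → (X ∈ B ↔ Y ∈ B))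
    (hT : T ⊆ nt l r B) {X : Finset (Fin n)} (hX : X ∈ F1R l r B T) : X ∈ UU l r B := by
  rw [F1_mem_R] at hX
  rcases hX with h | h | ⟨Z, hZ, rfl⟩
  · exact (F1_mem_sg.1 h).1
  · exact (F1_mem_nt.1 h.1).1
  · exact F1_UU_rel ht (F1alt_rel _ Z) (F1_mem_nt.1 (hT hZ)).1

theorem F1_R_eq {n l r : ℕ} {B T : Fam n} (hT : T ⊆ nt l r B) {X Y : Finset (Fin n)}
    (hX : X ∈ F1R l r B T) (hY : Y ∈ F1R l r B T) (h : Rel (info l r B) X Y) : X = Y := by
  rw [F1_mem_R] at hX hY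
  rcases hX with hX | hX | ⟨Z, hZ, rfl⟩
  · exact ((F1_mem_sg.1 hX).2 Y h).symm
  · rcases hY with hY | hY | ⟨W, hW, rfl⟩
    · exact (F1_mem_sg.1 hY).2 X (F1_symm h)
    · exact F1_nt_eq hX.1 hY.1 h
    · exfalso
      have h1 : X = W := F1_nt_eq hX.1 (hT hW) (F1_trans h (F1_symm (F1alt_rel _ W)))
      exact hX.2 (h1 ▸ hW)
  · rcases hY with hY | hY | ⟨W, hW, rfl⟩
    · exact (F1_mem_sg.1 hY).2 _ (F1_symm h)
    · exfalso
      have h1 : Z = Y := F1_nt_eq (hT hZ) hY.1 (F1_trans (F1alt_rel _ Z) h)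
      exact hY.2 (h1 ▸ hZ)
    · have h1 : Z = W := F1_nt_eq (hT hZ) (hT hW)
        (F1_trans (F1alt_rel _ Z) (F1_trans h (F1_symm (F1alt_rel _ W))))
      rw [h1]

theorem F1_UU_iff {n l r : ℕ} {B T : Fam n}
    (ht : ∀ X Y : Finset (Fin n), tie (info l r B) X Y → (X ∈ B ↔ Y ∈ B))
    (hT : T ⊆ nt l r B) (X : Finset (Fin n)) :
    X ∈ UU l r B ↔ ∃ Y ∈ F1R l r B T, Rel (info l r B) Y X := by
  constructor
  · intro hX
    by_cases hs : ∀ Y, Rel (info l r B) X Y → Y = X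
    · exact ⟨X, F1_mem_R.2 (Or.inl (F1_mem_sg.2 ⟨hX, hs⟩)), F1_refl _ X⟩
    · push Not at hs
      obtain ⟨Y, hXY, hne⟩ := hs
      have hZX : Rel (info l r B) (rep (info l r B) X) X := F1_rep_rel _ X
      have hZ : rep (info l r B) X ∈ nt l r B := by
        rw [F1_mem_nt]
        refine ⟨F1_UU_rel ht (F1_symm hZX) hX, (F1_rep_eq hZX).symm, ?_⟩
        by_cases hXZ : X = rep (info l r B) X
        · rw [← hXZ]
          exact ⟨Y, hne, hXY⟩
        · exact ⟨X, hXZ, hZX⟩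
      by_cases hZT : rep (info l r B) X ∈ T
      · exact ⟨F1alt (info l r B) (rep (info l r B) X),
          F1_mem_R.2 (Or.inr (Or.inr ⟨_, hZT, rfl⟩)),
          F1_trans (F1_symm (F1alt_rel _ _)) hZX⟩
      · exact ⟨_, F1_mem_R.2 (Or.inr (Or.inl ⟨hZ, hZT⟩)), hZX⟩
  · rintro ⟨Y, hY, hr⟩
    exact F1_UU_rel ht hr (F1_R_sub ht hT hY)

theorem F1_T_iff {n l r : ℕ} {B T : Fam n} (hT : T ⊆ nt l r B) (Z : Finset (Fin n)) :
    Z ∈ T ↔ Z ∈ nt l r B ∧ Z ∉ F1R l r B T := by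
  constructor
  · intro hZ
    refine ⟨hT hZ, fun h => ?_⟩
    have h2 := F1_mem_nt.1 (hT hZ)
    rw [F1_mem_R] at h
    rcases h with h | h | ⟨W, hW, hWZ⟩
    · obtain ⟨Y, hne, hr⟩ := h2.2.2
      exact hne ((F1_mem_sg.1 h).2 Y hr)
    · exact h.2 hZ
    · have h1 : W = Z := F1_nt_eq (hT hW) (hT hZ) (hWZ ▸ F1alt_rel _ W)
      subst h1
      exact F1alt_ne _ _ h2.2.2 hWZ
  · rintro ⟨h1, h2⟩
    by_contra h3
    exact h2 (F1_mem_R.2 (Or.inr (Or.inl ⟨h1, h3⟩)))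

theorem F1_St {n l r : ℕ} {B T : Fam n}
    (ht : ∀ X Y : Finset (Fin n), tie (info l r B) X Y → (X ∈ B ↔ Y ∈ B))
    (ha : ∀ X Y : Finset (Fin n), X.card = r → Y.card = r → X ∉ B → Y ∉ B →
      ¬ Q (info l r B) X → ¬ Q (info l r B) Y → Adj X Y → tie (info l r B) X Y)
    (hT : T ⊆ nt l r B) : F1R l r B T ∈ St (powersetCard r (univ : Finset (Fin n))) := by
  unfold St
  rw [Finset.mem_filter, Finset.mem_powerset]
  constructor
  · intro X hX
    rw [Finset.mem_powersetCard]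
    exact ⟨Finset.subset_univ _, (F1_mem_UU.1 (F1_R_sub ht hT hX)).1⟩
  · intro X hX Y hY hadj
    have h1 := F1_mem_UU.1 (F1_R_sub ht hT hX)
    have h2 := F1_mem_UU.1 (F1_R_sub ht hT hY)
    have h3 := ha X Y h1.1 h2.1 h1.2.1 h2.2.1 (fun h => h1.2.2 ⟨X, h, F1_refl _ X⟩)
      (fun h => h2.2.2 ⟨Y, h, F1_refl _ Y⟩) hadj
    have h4 : X = Y := F1_R_eq hT hX hY (Relation.EqvGen.rel _ _ h3)
    subst h4
    have h5 := hadj.1
    rw [Finset.sdiff_self, Finset.card_empty] at h5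
    exact absurd h5 (by norm_num)

theorem F1 {n r l : ℕ}
    (hQ : ∀ B ∈ BF n r, ∀ X : Finset (Fin n), X.card = r → Q (info l r B) X → X ∉ B)
    (htie : ∀ B ∈ BF n r, ∀ X Y : Finset (Fin n), tie (info l r B) X Y → (X ∈ B ↔ Y ∈ B))
    (hadj : ∀ B ∈ BF n r, ∀ X Y : Finset (Fin n), X.card = r → Y.card = r → X ∉ B → Y ∉ B →
      ¬ Q (info l r B) X → ¬ Q (info l r B) Y → Adj X Y → tie (info l r B) X Y) :
    ∑ B ∈ BF n r, 2 ^ (nt l r B).card ≤
      ((BF n r).image (info l r)).card * (St (powersetCard r (univ : Finset (Fin n)))).card := by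
  classical
  have hcard : ∀ B ∈ BF n r, ∀ X ∈ B, X.card = r := by
    intro B hB X hX
    unfold BF at hB
    rw [Finset.mem_filter] at hB
    exact hB.2.card X hX
  have h1 : ∑ B ∈ BF n r, 2 ^ (nt l r B).card =
      ((BF n r).sigma (fun B => (nt l r B).powerset)).card := by
    rw [Finset.card_sigma]
    exact Finset.sum_congr rfl (fun B _ => (Finset.card_powerset _).symm)
  rw [h1, ← Finset.card_product]
  refine Finset.card_le_card_of_injOn (fun p => (info l r p.1, F1R l r p.1 p.2)) ?_ ?_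
  · rintro ⟨B, T⟩ hp
    have hp' : B ∈ BF n r ∧ T ∈ (nt l r B).powerset := Finset.mem_sigma.1 hp
    have hT : T ⊆ nt l r B := Finset.mem_powerset.1 hp'.2
    exact Finset.mem_coe.2 (Finset.mem_product.2 ⟨Finset.mem_image.2 ⟨B, hp'.1, rfl⟩,
      F1_St (htie B hp'.1) (hadj B hp'.1) hT⟩)
  · rintro ⟨B, T⟩ hp ⟨B', T'⟩ hp' heq
    have hp1 : B ∈ BF n r ∧ T ∈ (nt l r B).powerset := Finset.mem_sigma.1 hp
    have hp2 : B' ∈ BF n r ∧ T' ∈ (nt l r B').powerset := Finset.mem_sigma.1 hp'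
    have hT : T ⊆ nt l r B := Finset.mem_powerset.1 hp1.2
    have hT' : T' ⊆ nt l r B' := Finset.mem_powerset.1 hp2.2
    have hI : info l r B = info l r B' := congrArg Prod.fst heq
    have hR : F1R l r B T = F1R l r B' T' := congrArg Prod.snd heq
    have hU : ∀ X, X ∈ UU l r B ↔ X ∈ UU l r B' := by
      intro X
      rw [F1_UU_iff (htie B hp1.1) hT, F1_UU_iff (htie B' hp2.1) hT', hI, hR]
    have hB : B = B' := by
      ext X
      rw [F1_mem_B (hcard B hp1.1) (hQ B hp1.1) (htie B hp1.1),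
        F1_mem_B (hcard B' hp2.1) (hQ B' hp2.1) (htie B' hp2.1), hU X, hI]
    subst hB
    have hTT : T = T' := by
      ext Z
      rw [F1_T_iff hT, F1_T_iff hT', hR]
    subst hTT
    rfl

end Pool.Agent.Helper46.A.D2
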