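import Pool.Agent.Helper46.A.Bridge

set_option autoImplicit false

namespace Pool.Agent.Helper46.A.D3

open Finset

theorem F2_sel {α : Type*} [DecidableEq α] (s t : α → α) (hts : ∀ x, t (s x) = x) (p : ℕ) :
    ∀ S : Finset α, (∀ x ∈ S, s x ≠ x) → 3 * p ≤ S.card →
      ∃ Y ⊆ S, Y.card = p ∧ ∀ x ∈ Y, s x ∉ Y := by
  induction p with
  | zero => intro S _ _; exact ⟨∅, Finset.empty_subset _, rfl, by simp⟩
  | succ p ih =>
    intro S hS hc
    have hne : S.Nonempty := by
      rw [← Finset.card_pos]; omega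
    obtain ⟨x, hx⟩ := hne
    have h1 : (S \ {x, s x, t x}).card ≥ 3 * p := by
      have h2 := Finset.le_card_sdiff ({x, s x, t x} : Finset α) S
      have h3 : ({x, s x, t x} : Finset α).card ≤ 3 := Finset.card_le_three
      omega
    obtain ⟨Y, hY, hYc, hYs⟩ := ih (S \ {x, s x, t x}) (fun z hz => hS z (Finset.mem_sdiff.1 hz).1) h1
    have hmem : ∀ z ∈ Y, z ∈ S ∧ z ≠ x ∧ z ≠ s x ∧ z ≠ t x := by
      intro z hz
      have := hY hz
      simp only [Finset.mem_sdiff, Finset.mem_insert, Finset.mem_singleton, not_or] at this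
      exact this
    have hxY : x ∉ Y := fun h => (hmem x h).2.1 rfl
    refine ⟨insert x Y, ?_, ?_, ?_⟩
    · intro z hz
      rcases Finset.mem_insert.1 hz with h | h
      · rw [h]; exact hx
      · exact (hmem z h).1
    · rw [Finset.card_insert_of_notMem hxY, hYc]
    · intro z hz hsz
      rcases Finset.mem_insert.1 hz with h | h
      · subst h
        rcases Finset.mem_insert.1 hsz with h2 | h2
        · exact hS z hx h2
        · exact (hmem _ h2).2.2.1 rfl
      · rcases Finset.mem_insert.1 hsz with h2 | h2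
        · apply (hmem z h).2.2.2
          rw [← h2, hts]
        · exact hYs z h h2


theorem F2 {n r l p : ℕ} (σ : Equiv.Perm (Fin n))
    (hsg : ∀ B ∈ BF n r, ∀ W : Fam n, W ⊆ sg l r B → IsBF r (B ∪ W))
    (hd : ∀ B ∈ BF n r, ∀ X ∈ sg l r B, X ∉ B) :
    ((FixF r σ).filter (fun B => 3 * p ≤ ((sg l r B).filter
      (fun X => X.image σ ≠ X)).card)).card * 2 ^ p ≤ (BF n r).card := by
  classical
  set s : Finset (Fin n) → Finset (Fin n) := fun X => X.image σ with hs
  have hsinj : Function.Injective s := Finset.image_injective σ.injective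
  have hts : ∀ X, (fun X : Finset (Fin n) => X.image σ.symm) (s X) = X := by
    intro X
    simp only [hs]
    rw [Finset.image_image]
    simp
  set A := (FixF r σ).filter (fun B => 3 * p ≤ ((sg l r B).filter
      (fun X => X.image σ ≠ X)).card) with hA
  have hAmem : ∀ B ∈ A, B ∈ BF n r ∧ B.image s = B ∧ 3 * p ≤ ((sg l r B).filter (fun X => X.image σ ≠ X)).card := by
    intro B hB
    rw [hA, Finset.mem_filter] at hB
    obtain ⟨h1, h2⟩ := hB
    unfold FixF at h1
    rw [Finset.mem_filter] at h1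
    exact ⟨h1.1, h1.2, h2⟩
  have hex : ∀ B : Fam n, ∃ Y : Fam n, B ∈ A → (Y ⊆ sg l r B ∧ Y.card = p ∧ ∀ X ∈ Y, s X ∉ Y) := by
    intro B
    by_cases hB : B ∈ A
    · obtain ⟨h1, h2, h3⟩ := hAmem B hB
      obtain ⟨Y, hY1, hY2, hY3⟩ := F2_sel s _ hts p _ (fun x hx => (Finset.mem_filter.1 hx).2) h3
      exact ⟨Y, fun _ => ⟨hY1.trans (Finset.filter_subset _ _), hY2, hY3⟩⟩
    · exact ⟨∅, fun h => absurd h hB⟩
  choose Yc hYc using hex
  have hcard : (A.sigma (fun B => (Yc B).powerset)).card = A.card * 2 ^ p := by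
    rw [Finset.card_sigma, Finset.sum_congr rfl (g := fun _ => 2 ^ p), Finset.sum_const, smul_eq_mul]
    intro B hB
    rw [Finset.card_powerset, (hYc B hB).2.1]
  rw [← hcard]
  have key : ∀ B ∈ A, ∀ W ⊆ Yc B, (B ∪ W).filter (fun X => s X ∈ B ∪ W) = B ∧ Disjoint B W := by
    intro B hB W hW
    obtain ⟨h1, h2, h3⟩ := hAmem B hB
    obtain ⟨h4, h5, h6⟩ := hYc B hB
    have hdis : ∀ X ∈ W, X ∉ B := fun X hX => hd B h1 X (h4 (hW hX))
    constructor
    · ext X
      rw [Finset.mem_filter, Finset.mem_union, Finset.mem_union]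
      constructor
      · rintro ⟨h7 | h7, h8⟩
        · exact h7
        · exfalso
          rcases h8 with h8 | h8
          · rw [← h2] at h8
            obtain ⟨Z, hZ, hZe⟩ := Finset.mem_image.1 h8
            rw [hsinj hZe] at hZ
            exact hdis X h7 hZ
          · exact h6 X (hW h7) (hW h8)
      · intro h7
        refine ⟨Or.inl h7, Or.inl ?_⟩
        rw [← h2]
        exact Finset.mem_image_of_mem s h7
    · rw [Finset.disjoint_right]
      exact hdis
  refine Finset.card_le_card_of_injOn (fun q => q.1 ∪ q.2) ?_ ?_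
  · rintro ⟨B, W⟩ hq
    rw [Finset.mem_coe, Finset.mem_sigma, Finset.mem_powerset] at hq
    obtain ⟨hB, hW⟩ := hq
    show B ∪ W ∈ BF n r
    unfold BF
    rw [Finset.mem_filter]
    exact ⟨Finset.mem_univ _, hsg B (hAmem B hB).1 W (hW.trans (hYc B hB).1)⟩
  · rintro ⟨B, W⟩ hq ⟨B2, W2⟩ hq2 heq
    rw [Finset.mem_coe, Finset.mem_sigma, Finset.mem_powerset] at hq hq2
    obtain ⟨hB, hW⟩ := hq
    obtain ⟨hB2, hW2⟩ := hq2
    simp only at heq hB hW hB2 hW2
    obtain ⟨k1, k2⟩ := key B hB W hW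
    obtain ⟨k3, k4⟩ := key B2 hB2 W2 hW2
    have e1 : B = B2 := by
      rw [← k1, ← k3, heq]
    subst e1
    have e2 : W = W2 := by
      have a1 : (B ∪ W) \ B = W := by
        rw [Finset.union_sdiff_left]
        exact Finset.sdiff_eq_self_of_disjoint k2.symm
      have a2 : (B ∪ W2) \ B = W2 := by
        rw [Finset.union_sdiff_left]
        exact Finset.sdiff_eq_self_of_disjoint k4.symm
      rw [← a1, ← a2, heq]
    subst e2
    rfl

end Pool.Agent.Helper46.A.D3
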