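import Pool.Agent.Helper46.A.Bridge

set_option autoImplicit false

namespace Pool.Agent.Helper46.A.D4

open Finset

theorem F3_tie_card {n : ℕ} {I : Info n} {X Y : Finset (Fin n)} (h : tie I X Y) :
    X.card = Y.card := by
  obtain ⟨f, hf, g, hg, rfl, -⟩ := h
  rw [Finset.card_insert_of_notMem (fun h => hg (Finset.mem_of_mem_erase h)),
    Finset.card_erase_of_mem hf]
  have : 0 < X.card := Finset.card_pos.2 ⟨f, hf⟩
  omega

theorem F3_rel_card {n : ℕ} {I : Info n} {X Y : Finset (Fin n)} (h : Rel I X Y) :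
    X.card = Y.card := by
  induction h with
  | rel _ _ h => exact F3_tie_card h
  | refl _ => rfl
  | symm _ _ _ ih => exact ih.symm
  | trans _ _ _ _ _ ih1 ih2 => exact ih1.trans ih2

theorem F3_rel_status {n : ℕ} {I : Info n} {B : Fam n}
    (ht : ∀ X Y : Finset (Fin n), tie I X Y → (X ∈ B ↔ Y ∈ B)) {X Y : Finset (Fin n)}
    (h : Rel I X Y) : X ∈ B ↔ Y ∈ B := by
  induction h with
  | rel _ _ h => exact ht _ _ h
  | refl _ => exact Iff.rfl
  | symm _ _ _ ih => exact ih.symm
  | trans _ _ _ _ _ ih1 ih2 => exact ih1.trans ih2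

theorem F3_rel_symm {n : ℕ} {I : Info n} {X Y : Finset (Fin n)} (h : Rel I X Y) : Rel I Y X :=
  Relation.EqvGen.symm _ _ h

theorem F3_rel_trans {n : ℕ} {I : Info n} {X Y Z : Finset (Fin n)} (h : Rel I X Y)
    (h' : Rel I Y Z) : Rel I X Z := Relation.EqvGen.trans _ _ _ h h'

theorem F3_kn {n : ℕ} {I : Info n} {X Y : Finset (Fin n)} (h : Kn I X) (h' : Rel I X Y) :
    Kn I Y := by
  obtain ⟨Z, hZ, hR⟩ := h
  exact ⟨Z, hZ, F3_rel_trans hR h'⟩

theorem F3_mem_UU {n l r : ℕ} {B : Fam n} {X : Finset (Fin n)} :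
    X ∈ UU l r B ↔ X.card = r ∧ X ∉ B ∧ ¬ Kn (info l r B) X := by
  classical
  unfold UU
  rw [Finset.mem_filter, Finset.mem_powersetCard]
  simp only [Finset.subset_univ, true_and]

theorem F3_UU_closed {n l r : ℕ} {B : Fam n}
    (ht : ∀ X Y : Finset (Fin n), tie (info l r B) X Y → (X ∈ B ↔ Y ∈ B))
    {X Y : Finset (Fin n)} (hX : X ∈ UU l r B) (h : Rel (info l r B) X Y) : Y ∈ UU l r B := by
  rw [F3_mem_UU] at hX ⊢
  obtain ⟨h1, h2, h3⟩ := hX
  exact ⟨(F3_rel_card h).symm.trans h1, fun hY => h2 ((F3_rel_status ht h).2 hY),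
    fun hK => h3 (F3_kn hK (F3_rel_symm h))⟩

theorem F3_rep_rel {n : ℕ} (I : Info n) (X : Finset (Fin n)) : Rel I (rep I X) X :=
  Quotient.mk_out (s := Relation.EqvGen.setoid (tie I)) X

theorem F3_rep_eq {n : ℕ} {I : Info n} {X Y : Finset (Fin n)} (h : Rel I X Y) :
    rep I X = rep I Y := by
  unfold rep
  congr 1
  exact Quotient.sound (s := Relation.EqvGen.setoid (tie I)) h

theorem F3_mem_UU_iff {n l r : ℕ} {B : Fam n}
    (ht : ∀ X Y : Finset (Fin n), tie (info l r B) X Y → (X ∈ B ↔ Y ∈ B))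
    (X : Finset (Fin n)) :
    X ∈ UU l r B ↔ X ∈ sg l r B ∨ rep (info l r B) X ∈ nt l r B := by
  classical
  constructor
  · intro hX
    by_cases hs : ∀ Y, Rel (info l r B) X Y → Y = X
    · left
      unfold sg
      rw [Finset.mem_filter]
      exact ⟨hX, hs⟩
    · right
      push Not at hs
      obtain ⟨Y, hY, hne⟩ := hs
      have h1 := F3_rep_rel (info l r B) X
      unfold nt
      rw [Finset.mem_filter]
      refine ⟨F3_UU_closed ht hX (F3_rel_symm h1), (F3_rep_eq h1).symm, ?_⟩
      by_cases hXR : X = rep (info l r B) X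
      · refine ⟨Y, ?_, F3_rel_trans h1 hY⟩
        rw [← hXR]
        exact hne
      · exact ⟨X, hXR, h1⟩
  · rintro (h | h)
    · unfold sg at h
      exact (Finset.mem_filter.1 h).1
    · unfold nt at h
      exact F3_UU_closed ht (Finset.mem_filter.1 h).1 (F3_rep_rel _ X)

theorem F3_mem_B {n l r : ℕ} {B : Fam n} (hB : IsBF r B)
    (hQ : ∀ X : Finset (Fin n), X.card = r → Q (info l r B) X → X ∉ B)
    (ht : ∀ X Y : Finset (Fin n), tie (info l r B) X Y → (X ∈ B ↔ Y ∈ B))
    (X : Finset (Fin n)) :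
    X ∈ B ↔ X.card = r ∧ ¬ Kn (info l r B) X ∧ X ∉ UU l r B := by
  constructor
  · intro hX
    refine ⟨hB.card X hX, ?_, ?_⟩
    · rintro ⟨Y, hY, hR⟩
      have hYr : Y.card = r := (F3_rel_card hR).trans (hB.card X hX)
      exact hQ Y hYr hY ((F3_rel_status ht hR).2 hX)
    · intro h
      rw [F3_mem_UU] at h
      exact h.2.1 hX
  · rintro ⟨h1, h2, h3⟩
    by_contra h
    exact h3 (F3_mem_UU.2 ⟨h1, h, h2⟩)

theorem F3_SB {n k : ℕ} : ((univ : Finset (Fam n)).filter (fun S => S.card ≤ k)).card ≤ SB n k := by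
  have h1 : (univ : Finset (Fam n)).filter (fun S => S.card ≤ k) ⊆
      (range (k + 1)).biUnion (fun j => powersetCard j (univ : Finset (Finset (Fin n)))) := by
    intro S hS
    rw [Finset.mem_filter] at hS
    rw [Finset.mem_biUnion]
    exact ⟨S.card, Finset.mem_range.2 (Nat.lt_succ_of_le hS.2),
      Finset.mem_powersetCard.2 ⟨Finset.subset_univ _, rfl⟩⟩
  refine (Finset.card_le_card h1).trans (Finset.card_biUnion_le.trans ?_)
  unfold SB
  refine le_of_eq (Finset.sum_congr rfl fun j _ => ?_)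
  rw [Finset.card_powersetCard, Finset.card_univ, Fintype.card_finset, Fintype.card_fin]

theorem F3 {n r l K P : ℕ} (σ : Equiv.Perm (Fin n)) (a b : Fin n) (hσ : σ a = b)
    (hQ : ∀ B ∈ BF n r, ∀ X : Finset (Fin n), X.card = r → Q (info l r B) X → X ∉ B)
    (htie : ∀ B ∈ BF n r, ∀ X Y : Finset (Fin n), tie (info l r B) X Y → (X ∈ B ↔ Y ∈ B))
    (hadj : ∀ B ∈ BF n r, ∀ X Y : Finset (Fin n), X.card = r → Y.card = r → X ∉ B → Y ∉ B →
      ¬ Q (info l r B) X → ¬ Q (info l r B) Y → Adj X Y → tie (info l r B) X Y) :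
    ((BF n r).filter (fun B => (nt l r B).card ≤ K ∧
      ((sg l r B).filter (fun X => X.image σ ≠ X)).card ≤ P)).card ≤
      ((BF n r).image (info l r)).card * SB n K * SB n P * (St (Vab r a b)).card := by
  classical
  have hbf : ∀ B ∈ BF n r, IsBF r B := by
    intro B hB
    unfold BF at hB
    exact (Finset.mem_filter.1 hB).2
  let T : Finset (Info n × Fam n × Fam n × Fam n) :=
    ((BF n r).image (info l r)) ×ˢ ((univ : Finset (Fam n)).filter (fun S => S.card ≤ K)) ×ˢ
      ((univ : Finset (Fam n)).filter (fun S => S.card ≤ P)) ×ˢ (St (Vab r a b))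
  have hT : T.card ≤ ((BF n r).image (info l r)).card * SB n K * SB n P *
      (St (Vab r a b)).card := by
    simp only [T, Finset.card_product]
    calc ((BF n r).image (info l r)).card *
        (((univ : Finset (Fam n)).filter (fun S => S.card ≤ K)).card *
          (((univ : Finset (Fam n)).filter (fun S => S.card ≤ P)).card * (St (Vab r a b)).card))
        ≤ ((BF n r).image (info l r)).card * (SB n K * (SB n P * (St (Vab r a b)).card)) :=
          Nat.mul_le_mul_left _ (Nat.mul_le_mul F3_SB (Nat.mul_le_mul_right _ F3_SB))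
      _ = _ := by ring
  refine le_trans ?_ hT
  refine Finset.card_le_card_of_injOn (fun B => (info l r B, nt l r B,
    (sg l r B).filter (fun X => X.image σ ≠ X), (sg l r B).filter (fun X => X.image σ = X)))
    ?_ ?_
  · intro B hB
    rw [Finset.mem_coe, Finset.mem_filter] at hB
    obtain ⟨hB, hK, hP⟩ := hB
    simp only [T, Finset.coe_product, Set.mem_prod, Finset.mem_coe, Finset.mem_filter,
      Finset.mem_univ, true_and]
    refine ⟨Finset.mem_image_of_mem _ hB, hK, hP, ?_⟩
    unfold St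
    rw [Finset.mem_filter, Finset.mem_powerset]
    have hsg : ∀ X, X ∈ sg l r B → X ∈ UU l r B ∧ ∀ Y, Rel (info l r B) X Y → Y = X := by
      intro X hX
      unfold sg at hX
      exact Finset.mem_filter.1 hX
    constructor
    · intro X hX
      rw [Finset.mem_filter] at hX
      obtain ⟨h1, h2⟩ := hX
      have h3 := (F3_mem_UU.1 (hsg X h1).1).1
      unfold Vab
      rw [Finset.mem_filter, Finset.mem_powersetCard]
      refine ⟨⟨Finset.subset_univ _, h3⟩, ?_, ?_⟩
      · intro ha
        rw [← h2, ← hσ]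
        exact Finset.mem_image_of_mem _ ha
      · intro hb
        rw [← h2, ← hσ, Finset.mem_image] at hb
        obtain ⟨x, hx, hxa⟩ := hb
        rw [← σ.injective hxa]
        exact hx
    · intro X hX Y hY hA
      rw [Finset.mem_filter] at hX hY
      obtain ⟨x1, x2⟩ := hsg X hX.1
      obtain ⟨y1, y2⟩ := hsg Y hY.1
      rw [F3_mem_UU] at x1 y1
      have hnQ : ∀ Z, ¬ Kn (info l r B) Z → ¬ Q (info l r B) Z := fun Z hZ hq =>
        hZ ⟨Z, hq, Relation.EqvGen.refl Z⟩
      have ht := hadj B hB X Y x1.1 y1.1 x1.2.1 y1.2.1 (hnQ X x1.2.2) (hnQ Y y1.2.2) hA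
      have hYX : Y = X := x2 Y (Relation.EqvGen.rel _ _ ht)
      rw [hYX] at hA
      have := hA.1
      rw [Finset.sdiff_self, Finset.card_empty] at this
      exact zero_ne_one this
  · intro B hB B' hB' heq
    rw [Finset.mem_coe, Finset.mem_filter] at hB hB'
    have e1 : info l r B = info l r B' := congrArg Prod.fst heq
    have e2 : nt l r B = nt l r B' := congrArg (fun p => p.2.1) heq
    have e3 : (sg l r B).filter (fun X => X.image σ ≠ X) =
        (sg l r B').filter (fun X => X.image σ ≠ X) := congrArg (fun p => p.2.2.1) heq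
    have e4 : (sg l r B).filter (fun X => X.image σ = X) =
        (sg l r B').filter (fun X => X.image σ = X) := congrArg (fun p => p.2.2.2) heq
    have e5 : sg l r B = sg l r B' := by
      rw [← Finset.filter_union_filter_not_eq (fun X => X.image σ = X) (sg l r B),
        ← Finset.filter_union_filter_not_eq (fun X => X.image σ = X) (sg l r B')]
      rw [e4, e3]
    have e6 : UU l r B = UU l r B' := by
      ext X
      rw [F3_mem_UU_iff (htie B hB.1), F3_mem_UU_iff (htie B' hB'.1), e5, e2, e1]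
    ext X
    rw [F3_mem_B (hbf B hB.1) (hQ B hB.1) (htie B hB.1), F3_mem_B (hbf B' hB'.1) (hQ B' hB'.1)
      (htie B' hB'.1), e6, e1]

end Pool.Agent.Helper46.A.D4
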