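import Mathlib

set_option autoImplicit false

namespace Pool.Agent.Helper46.A

open Finset

/-- families of subsets of `Fin n` -/
abbrev Fam (n : ℕ) := Finset (Finset (Fin n))

/-- adjacency in the Johnson graph (for sets of equal size) -/
def Adj {n : ℕ} (X Y : Finset (Fin n)) : Prop := (X \ Y).card = 1 ∧ (Y \ X).card = 1

instance {n : ℕ} : DecidableRel (Adj (n := n)) := fun X Y => by unfold Adj; infer_instance

/-- stable subfamilies of `V` -/
def St {n : ℕ} (V : Fam n) : Finset (Fam n) :=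
  V.powerset.filter (fun R => ∀ X ∈ R, ∀ Y ∈ R, ¬ Adj X Y)

/-- base families of matroids of rank `r` on `Fin n` -/
structure IsBF {n : ℕ} (r : ℕ) (B : Fam n) : Prop where
  ne : B.Nonempty
  card : ∀ X ∈ B, X.card = r
  exch : ∀ X ∈ B, ∀ Y ∈ B, ∀ x ∈ X \ Y, ∃ y ∈ Y \ X, insert y (X.erase x) ∈ B

open Classical in
noncomputable def BF (n r : ℕ) : Finset (Fam n) := univ.filter (fun B => IsBF r B)

def indep {n : ℕ} (B : Fam n) (S : Finset (Fin n)) : Prop := ∃ X ∈ B, S ⊆ X

/-- circuits -/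
def circ {n : ℕ} (B : Fam n) (Γ : Finset (Fin n)) : Prop :=
  ¬ indep B Γ ∧ ∀ x ∈ Γ, indep B (Γ.erase x)

/-- dual base family -/
def dualF {n : ℕ} (B : Fam n) : Fam n := B.image (fun X => Xᶜ)

open Classical in
/-- circuits with at most `l` elements -/
noncomputable def shortC {n : ℕ} (l : ℕ) (B : Fam n) : Fam n :=
  univ.filter (fun Γ => circ B Γ ∧ Γ.card ≤ l)

open Classical in
/-- hyperplanes `H` (closures of independent sets `I` of size `r - 1`) that contain a set
`Z ⊇ I` of size `r + 1` without short circuits -/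
noncomputable def relH {n : ℕ} (l r : ℕ) (B : Fam n) : Fam n :=
  univ.filter (fun H => ∃ I Z : Finset (Fin n), I ⊆ Z ∧ Z ⊆ H ∧ I.card + 1 = r ∧
    Z.card = r + 1 ∧ indep B I ∧ (∀ x, x ∈ H ↔ (x ∈ I ∨ insert x I ∉ B)) ∧
    ∀ Γ ⊆ Z, Γ.card ≤ l → ¬ circ B Γ)

abbrev Info (n : ℕ) := Fam n × Fam n × Fam n × Fam n

noncomputable def info {n : ℕ} (l r : ℕ) (B : Fam n) : Info n :=
  (shortC l B, shortC l (dualF B), relH l r B, relH l (n - r) (dualF B))

/-- `X` is seen to be a nonbasis from the information `I` -/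
def Q {n : ℕ} (I : Info n) (X : Finset (Fin n)) : Prop :=
  (∃ Γ ∈ I.1, Γ ⊆ X) ∨ (∃ Γ ∈ I.2.1, Γ ⊆ Xᶜ) ∨ (∃ H ∈ I.2.2.1, X ⊆ H) ∨ (∃ H ∈ I.2.2.2, Xᶜ ⊆ H)

/-- `X` and `Y` are neighbours whose status is seen to be the same from the information `I` -/
def tie {n : ℕ} (I : Info n) (X Y : Finset (Fin n)) : Prop :=
  ∃ f ∈ X, ∃ g, g ∉ X ∧ Y = insert g (X.erase f) ∧
    ((∃ Γ ∈ I.1, f ∈ Γ ∧ g ∈ Γ ∧ Γ ⊆ insert g X) ∨
      (∃ Γ ∈ I.2.1, f ∈ Γ ∧ g ∈ Γ ∧ Γ ⊆ insert f Xᶜ))

/-- classes of tied sets -/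
def Rel {n : ℕ} (I : Info n) : Finset (Fin n) → Finset (Fin n) → Prop := Relation.EqvGen (tie I)

/-- known nonbases -/
def Kn {n : ℕ} (I : Info n) (X : Finset (Fin n)) : Prop := ∃ Y, Q I Y ∧ Rel I Y X

open Classical in
/-- nonbases that are not known -/
noncomputable def UU {n : ℕ} (l r : ℕ) (B : Fam n) : Fam n :=
  (powersetCard r (univ : Finset (Fin n))).filter (fun X => X ∉ B ∧ ¬ Kn (info l r B) X)

/-- canonical representative of a class -/
noncomputable def rep {n : ℕ} (I : Info n) (X : Finset (Fin n)) : Finset (Fin n) :=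
  (Quotient.mk (Relation.EqvGen.setoid (tie I)) X).out

open Classical in
/-- representatives of the nontrivial classes of unknown nonbases -/
noncomputable def nt {n : ℕ} (l r : ℕ) (B : Fam n) : Fam n :=
  (UU l r B).filter (fun X => X = rep (info l r B) X ∧ ∃ Y, Y ≠ X ∧ Rel (info l r B) X Y)

open Classical in
/-- unknown nonbases whose class is a singleton -/
noncomputable def sg {n : ℕ} (l r : ℕ) (B : Fam n) : Fam n :=
  (UU l r B).filter (fun X => ∀ Y, Rel (info l r B) X Y → Y = X)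

/-- number of subfamilies with at most `k` members -/
def SB (n k : ℕ) : ℕ := ∑ j ∈ range (k + 1), (2 ^ n).choose j

open Classical in
/-- base families of rank `r` fixed by `σ` -/
noncomputable def FixF {n : ℕ} (r : ℕ) (σ : Equiv.Perm (Fin n)) : Finset (Fam n) :=
  (BF n r).filter (fun B => B.image (fun X => X.image σ) = B)

/-- number of matroids on `Fin n` -/
noncomputable def mm (n : ℕ) : ℝ := ∑ r ∈ range (n + 1), ((BF n r).card : ℝ)

/-- the `r`-sets that contain both or none of `a`, `b` -/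
def Vab {n : ℕ} (r : ℕ) (a b : Fin n) : Fam n :=
  (powersetCard r (univ : Finset (Fin n))).filter (fun X => (a ∈ X ↔ b ∈ X))

end Pool.Agent.Helper46.A
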