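import Pool.Agent.Helper46.A.NDefs

set_option autoImplicit false

namespace Pool.Agent.Helper46.AN.E1

open Finset Filter

theorem tail_Fs (n : ℕ) : (Fs n : ℝ) ≤ (3 / 2 : ℝ) ^ n := by
  have h1 : (Fs n : ℝ) ≤ (8:ℝ) ^ (n / 8) * (9 / 8 : ℝ) ^ n := by
    have h2 : (9 / 8 : ℝ) ^ n = ∑ i ∈ range (n + 1), (1 / 8 : ℝ) ^ i * (n.choose i : ℝ) := by
      have := add_pow (1 / 8 : ℝ) 1 n
      simp only [one_pow, mul_one] at this
      rw [← this]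
      norm_num
    have h3 : ∑ i ∈ range (n / 8 + 1), (1 / 8 : ℝ) ^ i * (n.choose i : ℝ) ≤ (9 / 8 : ℝ) ^ n := by
      rw [h2]
      apply Finset.sum_le_sum_of_subset_of_nonneg
      · apply Finset.range_subset_range.2
        have := Nat.div_le_self n 8
        omega
      · intro i _ _
        positivity
    have h4 : (Fs n : ℝ) ≤ (8:ℝ) ^ (n / 8) * ∑ i ∈ range (n / 8 + 1), (1 / 8 : ℝ) ^ i * (n.choose i : ℝ) := by
      unfold Fs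
      rw [Nat.cast_sum, Finset.mul_sum]
      apply Finset.sum_le_sum
      intro i hi
      rw [Finset.mem_range] at hi
      have h5 : (1:ℝ) ≤ (8:ℝ) ^ (n / 8) * (1 / 8 : ℝ) ^ i := by
        rw [one_div, inv_pow, ← div_eq_mul_inv, le_div_iff₀ (by positivity), one_mul]
        exact pow_le_pow_right₀ (by norm_num) (by omega)
      calc (n.choose i : ℝ) = 1 * (n.choose i : ℝ) := (one_mul _).symm
        _ ≤ ((8:ℝ) ^ (n / 8) * (1 / 8 : ℝ) ^ i) * (n.choose i : ℝ) :=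
          mul_le_mul_of_nonneg_right h5 (by positivity)
        _ = _ := by ring
    exact h4.trans (mul_le_mul_of_nonneg_left h3 (by positivity))
  have h6 : (8:ℝ) ^ (n / 8) ≤ (4 / 3 : ℝ) ^ n := by
    calc (8:ℝ) ^ (n / 8) ≤ ((4 / 3 : ℝ) ^ 8) ^ (n / 8) := by
          apply pow_le_pow_left₀ (by norm_num)
          norm_num
      _ = (4 / 3 : ℝ) ^ (8 * (n / 8)) := by rw [← pow_mul]
      _ ≤ (4 / 3 : ℝ) ^ n := pow_le_pow_right₀ (by norm_num) (Nat.mul_div_le n 8)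
  calc (Fs n : ℝ) ≤ (8:ℝ) ^ (n / 8) * (9 / 8 : ℝ) ^ n := h1
    _ ≤ (4 / 3 : ℝ) ^ n * (9 / 8 : ℝ) ^ n := mul_le_mul_of_nonneg_right h6 (by positivity)
    _ = (3 / 2 : ℝ) ^ n := by
        rw [← mul_pow]
        norm_num

theorem tail_N0 (n : ℕ) : (2 : ℝ) ^ n ≤ ((n : ℝ) + 1) * (N0 n : ℝ) := by
  have h1 : 2 ^ n ≤ (n + 1) * N0 n := by
    rw [← Nat.sum_range_choose n]
    calc ∑ i ∈ range (n + 1), n.choose i ≤ ∑ i ∈ range (n + 1), N0 n :=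
          Finset.sum_le_sum fun i _ => Nat.choose_le_middle i n
      _ = (n + 1) * N0 n := by rw [Finset.sum_const, Finset.card_range, smul_eq_mul]
  exact_mod_cast h1

theorem tail : ∀ᶠ n : ℕ in atTop, (Fs n : ℝ) * (n : ℝ) ^ 3 ≤ (N0 n : ℝ) := by
  have h := (isLittleO_pow_const_const_pow_of_one_lt (R := ℝ) 4 (r := 4 / 3) (by norm_num)).bound
    (show (0:ℝ) < 1 / 2 by norm_num)
  filter_upwards [h, eventually_ge_atTop 1] with n hn hn1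
  have hn1' : (1:ℝ) ≤ n := by exact_mod_cast hn1
  rw [Real.norm_of_nonneg (by positivity), Real.norm_of_nonneg (by positivity)] at hn
  have h1 := tail_Fs n
  have h2 := tail_N0 n
  have h3 : (n:ℝ) ^ 3 * ((n:ℝ) + 1) ≤ (4 / 3 : ℝ) ^ n := by
    have : (n:ℝ) ^ 3 * ((n:ℝ) + 1) ≤ 2 * (n:ℝ) ^ 4 := by
      have : (n:ℝ) ^ 3 * 1 ≤ (n:ℝ) ^ 3 * n := mul_le_mul_of_nonneg_left hn1' (by positivity)
      nlinarith
    linarith
  have h4 : (3 / 2 : ℝ) ^ n * ((n:ℝ) ^ 3 * ((n:ℝ) + 1)) ≤ (2:ℝ) ^ n := by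
    calc (3 / 2 : ℝ) ^ n * ((n:ℝ) ^ 3 * ((n:ℝ) + 1)) ≤ (3 / 2 : ℝ) ^ n * (4 / 3 : ℝ) ^ n :=
          mul_le_mul_of_nonneg_left h3 (by positivity)
      _ = (2:ℝ) ^ n := by rw [← mul_pow]; norm_num
  have h5 : ((Fs n : ℝ) * (n : ℝ) ^ 3) * ((n:ℝ) + 1) ≤ (N0 n : ℝ) * ((n:ℝ) + 1) := by
    calc ((Fs n : ℝ) * (n : ℝ) ^ 3) * ((n:ℝ) + 1) = (Fs n : ℝ) * ((n:ℝ) ^ 3 * ((n:ℝ) + 1)) := by ring
      _ ≤ (3 / 2 : ℝ) ^ n * ((n:ℝ) ^ 3 * ((n:ℝ) + 1)) :=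
          mul_le_mul_of_nonneg_right h1 (by positivity)
      _ ≤ (2:ℝ) ^ n := h4
      _ ≤ ((n : ℝ) + 1) * (N0 n : ℝ) := h2
      _ = _ := by ring
  exact le_of_mul_le_mul_right h5 (by positivity)

end Pool.Agent.Helper46.AN.E1
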