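import Pool.Agent.Helper46.A.NDefs

set_option autoImplicit false

namespace Pool.Agent.Helper46.AN.E2

open Finset Filter

theorem SB_le (n k : ℕ) (hn : 1 ≤ n) :
    (SB n k : ℝ) ≤ (n : ℝ) ^ (4 * k) * Real.exp ((2 : ℝ) ^ n / (n : ℝ) ^ 4) := by
  have hn1 : (1 : ℝ) ≤ (n : ℝ) := by exact_mod_cast hn
  have hn0 : (0 : ℝ) < (n : ℝ) := by linarith
  have hn4 : (1 : ℝ) ≤ (n : ℝ) ^ 4 := one_le_pow₀ hn1
  set t : ℝ := ((n : ℝ) ^ 4)⁻¹ with ht
  have ht0 : 0 < t := by rw [ht]; positivity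
  have ht1 : t ≤ 1 := by rw [ht]; exact inv_le_one_of_one_le₀ hn4
  have hpos : ∀ j, 0 ≤ t ^ j * (((2 ^ n).choose j : ℕ) : ℝ) := fun j => by positivity
  -- binomial theorem
  have hbin : (t + 1) ^ (2 ^ n) = ∑ j ∈ range (2 ^ n + 1), t ^ j * (((2 ^ n).choose j : ℕ) : ℝ) := by
    rw [add_pow]
    apply Finset.sum_congr rfl
    intro j _
    rw [one_pow, mul_one]
  have hle : ∑ j ∈ range (k + 1), t ^ j * (((2 ^ n).choose j : ℕ) : ℝ) ≤ (t + 1) ^ (2 ^ n) := by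
    rw [hbin]
    have h1 : ∑ j ∈ range (k + 1), t ^ j * (((2 ^ n).choose j : ℕ) : ℝ) ≤
        ∑ j ∈ range (max k (2 ^ n) + 1), t ^ j * (((2 ^ n).choose j : ℕ) : ℝ) := by
      apply Finset.sum_le_sum_of_subset_of_nonneg
      · intro j hj
        rw [Finset.mem_range] at hj ⊢
        have := le_max_left k (2 ^ n)
        omega
      · intro j _ _
        exact hpos j
    have h2 : ∑ j ∈ range (max k (2 ^ n) + 1), t ^ j * (((2 ^ n).choose j : ℕ) : ℝ) =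
        ∑ j ∈ range (2 ^ n + 1), t ^ j * (((2 ^ n).choose j : ℕ) : ℝ) := by
      symm
      apply Finset.sum_subset
      · intro j hj
        rw [Finset.mem_range] at hj ⊢
        have := le_max_right k (2 ^ n)
        omega
      · intro j _ hj
        rw [Finset.mem_range, not_lt] at hj
        rw [Nat.choose_eq_zero_of_lt (by omega)]
        simp
    exact h1.trans h2.le
  have hlow : t ^ k * (SB n k : ℝ) ≤ ∑ j ∈ range (k + 1), t ^ j * (((2 ^ n).choose j : ℕ) : ℝ) := by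
    unfold SB
    rw [Nat.cast_sum, Finset.mul_sum]
    apply Finset.sum_le_sum
    intro j hj
    rw [Finset.mem_range] at hj
    apply mul_le_mul_of_nonneg_right _ (Nat.cast_nonneg _)
    exact pow_le_pow_of_le_one ht0.le ht1 (by omega)
  have hexp : (t + 1) ^ (2 ^ n) ≤ Real.exp ((2 : ℝ) ^ n / (n : ℝ) ^ 4) := by
    have h1 : (t + 1) ^ (2 ^ n) ≤ (Real.exp t) ^ (2 ^ n) :=
      pow_le_pow_left₀ (by linarith) (Real.add_one_le_exp t) _
    have h2 : (Real.exp t) ^ (2 ^ n) = Real.exp ((2 : ℝ) ^ n / (n : ℝ) ^ 4) := by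
      rw [← Real.exp_nat_mul, ht]
      congr 1
      push_cast
      rw [div_eq_mul_inv]
    exact h1.trans h2.le
  have hfin : t ^ k * (SB n k : ℝ) ≤ Real.exp ((2 : ℝ) ^ n / (n : ℝ) ^ 4) :=
    hlow.trans (hle.trans hexp)
  have hn4k : (n : ℝ) ^ (4 * k) * t ^ k = 1 := by
    rw [pow_mul, ← mul_pow, ht, mul_inv_cancel₀ (by positivity), one_pow]
  calc (SB n k : ℝ) = (n : ℝ) ^ (4 * k) * (t ^ k * (SB n k : ℝ)) := by
        rw [← mul_assoc, hn4k, one_mul]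
    _ ≤ (n : ℝ) ^ (4 * k) * Real.exp ((2 : ℝ) ^ n / (n : ℝ) ^ 4) :=
        mul_le_mul_of_nonneg_left hfin (by positivity)

end Pool.Agent.Helper46.AN.E2
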