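import Pool.Agent.Helper46.A.NDefs

set_option autoImplicit false

namespace Pool.Agent.Helper46.AN.E3

open Finset Filter

theorem h400_N0 (n : ℕ) : (2 : ℝ) ^ n ≤ ((n : ℝ) + 1) * (N0 n : ℝ) := by
  have h1 : 2 ^ n ≤ (n + 1) * N0 n := by
    rw [← Nat.sum_range_choose n]
    refine (Finset.sum_le_card_nsmul _ _ (N0 n) (fun m _ => Nat.choose_le_middle m n)).trans ?_
    rw [Finset.card_range, smul_eq_mul]
  exact_mod_cast h1

theorem h400_pow6 : ∀ᶠ n : ℕ in atTop, (n : ℝ) ^ 6 ≤ (2 : ℝ) ^ n := by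
  have h := tendsto_pow_const_div_const_pow_of_one_lt 6 (r := (2:ℝ)) (by norm_num)
  have h2 := h.eventually (gt_mem_nhds (zero_lt_one))
  filter_upwards [h2] with n hn
  rw [div_lt_one (by positivity)] at hn
  exact hn.le

theorem h400_log : ∀ᶠ n : ℕ in atTop, 2608 * Real.log (n : ℝ) ≤ Real.sqrt (n : ℝ) := by
  have h := (isLittleO_log_rpow_atTop (show (0:ℝ) < 1 / 2 by norm_num)).def
    (show (0:ℝ) < 1 / 2608 by norm_num)
  have h2 := tendsto_natCast_atTop_atTop (R := ℝ) |>.eventually h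
  filter_upwards [h2, eventually_ge_atTop 1] with n hn hn1
  have hn1' : (1:ℝ) ≤ n := by exact_mod_cast hn1
  rw [Real.norm_eq_abs, abs_of_nonneg (Real.log_nonneg hn1'), Real.norm_eq_abs,
    abs_of_nonneg (by positivity), ← Real.sqrt_eq_rpow] at hn
  linarith

theorem h400_two_pow (k : ℕ) : (2:ℝ) ^ k = Real.exp (k * Real.log 2) := by
  rw [Real.exp_nat_mul, Real.exp_log (by norm_num)]

theorem h400_div_lt (a b : ℕ) (hb : 0 < b) : (a : ℝ) < b * ((a / b : ℕ) : ℝ) + b := by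
  have h1 := Nat.div_add_mod a b
  have h2 := Nat.mod_lt a hb
  have h3 : a < b * (a / b) + b := by omega
  exact_mod_cast h3

theorem h400_main (x N F J K l r P : ℝ) (hx : 1 ≤ x) (hN : 0 ≤ N) (hr : r ^ 2 = x) (hr0 : 0 < r)
    (hl : 1 ≤ l) (hlr : 2608 * l ≤ r) (hF0 : 0 ≤ F) (hF : F * x ^ 3 ≤ N)
    (hP : P ≤ (x + 1) * N) (hJ0 : 0 ≤ J) (hJ : J * x ^ 2 ≤ 162 * N)
    (hx2 : (x ^ 2 + x + 2) * x ^ 2 ≤ N) (hK0 : 0 ≤ K) (hK : N ≤ (K + 1) * (x * r)) :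
    2 * (F * Real.log 2) + 2 * (4 * J * l + P / x ^ 4) + (x ^ 2 + x + 2) * Real.log 2 ≤
      K * Real.log 2 := by
  have hx0 : 0 < x := by linarith
  have hlog1 : Real.log 2 ≤ 1 := by
    have := Real.log_two_lt_d9
    linarith
  have hlog2 : 1 / 2 ≤ Real.log 2 := by
    have := Real.log_two_gt_d9
    linarith
  obtain ⟨u, hu⟩ : ∃ u, u = N / x ^ 2 := ⟨_, rfl⟩
  have hNu : N = u * x ^ 2 := by
    rw [hu]
    field_simp
  have hu1 : x ^ 2 + x + 2 ≤ u := by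
    rw [hu, le_div_iff₀ (by positivity)]
    exact hx2
  have hu0 : 0 < u := lt_of_lt_of_le (by positivity) hu1
  have a1 : F ≤ u := by
    have h1 : F * x ^ 3 ≤ u * x ^ 3 := by
      refine hF.trans ?_
      rw [hNu]
      apply mul_le_mul_of_nonneg_left _ hu0.le
      calc x ^ 2 = x ^ 2 * 1 := (mul_one _).symm
        _ ≤ x ^ 2 * x := mul_le_mul_of_nonneg_left hx (by positivity)
        _ = x ^ 3 := by ring
    exact le_of_mul_le_mul_right h1 (by positivity)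
  have a2 : J ≤ 162 * u := by
    have h1 : J * x ^ 2 ≤ 162 * u * x ^ 2 := by
      rw [hNu] at hJ
      linarith
    exact le_of_mul_le_mul_right h1 (by positivity)
  have a3 : P / x ^ 4 ≤ 2 * u := by
    rw [div_le_iff₀ (by positivity)]
    calc P ≤ (x + 1) * N := hP
      _ = (x + 1) * (u * x ^ 2) := by rw [hNu]
      _ ≤ (2 * x ^ 2) * (u * x ^ 2) := by
          apply mul_le_mul_of_nonneg_right _ (by positivity)
          nlinarith
      _ = 2 * u * x ^ 4 := by ring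
  have a4 : u * r ≤ K + 1 := by
    have h1 : u * r * (x * r) ≤ (K + 1) * (x * r) := by
      calc u * r * (x * r) = u * x * r ^ 2 := by ring
        _ = N := by rw [hr, hNu]; ring
        _ ≤ (K + 1) * (x * r) := hK
    exact le_of_mul_le_mul_right h1 (by positivity)
  have b1 : 2 * (F * Real.log 2) ≤ 2 * u := by
    have : F * Real.log 2 ≤ u * 1 := mul_le_mul a1 hlog1 (by linarith) hu0.le
    linarith
  have b2 : 4 * J * l ≤ 648 * (u * l) := by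
    have : J * l ≤ 162 * u * l := mul_le_mul_of_nonneg_right a2 (by linarith)
    linarith
  have b3 : (x ^ 2 + x + 2) * Real.log 2 ≤ u := by
    calc (x ^ 2 + x + 2) * Real.log 2 ≤ (x ^ 2 + x + 2) * 1 :=
          mul_le_mul_of_nonneg_left hlog1 (by positivity)
      _ ≤ u := by linarith
  have b4 : K * (1 / 2) ≤ K * Real.log 2 := mul_le_mul_of_nonneg_left hlog2 hK0
  have b5 : u * (2608 * l) ≤ u * r := mul_le_mul_of_nonneg_left hlr hu0.le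
  have b6 : u * 1 ≤ u * l := mul_le_mul_of_nonneg_left hl hu0.le
  have b7 : 1 ≤ u := by nlinarith
  linarith

theorem num1 (htail : ∀ᶠ n : ℕ in atTop, (Fs n : ℝ) * (n : ℝ) ^ 3 ≤ (N0 n : ℝ))
    (hSB : ∀ n k : ℕ, 1 ≤ n → (SB n k : ℝ) ≤ (n : ℝ) ^ (4 * k) * Real.exp ((2 : ℝ) ^ n / (n : ℝ) ^ 4)) :
    ∀ᶠ n : ℕ in atTop, ((2 : ℝ) ^ (Fs n)) ^ 2 * ((SB n (2 * N0 n / (n / 8) ^ 2) : ℕ) : ℝ) ^ 2 *
      (2 : ℝ) ^ (n ^ 2 + n + 2) ≤ (2 : ℝ) ^ (Kn n) := by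
  have hlog1 : ∀ᶠ n : ℕ in atTop, 1 ≤ Real.log (n : ℝ) :=
    (Real.tendsto_log_atTop.comp tendsto_natCast_atTop_atTop).eventually_ge_atTop 1
  filter_upwards [htail, h400_pow6, h400_log, hlog1, eventually_ge_atTop 100] with n h1 h2 h3 h4 h5
  have hx : (100 : ℝ) ≤ n := by exact_mod_cast h5
  have hx0 : (0:ℝ) < n := by linarith
  have hn0 : 1 ≤ n := by omega
  have hN := h400_N0 n
  obtain ⟨J, hJ⟩ : ∃ J : ℕ, J = 2 * N0 n / (n / 8) ^ 2 := ⟨_, rfl⟩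
  have hJ2 : (J : ℝ) * (n : ℝ) ^ 2 ≤ 162 * (N0 n : ℝ) := by
    have e1 : J * (n / 8) ^ 2 ≤ 2 * N0 n := by
      rw [hJ]
      exact Nat.div_mul_le_self _ _
    have e2 : (J : ℝ) * ((n / 8 : ℕ) : ℝ) ^ 2 ≤ 2 * (N0 n : ℝ) := by exact_mod_cast e1
    have e3 : n ≤ 9 * (n / 8) := by omega
    have e4 : (n : ℝ) ≤ 9 * ((n / 8 : ℕ) : ℝ) := by exact_mod_cast e3
    have e5 : (n : ℝ) ^ 2 ≤ (9 * ((n / 8 : ℕ) : ℝ)) ^ 2 := pow_le_pow_left₀ hx0.le e4 2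
    calc (J : ℝ) * (n : ℝ) ^ 2 ≤ J * (9 * ((n / 8 : ℕ) : ℝ)) ^ 2 :=
          mul_le_mul_of_nonneg_left e5 (Nat.cast_nonneg _)
      _ = 81 * (J * ((n / 8 : ℕ) : ℝ) ^ 2) := by ring
      _ ≤ 81 * (2 * (N0 n : ℝ)) := mul_le_mul_of_nonneg_left e2 (by norm_num)
      _ = 162 * (N0 n : ℝ) := by ring
  have hsq : 0 < Nat.sqrt n := Nat.sqrt_pos.mpr (by omega)
  have hK : (N0 n : ℝ) ≤ ((Kn n : ℝ) + 1) * ((n : ℝ) * Real.sqrt n) := by
    have e1 := h400_div_lt (N0 n) (n * Nat.sqrt n) (Nat.mul_pos (by omega) hsq)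
    have e2 : ((n * Nat.sqrt n : ℕ) : ℝ) ≤ (n : ℝ) * Real.sqrt n := by
      push_cast
      exact mul_le_mul_of_nonneg_left (Real.nat_sqrt_le_real_sqrt) hx0.le
    have e3 : (0:ℝ) ≤ (Kn n : ℝ) + 1 := by positivity
    calc (N0 n : ℝ) ≤ ((n * Nat.sqrt n : ℕ) : ℝ) * ((Kn n : ℕ) : ℝ) + ((n * Nat.sqrt n : ℕ) : ℝ) :=
          e1.le
      _ = ((Kn n : ℝ) + 1) * ((n * Nat.sqrt n : ℕ) : ℝ) := by ring
      _ ≤ _ := mul_le_mul_of_nonneg_left e2 e3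
  have hx2 : ((n : ℝ) ^ 2 + n + 2) * (n : ℝ) ^ 2 ≤ N0 n := by
    have e1 : ((n : ℝ) ^ 2 + n + 2) * (n : ℝ) ^ 2 * ((n : ℝ) + 1) ≤ (N0 n : ℝ) * ((n : ℝ) + 1) := by
      calc ((n : ℝ) ^ 2 + n + 2) * (n : ℝ) ^ 2 * ((n : ℝ) + 1)
          ≤ (2 * (n : ℝ) ^ 2) * (n : ℝ) ^ 2 * (2 * (n : ℝ)) := by
            apply mul_le_mul _ (by linarith) (by positivity) (by positivity)
            apply mul_le_mul_of_nonneg_right _ (by positivity)
            nlinarith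
        _ = 4 * (n : ℝ) ^ 5 := by ring
        _ ≤ (n : ℝ) * (n : ℝ) ^ 5 := mul_le_mul_of_nonneg_right (by linarith) (by positivity)
        _ = (n : ℝ) ^ 6 := by ring
        _ ≤ (2 : ℝ) ^ n := h2
        _ ≤ ((n : ℝ) + 1) * (N0 n : ℝ) := hN
        _ = _ := mul_comm _ _
    exact le_of_mul_le_mul_right e1 (by positivity)
  have hmain := h400_main (n : ℝ) (N0 n : ℝ) (Fs n : ℝ) (J : ℝ) (Kn n : ℝ) (Real.log n)
    (Real.sqrt n) ((2:ℝ) ^ n) (by linarith) (Nat.cast_nonneg _) (Real.sq_sqrt hx0.le)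
    (Real.sqrt_pos.mpr hx0) h4 h3 (Nat.cast_nonneg _) h1 hN (Nat.cast_nonneg _) hJ2 hx2
    (Nat.cast_nonneg _) hK
  have hS := hSB n J hn0
  rw [← hJ]
  have hnpow : (n : ℝ) ^ (4 * J) = Real.exp (4 * J * Real.log n) := by
    have : (4 * (J:ℝ) * Real.log n) = ((4 * J : ℕ) : ℝ) * Real.log n := by push_cast; ring
    rw [this, Real.exp_nat_mul, Real.exp_log hx0]
  calc ((2 : ℝ) ^ (Fs n)) ^ 2 * ((SB n J : ℕ) : ℝ) ^ 2 * (2 : ℝ) ^ (n ^ 2 + n + 2)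
      ≤ ((2 : ℝ) ^ (Fs n)) ^ 2 * ((n : ℝ) ^ (4 * J) * Real.exp ((2 : ℝ) ^ n / (n : ℝ) ^ 4)) ^ 2 *
          (2 : ℝ) ^ (n ^ 2 + n + 2) := by
        apply mul_le_mul_of_nonneg_right _ (by positivity)
        apply mul_le_mul_of_nonneg_left _ (by positivity)
        exact pow_le_pow_left₀ (Nat.cast_nonneg _) hS 2
    _ = Real.exp (2 * ((Fs n : ℝ) * Real.log 2) +
          2 * (4 * J * Real.log n + (2 : ℝ) ^ n / (n : ℝ) ^ 4) +
          ((n : ℝ) ^ 2 + n + 2) * Real.log 2) := by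
        rw [h400_two_pow (Fs n), h400_two_pow (n ^ 2 + n + 2), hnpow, ← Real.exp_add,
          ← Real.exp_nat_mul, ← Real.exp_nat_mul, ← Real.exp_add, ← Real.exp_add]
        congr 1
        push_cast
        ring
    _ ≤ Real.exp ((Kn n : ℝ) * Real.log 2) := Real.exp_le_exp.mpr hmain
    _ = (2 : ℝ) ^ (Kn n) := (h400_two_pow _).symm

end Pool.Agent.Helper46.AN.E3
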