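import Pool.Agent.Helper46.A.NDefs

set_option autoImplicit false

namespace Pool.Agent.Helper46.AN.E5

open Finset Filter

theorem two_pow_le_N0 (n : ℕ) : (2 : ℝ) ^ n ≤ (n + 1) * (N0 n : ℝ) := by
  have h1 : 2 ^ n ≤ (n + 1) * N0 n := by
    rw [← Nat.sum_range_choose]
    calc ∑ m ∈ range (n + 1), n.choose m ≤ ∑ m ∈ range (n + 1), N0 n :=
          sum_le_sum fun m _ => Nat.choose_le_middle m n
      _ = (n + 1) * N0 n := by simp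
  exact_mod_cast h1

theorem num3 (htail : ∀ᶠ n : ℕ in atTop, (Fs n : ℝ) * (n : ℝ) ^ 3 ≤ (N0 n : ℝ)) :
    ∀ᶠ n : ℕ in atTop, (2 : ℝ) ^ (Fs n) * (2 : ℝ) ^ (n ^ 2 + n + 2) ≤ (2 : ℝ) ^ ((N0 n : ℝ) / n) ∧
      (2 : ℝ) ^ ((3 : ℝ) / 5 * ((N0 n : ℝ) / n)) * (2 : ℝ) ^ ((N0 n : ℝ) / n / 500) ≤
        (2 : ℝ) ^ ((N0 n : ℝ) / n) ∧
      (25 / 2 : ℝ) * (2 : ℝ) ^ ((N0 n : ℝ) / n / 500) ≤
        (2 : ℝ) ^ ((2 / 25 : ℝ) * (7 / 64) * (1 / 4) * ((N0 n : ℝ) / n)) := by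
  have h5 : ∀ᶠ n : ℕ in atTop, (n : ℝ) ^ 5 / (2 : ℝ) ^ n < 1 :=
    (tendsto_pow_const_div_const_pow_of_one_lt 5 (one_lt_two : (1 : ℝ) < 2)).eventually_lt_const
      zero_lt_one
  filter_upwards [htail, h5, eventually_ge_atTop 1000] with n ht h5 hn
  have hn' : (1000 : ℝ) ≤ n := by exact_mod_cast hn
  have hnpos : (0 : ℝ) < n := by linarith
  have h5' : (n : ℝ) ^ 5 ≤ (2 : ℝ) ^ n := by
    rw [div_lt_one (by positivity)] at h5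
    exact h5.le
  have h6 := two_pow_le_N0 n
  obtain ⟨X, hX⟩ : ∃ X : ℝ, X = (N0 n : ℝ) / n := ⟨_, rfl⟩
  have hN : (N0 n : ℝ) = n * X := by
    rw [hX]
    field_simp
  have h7 : 2 * ((n : ℝ) ^ 2 + n + 2) + 100000 ≤ X := by
    rw [hN] at h6
    have h8 : (n : ℝ) ^ 5 ≤ (n + 1) * (n * X) := h5'.trans h6
    by_contra hcon
    push Not at hcon
    have h9 : ((n : ℝ) + 1) * (n * X) < (n + 1) * (n * (2 * ((n : ℝ) ^ 2 + n + 2) + 100000)) := by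
      have : (n : ℝ) * X < n * (2 * ((n : ℝ) ^ 2 + n + 2) + 100000) :=
        mul_lt_mul_of_pos_left hcon hnpos
      exact mul_lt_mul_of_pos_left this (by linarith)
    have h10 : 2 * ((n : ℝ) ^ 2 + n + 2) + 100000 ≤ 3 * (n : ℝ) ^ 2 := by nlinarith
    have h11 : ((n : ℝ) + 1) * n ≤ 2 * (n : ℝ) ^ 2 := by nlinarith
    have h12 : ((n : ℝ) + 1) * (n * (2 * ((n : ℝ) ^ 2 + n + 2) + 100000)) ≤
        2 * (n : ℝ) ^ 2 * (3 * (n : ℝ) ^ 2) := by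
      calc ((n : ℝ) + 1) * (n * (2 * ((n : ℝ) ^ 2 + n + 2) + 100000)) =
            (((n : ℝ) + 1) * n) * (2 * ((n : ℝ) ^ 2 + n + 2) + 100000) := by ring
        _ ≤ 2 * (n : ℝ) ^ 2 * (3 * (n : ℝ) ^ 2) := by
          apply mul_le_mul h11 h10 (by positivity) (by positivity)
    have h13 : 2 * (n : ℝ) ^ 2 * (3 * (n : ℝ) ^ 2) ≤ (n : ℝ) ^ 5 := by
      have h14 : 2 * (n : ℝ) ^ 2 * (3 * (n : ℝ) ^ 2) = 6 * (n : ℝ) ^ 4 := by ring
      have h15 : (n : ℝ) ^ 5 = n * (n : ℝ) ^ 4 := by ring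
      rw [h14, h15]
      exact mul_le_mul_of_nonneg_right (by linarith) (by positivity)
    linarith
  have hXpos : (0 : ℝ) ≤ X := by nlinarith
  rw [← hX]
  refine ⟨?_, ?_, ?_⟩
  · rw [← pow_add, ← Real.rpow_natCast]
    apply Real.rpow_le_rpow_of_exponent_le (by norm_num)
    push_cast
    rw [hN] at ht
    have h8 : (Fs n : ℝ) * (n : ℝ) ^ 2 ≤ X := by
      have h9 : (n : ℝ) * ((Fs n : ℝ) * (n : ℝ) ^ 2) ≤ n * X := by
        calc (n : ℝ) * ((Fs n : ℝ) * (n : ℝ) ^ 2) = (Fs n : ℝ) * (n : ℝ) ^ 3 := by ring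
          _ ≤ n * X := ht
      exact le_of_mul_le_mul_left h9 hnpos
    have h10 : (2 : ℝ) * Fs n ≤ (Fs n : ℝ) * (n : ℝ) ^ 2 := by
      have h11 : (0 : ℝ) ≤ Fs n := Nat.cast_nonneg _
      have h12 : (2 : ℝ) ≤ (n : ℝ) ^ 2 := by nlinarith
      rw [mul_comm (2 : ℝ)]
      exact mul_le_mul_of_nonneg_left h12 h11
    nlinarith
  · rw [← Real.rpow_add (by norm_num)]
    apply Real.rpow_le_rpow_of_exponent_le (by norm_num)
    linarith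
  · have h8 : (25 / 2 : ℝ) ≤ (2 : ℝ) ^ (4 : ℝ) := by
      have : (2 : ℝ) ^ (4 : ℝ) = 16 := by
        rw [show (4 : ℝ) = ((4 : ℕ) : ℝ) by norm_num, Real.rpow_natCast]
        norm_num
      rw [this]
      norm_num
    calc (25 / 2 : ℝ) * (2 : ℝ) ^ (X / 500) ≤ (2 : ℝ) ^ (4 : ℝ) * (2 : ℝ) ^ (X / 500) :=
          mul_le_mul_of_nonneg_right h8 (by positivity)
      _ = (2 : ℝ) ^ (4 + X / 500) := by rw [← Real.rpow_add (by norm_num)]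
      _ ≤ _ := by
        apply Real.rpow_le_rpow_of_exponent_le (by norm_num)
        nlinarith

end Pool.Agent.Helper46.AN.E5
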