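import Pool.Agent.Helper46.A.Defs

set_option autoImplicit false

namespace Pool.Agent.Helper46.A.E6

open Finset

noncomputable def tt (a θ : ℝ) (x : ℕ) : ℝ := if (x : ℝ) ≤ a then 0 else Real.log (x / a) / θ + 1

theorem avg_core (C D κ m : ℝ) (N : ℕ) (hN : (N : ℝ) = C) (hC : m ^ 2 / 100 ≤ C) (hD0 : 1 ≤ D)
    (hDm : D ≤ m) (hκ : m / 10 ≤ κ) (hlog : Real.log m ≤ m / 4400) (hm4 : 4000 ≤ m) :
    ((1 + (1 / 10 : ℝ)) * (C / D)) / 2 +
      tt ((1 + (1 / 10 : ℝ)) * (C / D)) (((1 / 10 : ℝ) / (1 + (1 / 10 : ℝ))) * (κ * D / C)) N ≤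
      3 / 5 * (C / D) := by
  have hm : 0 < m := by linarith
  have hD : 0 < D := by linarith
  have hC0 : 0 < C := by
    have : 0 < m ^ 2 / 100 := by positivity
    linarith
  have hκ0 : 0 < κ := by linarith
  have hCD : 0 < C / D := by positivity
  unfold tt
  rw [hN]
  split_ifs with hc
  · linarith
  · have hθ : 0 < ((1 / 10 : ℝ) / (1 + (1 / 10 : ℝ))) * (κ * D / C) := by positivity
    have h1 : C / ((1 + (1 / 10 : ℝ)) * (C / D)) = 10 / 11 * D := by
      field_simp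
      norm_num
    have h2 : Real.log (C / ((1 + (1 / 10 : ℝ)) * (C / D))) ≤ Real.log m := by
      rw [h1]
      apply Real.log_le_log (by positivity)
      linarith
    have h3 : Real.log (C / ((1 + (1 / 10 : ℝ)) * (C / D))) /
        (((1 / 10 : ℝ) / (1 + (1 / 10 : ℝ))) * (κ * D / C)) ≤ (C / D) / 40 := by
      rw [div_le_iff₀ hθ]
      have h4 : (C / D) / 40 * (((1 / 10 : ℝ) / (1 + (1 / 10 : ℝ))) * (κ * D / C)) = κ / 440 := by
        field_simp
        norm_num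
      rw [h4]
      linarith
    have h5 : 1 ≤ (C / D) / 40 := by
      rw [le_div_iff₀ (by norm_num), le_div_iff₀ hD]
      nlinarith
    linarith

theorem choose_ge_mul : ∀ n a b : ℕ, a + b = n → a * b + 1 ≤ n.choose a := by
  intro n
  induction n with
  | zero =>
    intro a b h
    obtain ⟨rfl, rfl⟩ : a = 0 ∧ b = 0 := by omega
    simp
  | succ n ih =>
    intro a b h
    rcases a with _ | a
    · simp
    · rcases b with _ | b
      · have : a + 1 = n + 1 := by omega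
        rw [this]
        simp
      · rw [Nat.choose_succ_succ]
        have h1 := ih a (b + 1) (by omega)
        have h2 := ih (a + 1) b (by omega)
        nlinarith

open Filter in
/-- average size of stable families, from the container lemma `kw` and supersaturation -/
theorem avg : ∀ᶠ m : ℕ in atTop, ∀ (n : ℕ) (G : Finset (Fin n)), G.card = m → ∀ k : ℕ,
    m ≤ 10 * k → 10 * k ≤ 9 * m →
    (∀ (a θ : ℝ), 0 < a → 0 < θ → ∀ V : Fam n,
      (∀ A ⊆ V, a < (A.card : ℝ) →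
        ∃ v ∈ A, θ * (A.card : ℝ) ≤ ((A.filter (fun u => Adj v u)).card : ℝ)) →
      (∑ R ∈ St V, (R.card : ℝ)) ≤ (a / 2 + tt a θ V.card) * ((St V).card : ℝ)) →
    (∀ A : Fam n, A ⊆ powersetCard k G →
      (1 + (1 / 10 : ℝ)) * ((G.card.choose k : ℝ) / ((G.card : ℝ) - k + 1)) < (A.card : ℝ) →
      ∃ v ∈ A, ((1 / 10 : ℝ) / (1 + (1 / 10 : ℝ))) *
        ((k : ℝ) * ((G.card : ℝ) - k + 1) / (G.card.choose k : ℝ)) *
      (A.card : ℝ) ≤ ((A.filter (fun u => Adj v u)).card : ℝ)) →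
    (∀ A : Fam n, A ⊆ powersetCard k G →
      (1 + (1 / 10 : ℝ)) * ((G.card.choose k : ℝ) / ((k : ℝ) + 1)) < (A.card : ℝ) →
      ∃ v ∈ A, ((1 / 10 : ℝ) / (1 + (1 / 10 : ℝ))) *
        (((G.card : ℝ) - k) * ((k : ℝ) + 1) / (G.card.choose k : ℝ)) *
      (A.card : ℝ) ≤ ((A.filter (fun u => Adj v u)).card : ℝ)) →
    (∑ R ∈ St (powersetCard k G), (R.card : ℝ)) ≤
      (3 / 5 * ((G.card.choose k : ℝ) / ((G.card : ℝ) - k + 1))) *
        ((St (powersetCard k G)).card : ℝ) ∧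
    (∑ R ∈ St (powersetCard k G), (R.card : ℝ)) ≤
      (3 / 5 * ((G.card.choose k : ℝ) / ((k : ℝ) + 1))) *
        ((St (powersetCard k G)).card : ℝ) := by
  have hl : ∀ᶠ x : ℝ in atTop, Real.log x ≤ x / 4400 := by
    have h1 := Real.isLittleO_log_id_atTop.def (show (0 : ℝ) < 1 / 4400 by norm_num)
    filter_upwards [h1, eventually_ge_atTop 0] with x hx hx0
    have h2 : Real.log x ≤ ‖Real.log x‖ := le_abs_self _
    have h3 : ‖(id x : ℝ)‖ = x := by
      rw [Real.norm_eq_abs]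
      exact abs_of_nonneg hx0
    rw [h3] at hx
    linarith
  have hl' : ∀ᶠ m : ℕ in atTop, Real.log (m : ℝ) ≤ (m : ℝ) / 4400 :=
    tendsto_natCast_atTop_atTop.eventually hl
  filter_upwards [hl', eventually_ge_atTop 4000] with m hlog hm4
  intro n G hG k hk1 hk2 hkw hs1 hs2
  rw [hG] at hs1 hs2 ⊢
  have hkm : k ≤ m := by omega
  obtain ⟨b, hb⟩ : ∃ b, m = k + b := ⟨m - k, by omega⟩
  have hC : ((m : ℝ)) ^ 2 / 100 ≤ (m.choose k : ℝ) := by
    have h1 := choose_ge_mul m k b hb.symm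
    have h2 : ((k * b + 1 : ℕ) : ℝ) ≤ (m.choose k : ℝ) := by exact_mod_cast h1
    push_cast at h2
    have h3 : (m : ℝ) ≤ 10 * k := by exact_mod_cast hk1
    have h4 : (m : ℝ) ≤ 10 * b := by
      have : m ≤ 10 * b := by omega
      exact_mod_cast this
    have h5 : (0 : ℝ) ≤ m := Nat.cast_nonneg m
    nlinarith
  have hcard : (powersetCard k G).card = m.choose k := by
    rw [card_powersetCard, hG]
  have hmR : (4000 : ℝ) ≤ m := by exact_mod_cast hm4
  have hC0 : (0 : ℝ) < (m.choose k : ℝ) := by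
    have : (0 : ℝ) < (m : ℝ) ^ 2 / 100 := by positivity
    linarith
  have hk1R : (m : ℝ) ≤ 10 * k := by exact_mod_cast hk1
  have hk2R : 10 * (k : ℝ) ≤ 9 * m := by exact_mod_cast hk2
  have hk0 : (1 : ℝ) ≤ k := by linarith
  have hSt : (0 : ℝ) ≤ ((St (powersetCard k G)).card : ℝ) := Nat.cast_nonneg _
  constructor
  · have hD0 : (1 : ℝ) ≤ (m : ℝ) - k + 1 := by linarith
    have h1 := hkw ((1 + (1 / 10 : ℝ)) * ((m.choose k : ℝ) / ((m : ℝ) - k + 1)))
      (((1 / 10 : ℝ) / (1 + (1 / 10 : ℝ))) * ((k : ℝ) * ((m : ℝ) - k + 1) / (m.choose k : ℝ)))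
      (by positivity) (by positivity) (powersetCard k G) hs1
    refine h1.trans (mul_le_mul_of_nonneg_right ?_ hSt)
    exact avg_core (m.choose k : ℝ) ((m : ℝ) - k + 1) k m _ (by rw [hcard]) hC hD0
      (by linarith) (by linarith) hlog hmR
  · have hD0 : (1 : ℝ) ≤ (k : ℝ) + 1 := by linarith
    have hκ : (m : ℝ) / 10 ≤ (m : ℝ) - k := by linarith
    have hκ0 : (0 : ℝ) < (m : ℝ) - k := by linarith
    have h1 := hkw ((1 + (1 / 10 : ℝ)) * ((m.choose k : ℝ) / ((k : ℝ) + 1)))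
      (((1 / 10 : ℝ) / (1 + (1 / 10 : ℝ))) *
        (((m : ℝ) - k) * ((k : ℝ) + 1) / (m.choose k : ℝ)))
      (by positivity) (by positivity) (powersetCard k G) hs2
    refine h1.trans (mul_le_mul_of_nonneg_right ?_ hSt)
    exact avg_core (m.choose k : ℝ) ((k : ℝ) + 1) ((m : ℝ) - k) m _ (by rw [hcard]) hC hD0
      (by linarith) hκ hlog hmR

end Pool.Agent.Helper46.A.E6
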