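import Pool.Agent.Helper46.A.Defs

set_option autoImplicit false

namespace Pool.Agent.Helper46.A.E7

open Finset

noncomputable def tt (a θ : ℝ) (x : ℕ) : ℝ := if (x : ℝ) ≤ a then 0 else Real.log (x / a) / θ + 1

theorem s_core (n : ℕ) (c N : ℕ) (D k : ℝ) (hc : 0 < c) (hcN : 4 * c < N)
    (hN : (n : ℝ) * (n - 1) / 2 ≤ N) (hD1 : (n : ℝ) / 2 ≤ D) (hD2 : D ≤ n) (hk : (n : ℝ) / 8 ≤ k)
    (hn : 8 ≤ n) (E1 : Real.log n ^ 2 ≤ 1 / 17600 * n) (E2 : 800 * Real.log n ≤ n - 1) :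
    (2 : ℝ) ^ ((1 + (1 / 10 : ℝ)) * ((c : ℝ) / D)) *
      ((n : ℝ) ^ 4) ^ (tt ((1 + (1 / 10 : ℝ)) * ((c : ℝ) / D))
        (((1 / 10 : ℝ) / (1 + (1 / 10 : ℝ))) * (k * D / (c : ℝ))) c) *
      (1 + 1 / (n : ℝ) ^ 4) ^ c ≤ (2 : ℝ) ^ ((3 : ℝ) / 5 * ((N : ℝ) / n)) := by
  have hn' : (8 : ℝ) ≤ n := by exact_mod_cast hn
  have hn0 : (0 : ℝ) < n := by linarith
  have hc' : (0 : ℝ) < c := by exact_mod_cast hc
  have hcN' : 4 * (c : ℝ) ≤ N := by exact_mod_cast hcN.le
  have hD0 : 0 < D := by linarith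
  have hk0 : 0 < k := by linarith
  have hN0 : (0 : ℝ) < N := by linarith
  set L := Real.log n with hL
  have hL0 : 0 ≤ L := Real.log_nonneg (by linarith)
  set a := (1 + (1 / 10 : ℝ)) * ((c : ℝ) / D) with ha
  set θ := ((1 / 10 : ℝ) / (1 + (1 / 10 : ℝ))) * (k * D / (c : ℝ)) with hθ
  have ha0 : 0 < a := by positivity
  have hθ0 : 0 < θ := by positivity
  have hT : tt a θ c ≤ 176 * c * L / n ^ 2 + 1 := by
    unfold tt
    split_ifs with h
    · positivity
    · have h1 : Real.log (c / a) ≤ L := by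
        apply Real.log_le_log (by positivity)
        rw [ha, div_le_iff₀ (by positivity)]
        have : (n : ℝ) * ((1 + 1 / 10) * (c / D)) = (11 / 10 * c) * (n / D) := by
          field_simp
          ring
        rw [this]
        have h2 : 1 ≤ (n : ℝ) / D := by
          rw [le_div_iff₀ hD0]
          linarith
        nlinarith
      have h3 : L / θ ≤ 176 * c * L / n ^ 2 := by
        rw [div_le_div_iff₀ hθ0 (by positivity)]
        have h4 : (n : ℝ) ^ 2 ≤ 176 * c * θ := by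
          have h5 : 176 * c * θ = 16 * (k * D) := by
            rw [hθ]
            field_simp
            ring
          rw [h5]
          have h6 : (n : ℝ) / 8 * (n / 2) ≤ k * D :=
            mul_le_mul hk hD1 (by positivity) hk0.le
          nlinarith
        nlinarith
      have h7 : Real.log (c / a) / θ ≤ L / θ := div_le_div_of_nonneg_right h1 hθ0.le
      linarith
  have hlam : (1 : ℝ) ≤ (n : ℝ) ^ 4 := one_le_pow₀ (by linarith)
  have hB : ((n : ℝ) ^ 4) ^ (tt a θ c) ≤ Real.exp (4 * L * (176 * c * L / n ^ 2 + 1)) := by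
    calc ((n : ℝ) ^ 4) ^ (tt a θ c) ≤ ((n : ℝ) ^ 4) ^ (176 * c * L / n ^ 2 + 1) :=
          Real.rpow_le_rpow_of_exponent_le hlam hT
      _ = Real.exp (4 * L * (176 * c * L / n ^ 2 + 1)) := by
          rw [Real.rpow_def_of_pos (by positivity), Real.log_pow, ← hL]
          norm_num
  have hCc : (1 + 1 / (n : ℝ) ^ 4) ^ c ≤ Real.exp (c * (1 / (n : ℝ) ^ 4)) := by
    rw [Real.exp_nat_mul]
    apply pow_le_pow_left₀ (by positivity)
    have := Real.add_one_le_exp (1 / (n : ℝ) ^ 4)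
    linarith
  have hA : (2 : ℝ) ^ a = Real.exp (Real.log 2 * a) := Real.rpow_def_of_pos (by norm_num) _
  rw [hA, Real.rpow_def_of_pos (by norm_num : (0 : ℝ) < 2) ((3 : ℝ) / 5 * ((N : ℝ) / n))]
  calc Real.exp (Real.log 2 * a) * ((n : ℝ) ^ 4) ^ (tt a θ c) * (1 + 1 / (n : ℝ) ^ 4) ^ c
      ≤ Real.exp (Real.log 2 * a) * Real.exp (4 * L * (176 * c * L / n ^ 2 + 1)) *
        Real.exp (c * (1 / (n : ℝ) ^ 4)) := by gcongr
    _ = Real.exp (Real.log 2 * a + 4 * L * (176 * c * L / n ^ 2 + 1) +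
        c * (1 / (n : ℝ) ^ 4)) := by rw [Real.exp_add, Real.exp_add]
    _ ≤ _ := by
        apply Real.exp_le_exp.mpr
        have hl2 : 0.69 < Real.log 2 := by linarith [Real.log_two_gt_d9]
        have hY : 0 < (N : ℝ) / n := by positivity
        -- a
        have t1 : a ≤ 0.55 * ((N : ℝ) / n) := by
          have : (c : ℝ) / D ≤ (N / 4) / (n / 2) := by
            apply div_le_div₀ (by positivity) (by linarith) (by positivity) hD1
          rw [ha]
          calc (1 + 1 / 10) * ((c : ℝ) / D) ≤ (1 + 1 / 10) * ((N / 4) / (n / 2)) := by gcongr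
            _ = 0.55 * ((N : ℝ) / n) := by
              field_simp
              ring
        have t2 : Real.log 2 * a ≤ Real.log 2 * (0.55 * ((N : ℝ) / n)) :=
          mul_le_mul_of_nonneg_left t1 (by linarith)
        have t3 : 4 * L * (176 * c * L / n ^ 2) ≤ 0.01 * ((N : ℝ) / n) := by
          have e1 : 4 * L * (176 * c * L / n ^ 2) = (176 * (4 * c)) * (L ^ 2 / n ^ 2) := by ring
          rw [e1]
          have e2 : L ^ 2 / (n : ℝ) ^ 2 ≤ (1 / 17600) / n := by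
            rw [div_le_div_iff₀ (by positivity) hn0]
            nlinarith
          calc (176 * (4 * (c : ℝ))) * (L ^ 2 / n ^ 2) ≤ (176 * N) * ((1 / 17600) / n) := by
                gcongr
            _ = 0.01 * ((N : ℝ) / n) := by ring
        have t4 : 4 * L ≤ 0.01 * ((N : ℝ) / n) := by
          have : (n : ℝ) * (4 * L) * 100 ≤ N := by nlinarith
          have h2 : 4 * L * 100 ≤ (N : ℝ) / n := by
            rw [le_div_iff₀ hn0]
            linarith
          linarith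
        have t5 : (c : ℝ) * (1 / (n : ℝ) ^ 4) ≤ 0.01 * ((N : ℝ) / n) := by
          have e1 : (c : ℝ) * (1 / (n : ℝ) ^ 4) ≤ N * (1 / (n : ℝ) ^ 4) := by
            apply mul_le_mul_of_nonneg_right (by linarith) (by positivity)
          have e2 : 1 / (n : ℝ) ^ 4 ≤ 0.01 * (1 / n) := by
            have h3 : (100 : ℝ) ≤ (n : ℝ) ^ 3 := by
              have : (8 : ℝ) ^ 3 ≤ (n : ℝ) ^ 3 := pow_le_pow_left₀ (by norm_num) hn' 3
              linarith
            rw [div_le_iff₀ (by positivity)]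
            have : 0.01 * (1 / (n : ℝ)) * (n : ℝ) ^ 4 = 0.01 * (n : ℝ) ^ 3 := by
              field_simp
            rw [this]
            linarith
          calc (c : ℝ) * (1 / (n : ℝ) ^ 4) ≤ N * (1 / (n : ℝ) ^ 4) := e1
            _ ≤ N * (0.01 * (1 / n)) := by gcongr
            _ = 0.01 * ((N : ℝ) / n) := by ring
        have t6 : 0.03 * ((N : ℝ) / n) ≤ Real.log 2 * (0.05 * ((N : ℝ) / n)) := by
          nlinarith
        nlinarith

open Filter in
theorem s_ev : ∀ᶠ n : ℕ in atTop, 8 ≤ n ∧ Real.log (n : ℝ) ^ 2 ≤ 1 / 17600 * (n : ℝ) ∧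
    800 * Real.log (n : ℝ) ≤ (n : ℝ) - 1 := by
  have h1 : ∀ᶠ x : ℝ in atTop, ‖Real.log x ^ 2‖ ≤ 1 / 17600 * ‖(id x : ℝ)‖ :=
    (Real.isLittleO_pow_log_id_atTop (n := 2)).def (by norm_num)
  have h2 : ∀ᶠ x : ℝ in atTop, ‖Real.log x‖ ≤ 1 / 1600 * ‖(id x : ℝ)‖ :=
    Real.isLittleO_log_id_atTop.def (by norm_num)
  have h1' := tendsto_natCast_atTop_atTop.eventually h1
  have h2' := tendsto_natCast_atTop_atTop.eventually h2
  filter_upwards [h1', h2', eventually_ge_atTop 8] with n a1 a2 a3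
  have hn : (8 : ℝ) ≤ n := by exact_mod_cast a3
  refine ⟨a3, ?_, ?_⟩
  · rw [Real.norm_eq_abs, Real.norm_eq_abs, id, abs_of_nonneg (by linarith : (0 : ℝ) ≤ n)] at a1
    exact (le_abs_self _).trans a1
  · rw [Real.norm_eq_abs, Real.norm_eq_abs, id, abs_of_nonneg (by linarith : (0 : ℝ) ≤ n)] at a2
    have := (le_abs_self _).trans a2
    linarith

open Filter in
/-- number of stable families of `r`-sets when `choose n r` is small, from containers -/
theorem upper : ∀ᶠ n : ℕ in atTop, ∀ r : ℕ, n ≤ 8 * r → 8 * r ≤ 7 * n →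
    4 * n.choose r < n.choose (n / 2) →
    (∀ (a θ : ℝ), 0 < a → 0 < θ → ∀ V : Fam n,
      (∀ A ⊆ V, a < (A.card : ℝ) →
        ∃ v ∈ A, θ * (A.card : ℝ) ≤ ((A.filter (fun u => Adj v u)).card : ℝ)) →
      ∀ lam : ℝ, 1 ≤ lam →
      ((St V).card : ℝ) ≤ (2 : ℝ) ^ a * lam ^ (tt a θ V.card) * (1 + 1 / lam) ^ V.card) →
    (∀ A : Fam n, A ⊆ powersetCard r (univ : Finset (Fin n)) →
      (1 + (1 / 10 : ℝ)) * ((n.choose r : ℝ) / ((n : ℝ) - r + 1)) < (A.card : ℝ) →
      ∃ v ∈ A, ((1 / 10 : ℝ) / (1 + (1 / 10 : ℝ))) *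
        ((r : ℝ) * ((n : ℝ) - r + 1) / (n.choose r : ℝ)) *
      (A.card : ℝ) ≤ ((A.filter (fun u => Adj v u)).card : ℝ)) →
    (∀ A : Fam n, A ⊆ powersetCard r (univ : Finset (Fin n)) →
      (1 + (1 / 10 : ℝ)) * ((n.choose r : ℝ) / ((r : ℝ) + 1)) < (A.card : ℝ) →
      ∃ v ∈ A, ((1 / 10 : ℝ) / (1 + (1 / 10 : ℝ))) *
        (((n : ℝ) - r) * ((r : ℝ) + 1) / (n.choose r : ℝ)) *
      (A.card : ℝ) ≤ ((A.filter (fun u => Adj v u)).card : ℝ)) →
    ((St (powersetCard r (univ : Finset (Fin n)))).card : ℝ) ≤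
      (2 : ℝ) ^ ((3 : ℝ) / 5 * ((n.choose (n / 2) : ℝ) / n)) := by
  filter_upwards [s_ev] with n hev
  obtain ⟨hn8, E1, E2⟩ := hev
  intro r h1 h2 h3 hcont hrow hcol
  have hn' : (8 : ℝ) ≤ n := by exact_mod_cast hn8
  have hrn : r ≤ n := by omega
  have hc : 0 < n.choose r := Nat.choose_pos hrn
  have hN : (n : ℝ) * (n - 1) / 2 ≤ (n.choose (n / 2) : ℕ) := by
    have := Nat.choose_le_middle 2 n
    have h' : ((n.choose 2 : ℕ) : ℝ) ≤ (n.choose (n / 2) : ℕ) := by exact_mod_cast this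
    rw [Nat.cast_choose_two] at h'
    exact h'
  have hV : (powersetCard r (univ : Finset (Fin n))).card = n.choose r := by
    rw [card_powersetCard, card_univ, Fintype.card_fin]
  have hlam : (1 : ℝ) ≤ (n : ℝ) ^ 4 := one_le_pow₀ (by linarith)
  have hc' : (0 : ℝ) < n.choose r := by exact_mod_cast hc
  have h1' : (n : ℝ) ≤ 8 * r := by exact_mod_cast h1
  have h2' : 8 * (r : ℝ) ≤ 7 * n := by exact_mod_cast h2
  by_cases hr : 2 * r ≤ n
  · have hr' : 2 * (r : ℝ) ≤ n := by exact_mod_cast hr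
    have hD0 : (0 : ℝ) < (n : ℝ) - r + 1 := by linarith
    have hr0 : (0 : ℝ) < r := by linarith
    have key := hcont ((1 + (1 / 10 : ℝ)) * ((n.choose r : ℝ) / ((n : ℝ) - r + 1)))
      (((1 / 10 : ℝ) / (1 + (1 / 10 : ℝ))) *
        ((r : ℝ) * ((n : ℝ) - r + 1) / (n.choose r : ℝ))) (by positivity) (by positivity)
      (powersetCard r univ) (fun A hA hlt => hrow A hA hlt) ((n : ℝ) ^ 4) hlam
    rw [hV] at key
    refine key.trans ?_
    exact s_core n (n.choose r) (n.choose (n / 2)) ((n : ℝ) - r + 1) r hc h3 hN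
      (by linarith) (by linarith) (by linarith) hn8 E1 E2
  · have hr' : (n : ℝ) ≤ 2 * r := by
      have : n ≤ 2 * r := by omega
      exact_mod_cast this
    have hD0 : (0 : ℝ) < (r : ℝ) + 1 := by positivity
    have hr0 : (0 : ℝ) < (n : ℝ) - r := by linarith
    have key := hcont ((1 + (1 / 10 : ℝ)) * ((n.choose r : ℝ) / ((r : ℝ) + 1)))
      (((1 / 10 : ℝ) / (1 + (1 / 10 : ℝ))) *
        (((n : ℝ) - r) * ((r : ℝ) + 1) / (n.choose r : ℝ))) (by positivity) (by positivity)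
      (powersetCard r univ) (fun A hA hlt => hcol A hA hlt) ((n : ℝ) ^ 4) hlam
    rw [hV] at key
    refine key.trans ?_
    exact s_core n (n.choose r) (n.choose (n / 2)) ((r : ℝ) + 1) ((n : ℝ) - r) hc h3 hN
      (by linarith) (by linarith) (by linarith) hn8 E1 E2

end Pool.Agent.Helper46.A.E7
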