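import Pool.Agent.Helper46.A.Bridge

set_option autoImplicit false

namespace Pool.Agent.Helper46.A.F

open Finset

/-- the matroids on `Fin n` -/
abbrev XM_22726 (n : ℕ) : Type := {M : Matroid (Fin n) // M.E = Set.univ}

/-- isomorphism -/
abbrev RR_22726 (n : ℕ) : XM_22726 n → XM_22726 n → Prop := fun M N =>
  ∃ σ : Equiv.Perm (Fin n), ∀ B : Set (Fin n), M.1.IsBase B ↔ N.1.IsBase (σ '' B)

open Classical in
/-- the family of the bases -/
noncomputable def bs_22726 {n : ℕ} (M : Matroid (Fin n)) : Fam n :=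
  univ.filter (fun B => M.IsBase (B : Set (Fin n)))

theorem mem_bs_22726 {n : ℕ} (M : Matroid (Fin n)) (B : Finset (Fin n)) :
    B ∈ bs_22726 M ↔ M.IsBase (B : Set (Fin n)) := by
  simp [bs_22726]

theorem bs_isBF_22726 {n : ℕ} (M : Matroid (Fin n)) : ∃ r, r ≤ n ∧ IsBF r (bs_22726 M) := by
  classical
  obtain ⟨B, hB⟩ := M.exists_isBase
  lift B to Finset (Fin n) using B.toFinite
  refine ⟨B.card, ?_, ?_, ?_, ?_⟩
  · simpa using B.card_le_univ
  · exact ⟨B, (mem_bs_22726 M B).2 hB⟩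
  · intro X hX
    have h := ((mem_bs_22726 M X).1 hX).ncard_eq_ncard_of_isBase hB
    simpa [Set.ncard_coe_finset] using h
  · intro X hX Y hY x hx
    rw [mem_bs_22726] at hX hY
    have hx' : x ∈ (X : Set (Fin n)) \ (Y : Set (Fin n)) := by
      rw [Finset.mem_sdiff] at hx; exact ⟨by exact_mod_cast hx.1, by exact_mod_cast hx.2⟩
    obtain ⟨y, hy, hyB⟩ := hX.exchange hY hx'
    refine ⟨y, by rw [Finset.mem_sdiff]; exact ⟨by exact_mod_cast hy.1, by exact_mod_cast hy.2⟩, ?_⟩
    rw [mem_bs_22726]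
    simpa using hyB

theorem bs_inj_22726 {n : ℕ} : Function.Injective (fun M : XM_22726 n => bs_22726 M.1) := by
  intro M N h
  apply Subtype.ext
  apply Matroid.ext_isBase (by rw [M.2, N.2])
  intro B _
  lift B to Finset (Fin n) using B.toFinite
  rw [← mem_bs_22726, ← mem_bs_22726]
  have h' : bs_22726 M.1 = bs_22726 N.1 := h
  rw [h']

instance finX_22726 (n : ℕ) : Finite (XM_22726 n) := Finite.of_injective _ bs_inj_22726

theorem rr_equiv_22726 (n : ℕ) : Equivalence (RR_22726 n) := by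
  refine ⟨fun M => ⟨1, fun B => by simp⟩, ?_, ?_⟩
  · rintro M N ⟨σ, h⟩
    refine ⟨σ⁻¹, fun B => ?_⟩
    rw [h, Set.image_image]
    simp
  · rintro M N P ⟨σ, h⟩ ⟨τ, h'⟩
    refine ⟨τ * σ, fun B => ?_⟩
    rw [h, h', Set.image_image]
    rfl

/-- the number of matroids is at most `n!` times the number of classes -/
theorem card_le_22726 (n : ℕ) :
    Nat.card (XM_22726 n) ≤ Nat.card (Quot (RR_22726 n)) * n.factorial := by
  classical
  haveI : Fintype (XM_22726 n) := Fintype.ofFinite _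
  haveI : Finite (Quot (RR_22726 n)) := Quot.finite _
  haveI : Fintype (Quot (RR_22726 n)) := Fintype.ofFinite _
  let φ : Quot (RR_22726 n) × Equiv.Perm (Fin n) → XM_22726 n → Prop := fun qσ M =>
    ∀ B : Set (Fin n), M.1.IsBase B ↔ (Quot.out qσ.1).1.IsBase (qσ.2 '' B)
  have hex : ∀ M : XM_22726 n, ∃ σ : Equiv.Perm (Fin n), φ (Quot.mk _ M, σ) M := by
    intro M
    have h1 : Quot.mk (RR_22726 n) M = Quot.mk (RR_22726 n) (Quot.out (Quot.mk (RR_22726 n) M)) :=
      (Quot.out_eq _).symm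
    exact ((rr_equiv_22726 n).quot_mk_eq_iff _ _).1 h1
  choose s hs using hex
  have hinj : Function.Injective (fun M : XM_22726 n =>
      ((Quot.mk (RR_22726 n) M, s M) : Quot (RR_22726 n) × Equiv.Perm (Fin n))) := by
    intro M N h
    have h' : ((Quot.mk (RR_22726 n) M, s M) : Quot (RR_22726 n) × Equiv.Perm (Fin n)) =
      (Quot.mk (RR_22726 n) N, s N) := h
    have hM := hs M
    have hN := hs N
    rw [h'] at hM
    apply Subtype.ext
    apply Matroid.ext_isBase (by rw [M.2, N.2])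
    intro B _
    rw [hM B, hN B]
  have h2 := Nat.card_le_card_of_injective _ hinj
  rw [Nat.card_prod] at h2
  have h3 : Nat.card (Equiv.Perm (Fin n)) = n.factorial := by
    rw [Nat.card_eq_fintype_card, Fintype.card_perm, Fintype.card_fin]
  rwa [h3] at h2

theorem isBF_unique_22726 {n r r' : ℕ} {B : Fam n} (h : IsBF r B) (h' : IsBF r' B) : r = r' := by
  obtain ⟨X, hX⟩ := h.ne
  rw [← h.card X hX, ← h'.card X hX]

theorem mm_le_22726 (n : ℕ) : mm n ≤ (Nat.card (XM_22726 n) : ℝ) := by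
  classical
  haveI : Fintype (XM_22726 n) := Fintype.ofFinite _
  have h1 : (∑ r ∈ range (n + 1), (BF n r).card) = ((range (n + 1)).biUnion (BF n)).card := by
    rw [Finset.card_biUnion]
    intro r _ r' _ hrr'
    rw [Function.onFun, Finset.disjoint_left]
    intro B hB hB'
    rw [BF, Finset.mem_filter] at hB hB'
    exact hrr' (isBF_unique_22726 hB.2 hB'.2)
  have h2 : ((range (n + 1)).biUnion (BF n)).card ≤ Fintype.card (XM_22726 n) := by
    have hsub : ((range (n + 1)).biUnion (BF n)) ⊆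
        (univ : Finset (XM_22726 n)).image (fun M => bs_22726 M.1) := by
      intro B hB
      rw [Finset.mem_biUnion] at hB
      obtain ⟨r, _, hB⟩ := hB
      rw [BF, Finset.mem_filter] at hB
      obtain ⟨M, hE, hM⟩ := toMat hB.2
      rw [Finset.mem_image]
      refine ⟨⟨M, hE⟩, Finset.mem_univ _, ?_⟩
      ext X
      rw [mem_bs_22726]
      exact hM X
    exact (Finset.card_le_card hsub).trans Finset.card_image_le
  unfold mm
  rw [← Nat.cast_sum, h1, Nat.card_eq_fintype_card]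
  exact_mod_cast h2

open Classical in
theorem fix_le_22726 {n : ℕ} [Fintype (XM_22726 n)] (σ : Equiv.Perm (Fin n)) :
    ((univ : Finset (XM_22726 n)).filter
      (fun M => ∀ B : Set (Fin n), M.1.IsBase B ↔ M.1.IsBase (σ '' B))).card ≤
      ∑ r ∈ range (n + 1), (FixF r σ).card := by
  rw [← Finset.card_image_of_injective _ bs_inj_22726]
  refine le_trans (Finset.card_le_card ?_) Finset.card_biUnion_le
  intro B hB
  rw [Finset.mem_image] at hB
  obtain ⟨M, hM, rfl⟩ := hB
  rw [Finset.mem_filter] at hM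
  obtain ⟨r, hr, hBF⟩ := bs_isBF_22726 M.1
  rw [Finset.mem_biUnion]
  refine ⟨r, Finset.mem_range.2 (by omega), ?_⟩
  rw [FixF, Finset.mem_filter]
  refine ⟨?_, ?_⟩
  · rw [BF, Finset.mem_filter]
    exact ⟨Finset.mem_univ _, hBF⟩
  · ext X
    rw [Finset.mem_image]
    constructor
    · rintro ⟨Y, hY, rfl⟩
      rw [mem_bs_22726] at hY ⊢
      rw [Finset.coe_image]
      exact (hM.2 _).1 hY
    · intro hX
      rw [mem_bs_22726] at hX
      refine ⟨X.image σ.symm, ?_, ?_⟩
      · rw [mem_bs_22726, Finset.coe_image, hM.2, Set.image_image]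
        simpa using hX
      · rw [Finset.image_image]
        simp

/-- the classes with a nontrivial symmetry are few -/
theorem bad_le_22726 (n : ℕ) :
    (Nat.card (Quot (RR_22726 n)) : ℝ) ≤
      (Nat.card {q : Quot (RR_22726 n) // ∀ M : XM_22726 n, q = Quot.mk _ M →
        ∀ σ : Equiv.Perm (Fin n),
          (∀ B : Set (Fin n), M.1.IsBase B ↔ M.1.IsBase (σ '' B)) → σ = 1} : ℝ) +
      ∑ σ ∈ (univ : Finset (Equiv.Perm (Fin n))).filter (fun σ => σ ≠ 1),
        ∑ r ∈ range (n + 1), ((FixF r σ).card : ℝ) := by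
  classical
  haveI : Fintype (XM_22726 n) := Fintype.ofFinite _
  haveI : Finite (Quot (RR_22726 n)) := Quot.finite _
  haveI : Fintype (Quot (RR_22726 n)) := Fintype.ofFinite _
  set p : Quot (RR_22726 n) → Prop := fun q => ∀ M : XM_22726 n, q = Quot.mk _ M →
        ∀ σ : Equiv.Perm (Fin n),
          (∀ B : Set (Fin n), M.1.IsBase B ↔ M.1.IsBase (σ '' B)) → σ = 1 with hp
  have h1 : Nat.card (Quot (RR_22726 n)) =
      ((univ : Finset (Quot (RR_22726 n))).filter p).card +
      ((univ : Finset (Quot (RR_22726 n))).filter (fun q => ¬ p q)).card := by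
    rw [Finset.card_filter_add_card_filter_not, Nat.card_eq_fintype_card, Finset.card_univ]
  have h2 : Nat.card {q : Quot (RR_22726 n) // p q} =
      ((univ : Finset (Quot (RR_22726 n))).filter p).card := by
    rw [Nat.card_eq_fintype_card, Fintype.card_subtype]
  have h3 : ((univ : Finset (Quot (RR_22726 n))).filter (fun q => ¬ p q)).card ≤
      ∑ σ ∈ (univ : Finset (Equiv.Perm (Fin n))).filter (fun σ => σ ≠ 1),
        ∑ r ∈ range (n + 1), (FixF r σ).card := by
    have hsub : ((univ : Finset (Quot (RR_22726 n))).filter (fun q => ¬ p q)) ⊆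
        ((univ : Finset (Equiv.Perm (Fin n))).filter (fun σ => σ ≠ 1)).biUnion (fun σ =>
          ((univ : Finset (XM_22726 n)).filter
            (fun M => ∀ B : Set (Fin n), M.1.IsBase B ↔ M.1.IsBase (σ '' B))).image
            (Quot.mk (RR_22726 n))) := by
      intro q hq
      rw [Finset.mem_filter] at hq
      have hq2 := hq.2
      simp only [hp] at hq2
      push Not at hq2
      obtain ⟨M, hqM, σ, hσ, hσ1⟩ := hq2
      rw [Finset.mem_biUnion]
      refine ⟨σ, Finset.mem_filter.2 ⟨Finset.mem_univ _, hσ1⟩, ?_⟩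
      rw [Finset.mem_image]
      exact ⟨M, Finset.mem_filter.2 ⟨Finset.mem_univ _, hσ⟩, hqM.symm⟩
    refine (Finset.card_le_card hsub).trans (Finset.card_biUnion_le.trans ?_)
    apply Finset.sum_le_sum
    intro σ _
    exact Finset.card_image_le.trans (fix_le_22726 σ)
  have h4 : Nat.card (Quot (RR_22726 n)) ≤ Nat.card {q : Quot (RR_22726 n) // p q} +
      ∑ σ ∈ (univ : Finset (Equiv.Perm (Fin n))).filter (fun σ => σ ≠ 1),
        ∑ r ∈ range (n + 1), (FixF r σ).card := by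
    rw [h1, h2]
    exact Nat.add_le_add_left h3 _
  have h5 : ((Nat.card (Quot (RR_22726 n)) : ℕ) : ℝ) ≤
      ((Nat.card {q : Quot (RR_22726 n) // p q} +
      ∑ σ ∈ (univ : Finset (Equiv.Perm (Fin n))).filter (fun σ => σ ≠ 1),
        ∑ r ∈ range (n + 1), (FixF r σ).card : ℕ) : ℝ) := by exact_mod_cast h4
  push_cast at h5
  exact h5

open Filter in
theorem num_22726 :
    Tendsto (fun n : ℕ => ((n.factorial : ℝ) ^ 2) / 2 ^ (n ^ 2)) atTop (nhds 0) := by
  have h1 : Tendsto (fun n : ℕ => (n : ℝ) ^ 2 / (2 : ℝ) ^ n) atTop (nhds 0) :=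
    tendsto_pow_const_div_const_pow_of_one_lt 2 (by norm_num)
  have h2 : ∀ᶠ n : ℕ in atTop, (n : ℝ) ^ 2 / (2 : ℝ) ^ n ≤ 1 / 2 :=
    h1.eventually (ge_mem_nhds (by norm_num))
  have h3 : Tendsto (fun n : ℕ => (1 / 2 : ℝ) ^ n) atTop (nhds 0) :=
    tendsto_pow_atTop_nhds_zero_of_lt_one (by norm_num) (by norm_num)
  refine squeeze_zero' (Eventually.of_forall fun n => by positivity) ?_ h3
  filter_upwards [h2] with n hn
  have hf : (n.factorial : ℝ) ≤ (n : ℝ) ^ n := by exact_mod_cast Nat.factorial_le_pow n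
  calc ((n.factorial : ℝ) ^ 2) / 2 ^ (n ^ 2) ≤ (((n : ℝ) ^ n) ^ 2) / 2 ^ (n ^ 2) := by gcongr
    _ = ((n : ℝ) ^ 2 / (2 : ℝ) ^ n) ^ n := by
        rw [div_pow, ← pow_mul, ← pow_mul, ← pow_mul, mul_comm n 2, sq n]
    _ ≤ (1 / 2 : ℝ) ^ n := by gcongr

theorem final_num_22726 {O A F m N f P : ℝ} (hO : 0 < O) (hP : 0 < P) (hf : 0 ≤ f)
    (hb : O ≤ A + F) (hc : N ≤ O * f) (hm : m ≤ N) (hF : F * P ≤ f * m) :
    1 - f ^ 2 / P ≤ A / O := by
  rw [le_div_iff₀ hO, sub_mul, one_mul]
  have hF3 : F * P ≤ f ^ 2 * O := by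
    calc F * P ≤ f * m := hF
      _ ≤ f * (O * f) := mul_le_mul_of_nonneg_left (hm.trans hc) hf
      _ = _ := by ring
  have hF4 : F ≤ f ^ 2 / P * O := by
    rw [div_mul_eq_mul_div, le_div_iff₀ hP]
    exact hF3
  linarith

theorem sumF_22726 (n : ℕ) (hn : ∀ σ : Equiv.Perm (Fin n), σ ≠ 1 →
    (∑ r ∈ range (n + 1), ((FixF r σ).card : ℝ)) * 2 ^ (n ^ 2) ≤ mm n) :
    (∑ σ ∈ (univ : Finset (Equiv.Perm (Fin n))).filter (fun σ => σ ≠ 1),
        ∑ r ∈ range (n + 1), ((FixF r σ).card : ℝ)) * 2 ^ (n ^ 2) ≤ (n.factorial : ℝ) * mm n := by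
  classical
  have hmm0 : 0 ≤ mm n := by
    unfold mm
    positivity
  rw [Finset.sum_mul]
  calc ∑ σ ∈ (univ : Finset (Equiv.Perm (Fin n))).filter (fun σ => σ ≠ 1),
      (∑ r ∈ range (n + 1), ((FixF r σ).card : ℝ)) * 2 ^ (n ^ 2)
      ≤ ∑ σ ∈ (univ : Finset (Equiv.Perm (Fin n))).filter (fun σ => σ ≠ 1), mm n := by
        apply Finset.sum_le_sum
        intro σ hσ
        exact hn σ (Finset.mem_filter.1 hσ).2
    _ = (((univ : Finset (Equiv.Perm (Fin n))).filter (fun σ => σ ≠ 1)).card : ℝ) * mm n := by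
        rw [Finset.sum_const, nsmul_eq_mul]
    _ ≤ (n.factorial : ℝ) * mm n := by
        apply mul_le_mul_of_nonneg_right _ hmm0
        have h1 : ((univ : Finset (Equiv.Perm (Fin n))).filter (fun σ => σ ≠ 1)).card ≤
            n.factorial := by
          refine (Finset.card_le_univ _).trans ?_
          rw [Fintype.card_perm, Fintype.card_fin]
        exact_mod_cast h1

theorem quot_pos_22726 (n : ℕ) : 0 < Nat.card (Quot (RR_22726 n)) := by
  haveI : Nonempty (XM_22726 n) := ⟨⟨Matroid.loopyOn Set.univ, rfl⟩⟩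
  haveI : Nonempty (Quot (RR_22726 n)) := ⟨Quot.mk _ (Classical.arbitrary _)⟩
  haveI : Finite (Quot (RR_22726 n)) := Quot.finite _
  exact Nat.card_pos

open Filter in
theorem frozen_of (h : ∀ᶠ n : ℕ in atTop, ∀ σ : Equiv.Perm (Fin n), σ ≠ 1 →
    (∑ r ∈ range (n + 1), ((FixF r σ).card : ℝ)) * 2 ^ (n ^ 2) ≤ mm n) :
    Filter.Tendsto
      (fun n : ℕ =>
        (Nat.card
            {q : Quot (fun M N : {M : Matroid (Fin n) // M.E = Set.univ} =>
                  ∃ σ : Equiv.Perm (Fin n), ∀ B : Set (Fin n), M.1.IsBase B ↔ N.1.IsBase (σ '' B)) //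
              ∀ M : {M : Matroid (Fin n) // M.E = Set.univ}, q = Quot.mk _ M →
                ∀ σ : Equiv.Perm (Fin n),
                  (∀ B : Set (Fin n), M.1.IsBase B ↔ M.1.IsBase (σ '' B)) → σ = 1} : ℝ) /
          (Nat.card
            (Quot (fun M N : {M : Matroid (Fin n) // M.E = Set.univ} =>
                  ∃ σ : Equiv.Perm (Fin n), ∀ B : Set (Fin n), M.1.IsBase B ↔ N.1.IsBase (σ '' B))) : ℝ))
      Filter.atTop (nhds 1) := by
  classical
  have hlow : Tendsto (fun n : ℕ => 1 - ((n.factorial : ℝ) ^ 2) / 2 ^ (n ^ 2)) atTop (nhds 1) := by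
    have h0 := num_22726.const_sub 1
    rw [sub_zero] at h0
    exact h0
  refine tendsto_of_tendsto_of_tendsto_of_le_of_le' hlow tendsto_const_nhds ?_ ?_
  · filter_upwards [h] with n hn
    have hP : (0 : ℝ) < 2 ^ (n ^ 2) := by positivity
    have hc' : (Nat.card (XM_22726 n) : ℝ) ≤
        (Nat.card (Quot (RR_22726 n)) : ℝ) * (n.factorial : ℝ) := by
      rw [← Nat.cast_mul]
      exact Nat.cast_le.2 (card_le_22726 n)
    exact final_num_22726 (Nat.cast_pos.2 (quot_pos_22726 n)) hP (Nat.cast_nonneg _)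
      (bad_le_22726 n) hc' (mm_le_22726 n) (sumF_22726 n hn)
  · refine Eventually.of_forall fun n => ?_
    apply div_le_one_of_le₀ _ (Nat.cast_nonneg _)
    apply Nat.cast_le.2
    haveI : Finite (Quot (RR_22726 n)) := Quot.finite _
    exact Nat.card_le_card_of_injective _ Subtype.val_injective

end Pool.Agent.Helper46.A.F
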