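import Pool.Agent.Helper46.A.C1
import Pool.Agent.Helper46.A.C2
import Pool.Agent.Helper46.A.C3
import Pool.Agent.Helper46.A.C5
import Pool.Agent.Helper46.A.D1
import Pool.Agent.Helper46.A.D2
import Pool.Agent.Helper46.A.D3
import Pool.Agent.Helper46.A.D4

set_option autoImplicit false

namespace Pool.Agent.Helper46.A

open Finset

theorem mem_BF {n r : ℕ} {B : Fam n} : B ∈ BF n r ↔ IsBF r B := by
  unfold BF; simp

theorem adj_tie {n r l : ℕ} {B : Fam n} (hB : IsBF r B) {X Y : Finset (Fin n)}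
    (hX : X.card = r) (hY : Y.card = r) (hXB : X ∉ B) (hYB : Y ∉ B)
    (hQX : ¬ Q (info l r B) X) (hQY : ¬ Q (info l r B) Y) (h : Adj X Y) :
    tie (info l r B) X Y := by
  classical
  obtain ⟨h1, h2⟩ := h
  obtain ⟨f, hf⟩ := Finset.card_eq_one.1 h1
  obtain ⟨g, hg⟩ := Finset.card_eq_one.1 h2
  have hfX : f ∈ X ∧ f ∉ Y := by
    have : f ∈ X \ Y := by rw [hf]; simp
    simpa using this
  have hgY : g ∈ Y ∧ g ∉ X := by
    have : g ∈ Y \ X := by rw [hg]; simp
    simpa using this
  have hXY : Y = insert g (X.erase f) := by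
    ext x
    simp only [mem_insert, mem_erase]
    constructor
    · intro hx
      by_cases hxX : x ∈ X
      · right
        refine ⟨?_, hxX⟩
        rintro rfl
        exact hfX.2 hx
      · left
        have : x ∈ Y \ X := by simp [hx, hxX]
        rw [hg] at this
        simpa using this
    · rintro (rfl | ⟨hx1, hx2⟩)
      · exact hgY.1
      · by_contra hxY
        have : x ∈ X \ Y := by simp [hx2, hxY]
        rw [hf] at this
        exact hx1 (by simpa using this)
  have hYc : Yᶜ = insert f (Xᶜ.erase g) := by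
    ext x
    simp only [mem_compl, mem_insert, mem_erase, hXY]
    by_cases hxf : x = f
    · subst hxf
      have : x ≠ g := by rintro rfl; exact hgY.2 hfX.1
      simp [this]
    · simp [hxf]
  have key := C3.explained hB hX hXB hQX hfX.1 hgY.2 (by rw [← hXY]; exact hYB)
  refine ⟨f, hfX.1, g, hgY.2, hXY, ?_⟩
  rcases key with ⟨Γ, hΓ, hgΓ, hsub⟩ | ⟨Γ, hΓ, hfΓ, hsub⟩
  · left
    refine ⟨Γ, hΓ, ?_, hgΓ, hsub⟩
    by_contra hfΓ
    apply hQY
    left
    refine ⟨Γ, hΓ, ?_⟩
    intro x hx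
    rw [hXY, mem_insert, mem_erase]
    have := hsub hx
    rw [mem_insert] at this
    rcases this with h | h
    · exact Or.inl h
    · right
      refine ⟨?_, h⟩
      rintro rfl
      exact hfΓ hx
  · right
    refine ⟨Γ, hΓ, hfΓ, ?_, hsub⟩
    by_contra hgΓ
    apply hQY
    right; left
    refine ⟨Γ, hΓ, ?_⟩
    intro x hx
    rw [hYc, mem_insert, mem_erase]
    have := hsub hx
    rw [mem_insert] at this
    rcases this with h | h
    · exact Or.inl h
    · right
      refine ⟨?_, h⟩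
      rintro rfl
      exact hgΓ hx

theorem sg_union {n r l : ℕ} (hl : 1 ≤ l) {B : Fam n} (hB : IsBF r B) (W : Fam n)
    (hW : W ⊆ sg l r B) : IsBF r (B ∪ W) := by
  have key : ∀ X ∈ W, _ := fun X hX => D1.sg_relax (X := X) hl hB
    (fun X hX h => C1.Q_not_mem hB hX h)
    (fun X hX hXB hQ f hf g hg hY => C3.explained hB hX hXB hQ hf hg hY) (hW hX)
  exact C5.relax hB W (fun X hX => (key X hX).1) (fun X hX => (key X hX).2.2.1)
    (fun X hX => (key X hX).2.2.2.1) (fun X hX => (key X hX).2.2.2.2)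

theorem sg_not_mem {n r l : ℕ} {B : Fam n} {X : Finset (Fin n)} (hX : X ∈ sg l r B) : X ∉ B := by
  unfold sg UU at hX
  simp only [mem_filter] at hX
  exact hX.1.2.1

theorem main_count {n r l K p : ℕ} (hl : 1 ≤ l) (σ : Equiv.Perm (Fin n)) (a b : Fin n)
    (hσ : σ a = b) :
    ((FixF r σ).card : ℝ) ≤ ((BF n r).card : ℝ) / 2 ^ p +
      (((BF n r).image (info l r)).card : ℝ) *
        ((St (powersetCard r (univ : Finset (Fin n)))).card : ℝ) / 2 ^ K +
      (((BF n r).image (info l r)).card : ℝ) * (SB n K : ℝ) * (SB n (3 * p) : ℝ) *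
        ((St (Vab r a b)).card : ℝ) := by
  classical
  have hQ : ∀ B ∈ BF n r, ∀ X : Finset (Fin n), X.card = r → Q (info l r B) X → X ∉ B :=
    fun B hB X hX h => C1.Q_not_mem (mem_BF.1 hB) hX h
  have htie : ∀ B ∈ BF n r, ∀ X Y : Finset (Fin n), tie (info l r B) X Y → (X ∈ B ↔ Y ∈ B) :=
    fun B hB X Y h => C2.tie_mem (mem_BF.1 hB) h
  have hadj : ∀ B ∈ BF n r, ∀ X Y : Finset (Fin n), X.card = r → Y.card = r → X ∉ B → Y ∉ B →
      ¬ Q (info l r B) X → ¬ Q (info l r B) Y → Adj X Y → tie (info l r B) X Y :=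
    fun B hB X Y h1 h2 h3 h4 h5 h6 h7 => adj_tie (mem_BF.1 hB) h1 h2 h3 h4 h5 h6 h7
  have f1 := D2.F1 (l := l) hQ htie hadj
  have f2 := D3.F2 (n := n) (r := r) (l := l) (p := p) σ
    (fun B hB W hW => sg_union hl (mem_BF.1 hB) W hW) (fun B _ X hX => sg_not_mem hX)
  have f3 := D4.F3 (n := n) (r := r) (l := l) (K := K) (P := 3 * p) σ a b hσ hQ htie hadj
  -- the three parts
  set A1 := (FixF r σ).filter (fun B => 3 * p ≤ ((sg l r B).filter
      (fun X => X.image σ ≠ X)).card) with hA1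
  set A2 := (BF n r).filter (fun B => K ≤ (nt l r B).card) with hA2
  set A3 := (BF n r).filter (fun B => (nt l r B).card ≤ K ∧
      ((sg l r B).filter (fun X => X.image σ ≠ X)).card ≤ 3 * p) with hA3
  have hcov : FixF r σ ⊆ A1 ∪ (A2 ∪ A3) := by
    intro B hB
    have hB' : B ∈ BF n r := by
      unfold FixF at hB
      exact (mem_filter.1 hB).1
    by_cases h1 : 3 * p ≤ ((sg l r B).filter (fun X => X.image σ ≠ X)).card
    · exact mem_union_left _ (mem_filter.2 ⟨hB, h1⟩)
    · by_cases h2 : K ≤ (nt l r B).card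
      · exact mem_union_right _ (mem_union_left _ (mem_filter.2 ⟨hB', h2⟩))
      · exact mem_union_right _ (mem_union_right _ (mem_filter.2 ⟨hB', by omega, by omega⟩))
  have hc : ((FixF r σ).card : ℝ) ≤ A1.card + (A2.card + A3.card) := by
    have h1 := card_le_card hcov
    have h2 := card_union_le A1 (A2 ∪ A3)
    have h3 := card_union_le A2 A3
    exact_mod_cast h1.trans (h2.trans (by omega))
  have e1 : (A1.card : ℝ) ≤ ((BF n r).card : ℝ) / 2 ^ p := by
    rw [le_div_iff₀ (by positivity)]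
    exact_mod_cast f2
  have e2 : (A2.card : ℝ) ≤ (((BF n r).image (info l r)).card : ℝ) *
        ((St (powersetCard r (univ : Finset (Fin n)))).card : ℝ) / 2 ^ K := by
    rw [le_div_iff₀ (by positivity)]
    have : A2.card * 2 ^ K ≤ ∑ B ∈ BF n r, 2 ^ (nt l r B).card := by
      rw [← smul_eq_mul, ← sum_const]
      calc ∑ B ∈ A2, 2 ^ K ≤ ∑ B ∈ A2, 2 ^ (nt l r B).card := by
            apply sum_le_sum
            intro B hB
            exact Nat.pow_le_pow_right (by norm_num) (mem_filter.1 hB).2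
        _ ≤ _ := sum_le_sum_of_subset (filter_subset _ _)
    exact_mod_cast this.trans f1
  have e3 : (A3.card : ℝ) ≤ (((BF n r).image (info l r)).card : ℝ) * (SB n K : ℝ) *
      (SB n (3 * p) : ℝ) * ((St (Vab r a b)).card : ℝ) := by
    exact_mod_cast f3
  linarith

end Pool.Agent.Helper46.A
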