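import Pool.Agent.Helper46.A.A1
import Pool.Agent.Helper46.A.A2
import Pool.Agent.Helper46.A.A3
import Pool.Agent.Helper46.A.A4
import Pool.Agent.Helper46.A.B1
import Pool.Agent.Helper46.A.B2
import Pool.Agent.Helper46.A.B3
import Pool.Agent.Helper46.A.B4
import Pool.Agent.Helper46.A.B5
import Pool.Agent.Helper46.A.B6
import Pool.Agent.Helper46.A.E1
import Pool.Agent.Helper46.A.E2
import Pool.Agent.Helper46.A.E5
import Pool.Agent.Helper46.A.E6
import Pool.Agent.Helper46.A.E7

set_option autoImplicit false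

namespace Pool.Agent.Helper46.A

open Finset Filter

theorem adj_symm' {n : ℕ} (X Y : Finset (Fin n)) (h : Adj X Y) : Adj Y X := ⟨h.2, h.1⟩

theorem adj_irrefl' {n : ℕ} (X : Finset (Fin n)) : ¬ Adj X X := by
  intro h
  have := h.1
  simp at this

theorem kwE {n : ℕ} (a θ : ℝ) (ha : 0 < a) (hθ : 0 < θ) (V : Fam n)
    (h : ∀ A ⊆ V, a < (A.card : ℝ) →
        ∃ v ∈ A, θ * (A.card : ℝ) ≤ ((A.filter (fun u => Adj v u)).card : ℝ)) :
    (∑ R ∈ St V, (R.card : ℝ)) ≤ (a / 2 + E6.tt a θ V.card) * ((St V).card : ℝ) := by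
  have h2 := A2.kw_E Adj adj_symm' adj_irrefl' a θ ha hθ V h
  have e : A2.stab Adj V = St V := by
    ext R
    simp only [A2.stab, St, mem_filter]
  have e2 : A2.tt a θ V.card = E6.tt a θ V.card := by
    unfold A2.tt E6.tt
    rfl
  rw [e, e2] at h2
  exact h2

theorem kwU {n : ℕ} (a θ : ℝ) (ha : 0 < a) (hθ : 0 < θ) (V : Fam n)
    (h : ∀ A ⊆ V, a < (A.card : ℝ) →
        ∃ v ∈ A, θ * (A.card : ℝ) ≤ ((A.filter (fun u => Adj v u)).card : ℝ))
    (lam : ℝ) (hl : 1 ≤ lam) :
    ((St V).card : ℝ) ≤ (2 : ℝ) ^ a * lam ^ (E7.tt a θ V.card) * (1 + 1 / lam) ^ V.card := by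
  have h2 := A1.kw_U Adj adj_symm' adj_irrefl' a θ ha hθ V h lam hl
  have e : A1.stab Adj V = St V := by
    ext R
    simp only [A1.stab, St, mem_filter]
  have e2 : A1.tt a θ V.card = E7.tt a θ V.card := by
    unfold A1.tt E7.tt
    rfl
  rw [e, e2] at h2
  exact h2

theorem st_le_mm {n r : ℕ} (h0 : 0 < r) (hr : r < n) :
    ((St (powersetCard r (univ : Finset (Fin n)))).card : ℝ) ≤ mm n := by
  have h1 : ((St (powersetCard r (univ : Finset (Fin n)))).card : ℝ) ≤ (BF n r).card := by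
    exact_mod_cast B6.st_le_BF h0 hr
  refine h1.trans ?_
  unfold mm
  exact single_le_sum (f := fun r => ((BF n r).card : ℝ)) (fun _ _ => by positivity)
    (mem_range.2 (by omega))

theorem mm_lower {n : ℕ} (hn : 2 ≤ n) : (2 : ℝ) ^ ((AN.N0 n : ℝ) / n) ≤ mm n := by
  have h := B1.st_lower (n := n) (by omega) (powersetCard (n / 2) (univ : Finset (Fin n)))
  rw [card_powersetCard, card_univ, Fintype.card_fin] at h
  exact h.trans (st_le_mm (by omega) (by omega))

/-- `choose (n-2) (r-1)` is a constant fraction of `choose n r` in the window. -/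
theorem choose_window {n r : ℕ} (hn : 16 ≤ n) (h1 : n ≤ 8 * r) (h2 : 8 * r ≤ 7 * n) :
    (7 / 64 : ℝ) * (n.choose r : ℝ) ≤ ((n - 2).choose (r - 1) : ℝ) := by
  obtain ⟨m, rfl⟩ : ∃ m, n = m + 2 := ⟨n - 2, by omega⟩
  obtain ⟨s, rfl⟩ : ∃ s, r = s + 1 := ⟨r - 1, by omega⟩
  simp only [Nat.add_sub_cancel]
  -- C(m+2,s+1)*(s+1) = (m+2)*C(m+1,s); C(m+1,s)*(m+1-s) = (m+1)*C(m,s)
  have e1 : (m + 2) * (m + 1).choose s = (m + 2).choose (s + 1) * (s + 1) :=
    Nat.add_one_mul_choose_eq (m + 1) s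
  have e2 : (m + 1).choose s * (m + 1 - s) = (m + 1) * m.choose s := by
    have := Nat.choose_mul_succ_eq m s
    linarith [this]
  have hs : s ≤ m := by omega
  have e1' : ((m : ℝ) + 2) * ((m + 1).choose s : ℝ) = ((m + 2).choose (s + 1) : ℝ) * (s + 1) := by
    exact_mod_cast e1
  have e2' : ((m + 1).choose s : ℝ) * ((m : ℝ) + 1 - s) = ((m : ℝ) + 1) * (m.choose s : ℝ) := by
    have : ((m + 1 - s : ℕ) : ℝ) = (m : ℝ) + 1 - s := by
      rw [Nat.cast_sub (by omega)]; push_cast; ring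
    rw [← this]
    exact_mod_cast e2
  set A : ℝ := ((m + 2).choose (s + 1) : ℝ)
  set B : ℝ := ((m + 1).choose s : ℝ)
  set C : ℝ := (m.choose s : ℝ)
  have hA : 0 ≤ A := by positivity
  have h1' : ((m : ℝ) + 2) ≤ 8 * (s + 1) := by exact_mod_cast h1
  have h2' : 8 * ((s : ℝ) + 1) ≤ 7 * (m + 2) := by exact_mod_cast h2
  have hm0 : (0 : ℝ) < m + 1 := by positivity
  have hprod : (m + 2) * (m + 1) * C = A * ((s + 1) * ((m : ℝ) + 1 - s)) := by
    have : (m + 2) * ((m + 1) * C) = (m + 2) * B * ((m : ℝ) + 1 - s) := by rw [← e2']; ring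
    rw [e1'] at this
    linarith
  have hq : (7 / 64 : ℝ) * ((m + 2) * (m + 1)) ≤ ((s : ℝ) + 1) * ((m : ℝ) + 1 - s) := by
    nlinarith [mul_nonneg (sub_nonneg.2 h1') (sub_nonneg.2 h2')]
  have : (7 / 64 : ℝ) * A * ((m + 2) * (m + 1)) ≤ C * ((m + 2) * (m + 1)) := by
    calc (7 / 64 : ℝ) * A * ((m + 2) * (m + 1)) = A * ((7 / 64 : ℝ) * ((m + 2) * (m + 1))) := by ring
      _ ≤ A * (((s : ℝ) + 1) * ((m : ℝ) + 1 - s)) := mul_le_mul_of_nonneg_left hq hA
      _ = C * ((m + 2) * (m + 1)) := by rw [← hprod]; ring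
  exact le_of_mul_le_mul_right this (by positivity)

theorem vab_bound : ∀ᶠ n : ℕ in atTop, ∀ a b : Fin n, a ≠ b → ∀ r : ℕ, n ≤ 8 * r → 8 * r ≤ 7 * n →
    ((St (Vab r a b)).card : ℝ) * (2 : ℝ) ^ ((AN.N0 n : ℝ) / n / 500) ≤ mm n := by
  obtain ⟨m0, hm0⟩ := eventually_atTop.1 E6.avg
  filter_upwards [AN.E5.num3 AN.E1.tail, E7.upper, eventually_ge_atTop (m0 + 2),
    eventually_ge_atTop 100] with n hnum hup hnm hn a b hab r h1 h2
  obtain ⟨-, hn2, hn3⟩ := hnum
  have hr2 : 2 ≤ r := by omega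
  have hrn : r < n := by omega
  have hst := st_le_mm (n := n) (r := r) (by omega) hrn
  have hlow := mm_lower (n := n) (by omega)
  have hV : ((St (Vab r a b)).card : ℝ) ≤ ((St (powersetCard r (univ : Finset (Fin n)))).card : ℝ) := by
    have : St (Vab r a b) ⊆ St (powersetCard r (univ : Finset (Fin n))) := by
      intro R hR
      unfold St at hR ⊢
      rw [mem_filter, mem_powerset] at hR ⊢
      exact ⟨hR.1.trans (filter_subset _ _), hR.2⟩
    exact_mod_cast card_le_card this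
  by_cases hC : 4 * n.choose r < n.choose (n / 2)
  · -- few stable families at all
    have hrows := A3.super_rows (n := n) univ r (by omega) (by rw [card_univ, Fintype.card_fin]; omega)
    have hcols := A4.super_cols (n := n) univ r (by rw [card_univ, Fintype.card_fin]; omega)
    have h := hup r h1 h2 hC (fun a θ ha hθ V h lam hl => kwU a θ ha hθ V h lam hl)
      (fun A hA hc => by
        have := hrows (1 / 10) (by norm_num) A hA (by rw [card_univ, Fintype.card_fin]; exact hc)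
        rw [card_univ, Fintype.card_fin] at this
        exact this)
      (fun A hA hc => by
        have := hcols (1 / 10) (by norm_num)
          (fun j hj1 hj2 A hA hc => A3.super_rows univ j hj1 hj2 (1 / 10) (by norm_num) A hA hc)
          A hA (by rw [card_univ, Fintype.card_fin]; exact hc)
        rw [card_univ, Fintype.card_fin] at this
        exact this)
    calc ((St (Vab r a b)).card : ℝ) * (2 : ℝ) ^ ((AN.N0 n : ℝ) / n / 500)
        ≤ (2 : ℝ) ^ ((3 : ℝ) / 5 * ((AN.N0 n : ℝ) / n)) * (2 : ℝ) ^ ((AN.N0 n : ℝ) / n / 500) := by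
          apply mul_le_mul_of_nonneg_right _ (by positivity)
          exact hV.trans h
      _ ≤ _ := hn2
      _ ≤ _ := hlow
  · -- fill in
    push Not at hC
    set G := (univ : Finset (Fin n)) \ {a, b} with hG
    have hGc : G.card = n - 2 := by
      rw [hG, card_sdiff_of_subset (subset_univ _), card_univ, Fintype.card_fin, card_pair hab]
    have hE := hm0 (n - 2) (by omega) n G hGc
    have hE1 := hE r (by omega) (by omega) (fun a θ ha hθ V h => kwE a θ ha hθ V h)
      (fun A hA hc => A3.super_rows G r (by omega) (by omega) (1 / 10) (by norm_num) A hA hc)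
      (fun A hA hc => A4.super_cols G r (by omega) (1 / 10) (by norm_num)
        (fun j hj1 hj2 A hA hc => A3.super_rows G j hj1 hj2 (1 / 10) (by norm_num) A hA hc) A hA hc)
    have hE2 := hE (r - 2) (by omega) (by omega) (fun a θ ha hθ V h => kwE a θ ha hθ V h)
      (fun A hA hc => A3.super_rows G (r - 2) (by omega) (by omega) (1 / 10) (by norm_num) A hA hc)
      (fun A hA hc => A4.super_cols G (r - 2) (by omega) (1 / 10) (by norm_num)
        (fun j hj1 hj2 A hA hc => A3.super_rows G j hj1 hj2 (1 / 10) (by norm_num) A hA hc) A hA hc)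
    have c1 := fun Z hZ => B2.cover_up G r (by omega) (by omega) hE1.1 Z hZ
    have c2 := fun Z hZ => B3.cover_down G (r - 2) (by omega)
      (fun j hj1 hj2 h Z hZ => B2.cover_up G j hj1 hj2 h Z hZ) hE2.2 Z hZ
    have hr12 : r - 2 + 1 = r - 1 := by omega
    rw [hr12] at c2
    have hfill := B4.fill a b hab r hr2 (fun W => B1.st_lower (by omega) W) c1 c2
    have hsplit : ((St (Vab r a b)).card : ℝ) ≤ ((St (powersetCard r G)).card : ℝ) *
        ((St (powersetCard (r - 2) G)).card : ℝ) := by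
      exact_mod_cast B5.split_le a b hab r hr2
    have hch : (2 / 25 : ℝ) * (7 / 64) * (1 / 4) * ((AN.N0 n : ℝ) / n) ≤
        (2 / 25 : ℝ) * ((n - 2).choose (r - 1) : ℝ) / n := by
      have e1 := choose_window (n := n) (r := r) (by omega) h1 h2
      have e2 : (AN.N0 n : ℝ) ≤ 4 * (n.choose r : ℝ) := by exact_mod_cast hC
      have hn0 : (0 : ℝ) < n := by exact_mod_cast (by omega : 0 < n)
      rw [mul_div_assoc', div_le_div_iff_of_pos_right hn0]
      nlinarith
    have hpow : (2 : ℝ) ^ ((2 / 25 : ℝ) * (7 / 64) * (1 / 4) * ((AN.N0 n : ℝ) / n)) ≤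
        (2 : ℝ) ^ ((2 / 25 : ℝ) * ((n - 2).choose (r - 1) : ℝ) / n) :=
      Real.rpow_le_rpow_of_exponent_le (by norm_num) hch
    set s0 : ℝ := ((St (powersetCard r G)).card : ℝ)
    set s2 : ℝ := ((St (powersetCard (r - 2) G)).card : ℝ)
    have hs0 : 0 ≤ s0 := by positivity
    have hs2 : 0 ≤ s2 := by positivity
    calc ((St (Vab r a b)).card : ℝ) * (2 : ℝ) ^ ((AN.N0 n : ℝ) / n / 500)
        ≤ s0 * s2 * (2 : ℝ) ^ ((AN.N0 n : ℝ) / n / 500) :=
          mul_le_mul_of_nonneg_right hsplit (by positivity)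
      _ = (2 / 25 : ℝ) * s0 * s2 * ((25 / 2 : ℝ) * (2 : ℝ) ^ ((AN.N0 n : ℝ) / n / 500)) := by ring
      _ ≤ (2 / 25 : ℝ) * s0 * s2 *
          (2 : ℝ) ^ ((2 / 25 : ℝ) * ((n - 2).choose (r - 1) : ℝ) / n) := by
          apply mul_le_mul_of_nonneg_left (hn3.trans hpow) (by positivity)
      _ ≤ _ := hfill
      _ ≤ _ := hst

end Pool.Agent.Helper46.A
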