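import Pool.Agent.Helper46.A.G1
import Pool.Agent.Helper46.A.G2
import Pool.Agent.Helper46.A.C4
import Pool.Agent.Helper46.A.C6
import Pool.Agent.Helper46.A.E3
import Pool.Agent.Helper46.A.E4

set_option autoImplicit false

namespace Pool.Agent.Helper46.A

open Finset Filter

theorem BF_card_le (n r : ℕ) : (BF n r).card ≤ 2 ^ n.choose r := by
  classical
  have h : BF n r ⊆ (powersetCard r (univ : Finset (Fin n))).powerset := by
    intro B hB
    rw [mem_powerset]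
    intro X hX
    rw [mem_powersetCard]
    exact ⟨subset_univ _, (mem_BF.1 hB).card X hX⟩
  calc (BF n r).card ≤ _ := card_le_card h
    _ = 2 ^ n.choose r := by rw [card_powerset, card_powersetCard, card_univ, Fintype.card_fin]

theorem BF_le_mm {n r : ℕ} (hr : r ≤ n) : ((BF n r).card : ℝ) ≤ mm n := by
  unfold mm
  exact single_le_sum (f := fun r => ((BF n r).card : ℝ)) (fun _ _ => by positivity)
    (mem_range.2 (by omega))

theorem FixF_le {n r : ℕ} (σ : Equiv.Perm (Fin n)) : (FixF r σ).card ≤ (BF n r).card := by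
  unfold FixF
  exact card_le_card (filter_subset _ _)

theorem choose_le_Fs {n r : ℕ} (hr : r ≤ n) (h : ¬ (n ≤ 8 * r ∧ 8 * r ≤ 7 * n)) :
    n.choose r ≤ AN.Fs n := by
  unfold AN.Fs
  by_cases h1 : 8 * r < n
  · exact single_le_sum (f := fun i => n.choose i) (fun _ _ => Nat.zero_le _)
      (mem_range.2 (by omega))
  · have h2 : 7 * n < 8 * r := by omega
    rw [← Nat.choose_symm hr]
    exact single_le_sum (f := fun i => n.choose i) (fun _ _ => Nat.zero_le _)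
      (mem_range.2 (by omega))

theorem fix_small : ∀ᶠ n : ℕ in atTop, ∀ σ : Equiv.Perm (Fin n), σ ≠ 1 →
    (∑ r ∈ range (n + 1), ((FixF r σ).card : ℝ)) * 2 ^ (n ^ 2) ≤ mm n := by
  have hSB : ∀ n k : ℕ, 1 ≤ n → (AN.SB n k : ℝ) ≤ (n : ℝ) ^ (4 * k) *
      Real.exp ((2 : ℝ) ^ n / (n : ℝ) ^ 4) := fun n k hn => AN.E2.SB_le n k hn
  filter_upwards [AN.E3.num1 AN.E1.tail hSB, AN.E4.num2 AN.E1.tail hSB, AN.E5.num3 AN.E1.tail,
    vab_bound, eventually_ge_atTop 100] with n h1 h2 h3 hv hn σ hσ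
  obtain ⟨a, ha⟩ : ∃ a, σ a ≠ a := by
    by_contra hcon
    push Not at hcon
    exact hσ (Equiv.ext hcon)
  have hmm := mm_lower (n := n) (by omega)
  have hmm0 : 0 ≤ mm n := le_trans (by positivity) hmm
  have key : ∀ r ∈ range (n + 1), ((FixF r σ).card : ℝ) * 2 ^ (n ^ 2 + n) ≤ mm n := by
    intro r hr
    rw [mem_range] at hr
    by_cases hw : n ≤ 8 * r ∧ 8 * r ≤ 7 * n
    · obtain ⟨hw1, hw2⟩ := hw
      have hmain := main_count (n := n) (r := r) (l := n / 8) (K := AN.Kn n) (p := n ^ 2 + n + 2)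
        (by omega) σ a (σ a) rfl
      have hI := C6.info_card (n := n) (l := n / 8) (by omega) r
        (fun s B hB => C4.relH_card hB)
      have hI' : (((BF n r).image (info (n / 8) r)).card : ℝ) ≤
          ((2 : ℝ) ^ (AN.Fs n)) ^ 2 * ((AN.SB n (2 * AN.N0 n / (n / 8) ^ 2) : ℕ) : ℝ) ^ 2 := by
        exact_mod_cast hI
      have hV := hv a (σ a) (fun h => ha h.symm) r hw1 hw2
      have hS := st_le_mm (n := n) (r := r) (by omega) (by omega)
      have hB := BF_le_mm (n := n) (r := r) (by omega)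
      set I : ℝ := (((BF n r).image (info (n / 8) r)).card : ℝ)
      set J : ℝ := ((2 : ℝ) ^ (AN.Fs n)) ^ 2 * ((AN.SB n (2 * AN.N0 n / (n / 8) ^ 2) : ℕ) : ℝ) ^ 2
      set S : ℝ := ((St (powersetCard r (univ : Finset (Fin n)))).card : ℝ)
      set V : ℝ := ((St (Vab r a (σ a))).card : ℝ)
      have hI0 : 0 ≤ I := by positivity
      have hS0 : 0 ≤ S := by positivity
      have hV0 : 0 ≤ V := by positivity
      have hP : (0 : ℝ) < 2 ^ (n ^ 2 + n + 2) := by positivity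
      -- term 1
      have t1 : ((BF n r).card : ℝ) / 2 ^ (n ^ 2 + n + 2) * 2 ^ (n ^ 2 + n + 2) ≤ mm n := by
        rw [div_mul_cancel₀ _ (ne_of_gt hP)]; exact hB
      -- term 2
      have t2 : I * S / 2 ^ (AN.Kn n) * 2 ^ (n ^ 2 + n + 2) ≤ mm n := by
        have e1 : I * 2 ^ (n ^ 2 + n + 2) ≤ 2 ^ (AN.Kn n) :=
          le_trans (mul_le_mul_of_nonneg_right hI' hP.le) h1
        have e2 : I * 2 ^ (n ^ 2 + n + 2) / 2 ^ (AN.Kn n) ≤ 1 := by
          rw [div_le_one (by positivity)]; exact e1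
        calc I * S / 2 ^ (AN.Kn n) * 2 ^ (n ^ 2 + n + 2)
            = S * (I * 2 ^ (n ^ 2 + n + 2) / 2 ^ (AN.Kn n)) := by ring
          _ ≤ S * 1 := mul_le_mul_of_nonneg_left e2 hS0
          _ ≤ mm n := by rw [mul_one]; exact hS
      -- term 3
      have t3 : I * (SB n (AN.Kn n) : ℝ) * (SB n (3 * (n ^ 2 + n + 2)) : ℝ) * V *
          2 ^ (n ^ 2 + n + 2) ≤ mm n := by
        have hsb : ∀ k, SB n k = AN.SB n k := fun k => rfl
        rw [hsb, hsb]
        have e1 : I * (AN.SB n (AN.Kn n) : ℝ) * (AN.SB n (3 * (n ^ 2 + n + 2)) : ℝ) *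
            2 ^ (n ^ 2 + n + 2) ≤ (2 : ℝ) ^ ((AN.N0 n : ℝ) / n / 500) := by
          refine le_trans ?_ h2
          gcongr
        calc I * (AN.SB n (AN.Kn n) : ℝ) * (AN.SB n (3 * (n ^ 2 + n + 2)) : ℝ) * V *
            2 ^ (n ^ 2 + n + 2) = V * (I * (AN.SB n (AN.Kn n) : ℝ) *
              (AN.SB n (3 * (n ^ 2 + n + 2)) : ℝ) * 2 ^ (n ^ 2 + n + 2)) := by ring
          _ ≤ V * (2 : ℝ) ^ ((AN.N0 n : ℝ) / n / 500) := mul_le_mul_of_nonneg_left e1 hV0
          _ ≤ mm n := hV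
      have hsum : ((FixF r σ).card : ℝ) * 2 ^ (n ^ 2 + n + 2) ≤ 3 * mm n := by
        have := mul_le_mul_of_nonneg_right hmain hP.le
        rw [add_mul, add_mul] at this
        linarith
      have hpow : (2 : ℝ) ^ (n ^ 2 + n + 2) = 4 * 2 ^ (n ^ 2 + n) := by
        rw [pow_add]; norm_num; ring
      rw [hpow] at hsum
      nlinarith
    · have hc := choose_le_Fs (by omega) hw
      have e1 : ((FixF r σ).card : ℝ) ≤ 2 ^ (AN.Fs n) := by
        have : (FixF r σ).card ≤ 2 ^ (AN.Fs n) :=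
          (FixF_le σ).trans ((BF_card_le n r).trans (Nat.pow_le_pow_right (by norm_num) hc))
        exact_mod_cast this
      calc ((FixF r σ).card : ℝ) * 2 ^ (n ^ 2 + n) ≤ 2 ^ (AN.Fs n) * 2 ^ (n ^ 2 + n + 2) :=
            mul_le_mul e1 (pow_le_pow_right₀ (by norm_num) (by omega)) (by positivity)
              (by positivity)
        _ ≤ _ := h3.1
        _ ≤ _ := hmm
  have hn1 : ((n : ℝ) + 1) ≤ 2 ^ n := by
    have : n + 1 ≤ 2 ^ n := Nat.lt_two_pow_self
    exact_mod_cast this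
  have hp : (2 : ℝ) ^ (n ^ 2 + n) = 2 ^ (n ^ 2) * 2 ^ n := pow_add _ _ _
  have hsum : (∑ r ∈ range (n + 1), ((FixF r σ).card : ℝ)) * 2 ^ (n ^ 2 + n) ≤ (n + 1) * mm n := by
    rw [sum_mul]
    calc ∑ r ∈ range (n + 1), ((FixF r σ).card : ℝ) * 2 ^ (n ^ 2 + n)
        ≤ ∑ r ∈ range (n + 1), mm n := sum_le_sum key
      _ = (n + 1) * mm n := by rw [sum_const, card_range, nsmul_eq_mul]; push_cast; ring
  have h4 : (∑ r ∈ range (n + 1), ((FixF r σ).card : ℝ)) * 2 ^ (n ^ 2) * 2 ^ n ≤ mm n * 2 ^ n := by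
    rw [mul_assoc, ← hp]
    refine hsum.trans ?_
    rw [mul_comm (mm n)]
    exact mul_le_mul_of_nonneg_right hn1 hmm0
  exact le_of_mul_le_mul_right h4 (by positivity)

end Pool.Agent.Helper46.A
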