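import Mathlib

set_option autoImplicit false

namespace Pool.Agent.Helper46.AN

open Finset Filter

/-- number of subfamilies with at most `k` members -/
def SB (n k : ℕ) : ℕ := ∑ j ∈ range (k + 1), (2 ^ n).choose j

/-- number of subsets of `Fin n` with at most `n / 8` elements -/
def Fs (n : ℕ) : ℕ := ∑ i ∈ range (n / 8 + 1), n.choose i

def N0 (n : ℕ) : ℕ := n.choose (n / 2)

def Kn (n : ℕ) : ℕ := N0 n / (n * Nat.sqrt n)

end Pool.Agent.Helper46.AN
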